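import Pool.Agent.Q283.GM.W49

/-!
# The matrix of a twist, and the number of the twists
-/

set_option autoImplicit false
set_option linter.unusedSectionVars false

open scoped Classical

namespace Q283.GW

open Finset Filter
open Q283.GM hiding DD rk_eq
open Pool.Agent.Y698 (Inq AX)
open Pool.Agent.Y698.SG (Spl Gp mat nq n4)
open Pool.Agent.Y687 (DD qs DD_natAbs)
open Pool.Agent.Y703.CQ (nr c2 Sp)
open Q283.XF (nf)
open Q283.J2 (RZ49 trn49 delta49 critQ lfun49 finite_set)

/-- the matrix with rows and columns indexed by `T` -/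
noncomputable def matR (S T : Finset ℕ) : Matrix T T (ZMod 2) := Matrix.of fun i j =>
  if i = j then
    (((S.filter fun r : ℕ => r ≠ (i : ℕ) ∧ ¬ IsSquare (r : ZMod (i : ℕ))).card : ZMod 2) +
      if ∃ y : ZMod (i : ℕ), y ^ 4 = -7 then 0 else 1)
  else if IsSquare ((j : ℕ) : ZMod (i : ℕ)) then 0 else 1

theorem matR_eq (S : Finset ℕ) : matR S (PA S) = mat (QA S) (PA S) := by
  ext i j
  unfold matR mat
  rw [Matrix.of_apply, Matrix.of_apply]
  by_cases hij : i = j
  · rw [if_pos hij, if_pos hij]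
    have h1 : (((S.filter fun r : ℕ => r ≠ (i : ℕ) ∧ ¬ IsSquare (r : ZMod (i : ℕ))).card : ℕ) :
        ZMod 2) = ∑ q ∈ S.erase i, nq i q := by
      have h2 : (S.filter fun r : ℕ => r ≠ (i : ℕ) ∧ ¬ IsSquare (r : ZMod (i : ℕ))) =
          (S.erase i).filter fun r : ℕ => ¬ IsSquare (r : ZMod (i : ℕ)) := by
        ext r
        simp only [mem_filter, mem_erase]
        tauto
      rw [h2, Finset.card_filter]
      push_cast
      refine Finset.sum_congr rfl fun r _ => ?_
      unfold nq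
      by_cases h : IsSquare (r : ZMod (i : ℕ))
      · rw [if_pos h, if_neg (not_not.2 h)]
      · rw [if_neg h, if_pos h]
    have h3 : S.erase i = QA S ∪ (PA S).erase i := by
      ext r
      rw [mem_erase, mem_union, mem_erase]
      unfold QA PA
      rw [mem_filter, mem_filter]
      have hi := (Finset.mem_filter.1 i.2).2
      constructor
      · rintro ⟨h1, h2⟩
        by_cases h : ρ49.Φ.A r
        · exact Or.inr ⟨h1, h2, h⟩
        · exact Or.inl ⟨h2, h⟩
      · rintro (⟨h1, h2⟩ | ⟨h1, h2, -⟩)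
        · refine ⟨?_, h1⟩
          rintro rfl
          exact h2 hi
        · exact ⟨h1, h2⟩
    rw [h1, h3, Finset.sum_union]
    · unfold n4
      ring
    · rw [Finset.disjoint_left]
      intro a ha hb
      exact Finset.disjoint_left.1 (disj_A S) ha (Finset.mem_of_mem_erase hb)
  · rw [if_neg hij, if_neg hij]
    rfl

/-- the split primes, by congruences -/
theorem PA_eq {S : Finset ℕ} (h : CF S) :
    S.filter (fun p => p % 7 = 1 ∨ p % 7 = 2 ∨ p % 7 = 4) = PA S := by
  unfold PA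
  refine Finset.filter_congr fun p hp => ?_
  rw [A49]
  have := h p hp
  tauto

theorem det_R {S : Finset ℕ} (h : CF S) :
    (matR S (S.filter (fun p => p % 7 = 1 ∨ p % 7 = 2 ∨ p % 7 = 4))).det ≠ 0 ↔
      rk ρ49.Φ nf S = 0 := by
  rw [PA_eq h, matR_eq, det_rk]

/-- **the number of the twists** -/
theorem count_low {M : ℕ} (U : Fin M → Finset ℕ) (hU : ∀ k, CF (U k))
    (hinj : ∀ k l, k ≠ l → U k ≠ U l) : ∃ (c : ℝ) (X₀ : ℕ), 0 < c ∧ ∀ X : ℕ, X₀ ≤ X →
    c * (X / Real.sqrt (Real.log X)) ≤ (((Icc 1 X).filter fun D : ℕ => C4 D ∧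
        ∀ k, RZ49 ((D : ℤ) * DD (U k))).card : ℝ) := by
  obtain ⟨c, X₀, hc, hX⟩ := ρ49.ok.low
  have hδ : ρ49.δ = 1 / 2 := by
    unfold RC.δ
    have e1 : (ρ49.𝒜 ∪ ρ49.ℬ).card = 6 := by decide
    have e2 : ρ49.m.totient = 12 := by
      show Nat.totient 28 = 12
      decide
    rw [e1, e2]
    norm_num
  have h1 := prop4 U hU hinj
  have hc2 : (0 : ℝ) < c2 ^ M := pow_pos (lt_trans (by norm_num) Pool.Agent.Y948.CQ.t_C2.2.2.2.1) M
  have h2 := h1.eventually (lt_mem_nhds (half_lt_self hc2))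
  rw [eventually_atTop] at h2
  obtain ⟨X₁, hX₁⟩ := h2
  refine ⟨c * (c2 ^ M / 2), max (max X₀ X₁) 3, by positivity, fun X hX3 => ?_⟩
  have a1 := hX X (by omega)
  have a2 := hX₁ X (by omega)
  have hX' : (3 : ℝ) ≤ X := by exact_mod_cast (le_max_right _ _).trans hX3
  have hlog : 0 < Real.log X := Real.log_pos (by linarith)
  rw [hδ] at a1
  have e1 : (-1 + 1 / 2 : ℝ) = -(1 / 2) := by norm_num
  rw [e1, Real.rpow_neg hlog.le, ← Real.sqrt_eq_rpow] at a1
  have e2 := card_eq ρ49.Φ X (fun _ => True)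
  rw [Finset.filter_true] at e2
  simp only [and_true] at e2
  have e3 : (((Icc 1 X).filter fun D => Squarefree D ∧ ∀ p ∈ D.primeFactors,
      ρ49.Φ.P p).card) = ((Icc 1 X).filter fun D : ℕ => C4 D).card := by
    refine cardf (fun D => ?_) _
    unfold C4 CF
    simp only [P49]
  rw [← e2, e3] at a1
  set T : ℝ := (((Icc 1 X).filter fun D : ℕ => C4 D).card : ℝ) with hT
  have hTpos : 0 < T := lt_of_lt_of_le (by positivity) a1
  have a3 := (lt_div_iff₀ hTpos).1 a2
  have e4 : c * (c2 ^ M / 2) * (X / Real.sqrt (Real.log X)) =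
      c2 ^ M / 2 * (c * X * (Real.sqrt (Real.log X))⁻¹) := by
    rw [div_eq_mul_inv (X : ℝ)]
    ring
  rw [e4]
  have a4 : c2 ^ M / 2 * (c * X * (Real.sqrt (Real.log X))⁻¹) ≤ c2 ^ M / 2 * T :=
    mul_le_mul_of_nonneg_left a1 (by positivity)
  exact a4.trans a3.le

end Q283.GW
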