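import Pool.Agent.Q283.GM.LA0
import Pool.Agent.Y948.CQ.C2

set_option autoImplicit false
set_option linter.unusedSectionVars false

/-!
# The limit law is a probability distribution (Euler), and its tails
-/

namespace Q283.GS

open Finset Filter
open Pool.Agent.Y697.PQ (cf cf_pos pm1)
open Pool.Agent.Y703.CQ (c2)
open Q283.GM (cf_le_one)

theorem cf_mul (r : ℕ) : cf (r + 1) * (2 ^ (r + 1) - 1) = cf r := by
  rw [show cf (r + 1) = cf r / (2 ^ (r + 1) - 1) from rfl]
  have := pm1 r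
  exact div_mul_cancel₀ _ (by linarith)

theorem pow_le_sub (r : ℕ) : (2 : ℝ) ^ r ≤ 2 ^ (r + 1) - 1 := by
  have h : (1 : ℝ) ≤ 2 ^ r := one_le_pow₀ (by norm_num)
  rw [pow_succ]
  linarith

theorem cf_succ_le (r : ℕ) : cf (r + 1) ≤ cf r * (1 / 2) ^ r := by
  rw [show cf (r + 1) = cf r / (2 ^ (r + 1) - 1) from rfl, one_div, inv_pow, ← div_eq_mul_inv]
  exact div_le_div_of_nonneg_left (cf_pos r).le (by positivity) (pow_le_sub r)

theorem cf_le (r : ℕ) : cf (r + 1) ≤ (1 / 2) ^ r :=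
  (cf_succ_le r).trans (mul_le_of_le_one_left (by positivity) (cf_le_one r))

theorem summ {x : ℝ} (h0 : 0 ≤ x) (h1 : x ≤ 1) : Summable fun r => cf r * x ^ r := by
  rw [← summable_nat_add_iff 1]
  refine Summable.of_nonneg_of_le (fun r => ?_) (fun r => ?_)
    (summable_geometric_of_lt_one (r := (1 / 2 : ℝ)) (by norm_num) (by norm_num))
  · have := cf_pos (r + 1)
    positivity
  · calc cf (r + 1) * x ^ (r + 1) ≤ cf (r + 1) * 1 := by
          refine mul_le_mul_of_nonneg_left (pow_le_one₀ h0 h1) (cf_pos _).le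
      _ ≤ (1 / 2) ^ r := by rw [mul_one]; exact cf_le r

/-- Euler's series -/
noncomputable def Fe (x : ℝ) : ℝ := ∑' r, cf r * x ^ r

theorem Fe_double {x : ℝ} (h0 : 0 ≤ x) (h1 : 2 * x ≤ 1) : Fe (2 * x) = (1 + x) * Fe x := by
  have hx : x ≤ 1 := by linarith
  have s1 := summ h0 hx
  have s2 := summ (x := 2 * x) (by linarith) h1
  have e1 : Fe (2 * x) = 1 + ∑' r, cf (r + 1) * (2 * x) ^ (r + 1) := by
    unfold Fe
    rw [s2.tsum_eq_zero_add]
    simp [cf]
  have e2 : Fe x = 1 + ∑' r, cf (r + 1) * x ^ (r + 1) := by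
    unfold Fe
    rw [s1.tsum_eq_zero_add]
    simp [cf]
  have e3 : ∑' r, cf (r + 1) * (2 * x) ^ (r + 1) = ∑' r, cf (r + 1) * x ^ (r + 1) + x * Fe x := by
    unfold Fe
    rw [← tsum_mul_left, ← Summable.tsum_add ((summable_nat_add_iff 1).2 s1) (s1.mul_left x)]
    refine tsum_congr fun r => ?_
    rw [← cf_mul r, mul_pow, pow_succ x]
    ring
  rw [e1, e3, ← add_assoc, ← e2]
  ring

theorem Fe_prod (n : ℕ) : Fe 1 = (∏ i ∈ range n, (1 + (1 / 2 : ℝ) ^ (i + 1))) * Fe ((1 / 2) ^ n) := by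
  induction n with
  | zero => simp
  | succ n ih =>
    have h : (1 / 2 : ℝ) ^ n = 2 * (1 / 2) ^ (n + 1) := by
      rw [pow_succ]
      ring
    have h1 : (1 / 2 : ℝ) ^ n ≤ 1 := pow_le_one₀ (by norm_num) (by norm_num)
    rw [ih, h, Fe_double (by positivity) (by rw [← h]; exact h1), Finset.prod_range_succ]
    ring

theorem Fe_near {x : ℝ} (h0 : 0 ≤ x) (h1 : x ≤ 1) : |Fe x - 1| ≤ 2 * x := by
  have s1 := summ h0 h1
  have e2 : Fe x - 1 = ∑' r, cf (r + 1) * x ^ (r + 1) := by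
    unfold Fe
    rw [s1.tsum_eq_zero_add]
    simp [cf]
  have s2 := (summable_nat_add_iff 1).2 s1
  have hn : 0 ≤ ∑' r, cf (r + 1) * x ^ (r + 1) := tsum_nonneg fun r => by
    have := cf_pos (r + 1)
    positivity
  rw [e2, abs_of_nonneg hn]
  have s3 := (summable_geometric_of_lt_one (r := (1 / 2 : ℝ)) (by norm_num) (by norm_num)).mul_left x
  refine (s2.tsum_le_tsum (fun r => ?_) s3).trans (le_of_eq ?_)
  · calc cf (r + 1) * x ^ (r + 1) ≤ (1 / 2) ^ r * x := by
          refine mul_le_mul (cf_le r) ?_ (by positivity) (by positivity)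
          rw [pow_succ]
          exact mul_le_of_le_one_left h0 (pow_le_one₀ h0 h1)
      _ = x * (1 / 2) ^ r := mul_comm _ _
  · rw [tsum_mul_left, tsum_geometric_of_lt_one (by norm_num) (by norm_num)]
    norm_num
    ring

/-- the finite form of Euler's identity -/
theorem prod_fin (n : ℕ) : (∏ i ∈ range n, (1 - (1 / 2 : ℝ) ^ (2 * i + 1))) *
    (∏ i ∈ range n, (1 + (1 / 2 : ℝ) ^ (i + 1))) * (∏ i ∈ range n, (1 - (1 / 2 : ℝ) ^ (i + 1))) =
    ∏ i ∈ range (2 * n), (1 - (1 / 2 : ℝ) ^ (i + 1)) := by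
  induction n with
  | zero => simp
  | succ n ih =>
    rw [Finset.prod_range_succ, Finset.prod_range_succ, Finset.prod_range_succ,
      show 2 * (n + 1) = 2 * n + 1 + 1 by ring, Finset.prod_range_succ, Finset.prod_range_succ, ← ih]
    have e : (1 / 2 : ℝ) ^ (2 * n + 1 + 1) = (1 / 2) ^ (n + 1) * (1 / 2) ^ (n + 1) := by
      rw [← pow_add]
      congr 1
      ring
    rw [e]
    ring

theorem prod_up (n : ℕ) : ∏ i ∈ range (2 * n), (1 - (1 / 2 : ℝ) ^ (i + 1)) ≤
    ∏ i ∈ range n, (1 - (1 / 2 : ℝ) ^ (i + 1)) ∧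
    (∏ i ∈ range n, (1 - (1 / 2 : ℝ) ^ (i + 1))) * (1 - (1 / 2) ^ n) ≤
    ∏ i ∈ range (2 * n), (1 - (1 / 2 : ℝ) ^ (i + 1)) := by
  have hpos : ∀ i : ℕ, 0 < 1 - (1 / 2 : ℝ) ^ (i + 1) := fun i => by
    have : (1 / 2 : ℝ) ^ (i + 1) < 1 := pow_lt_one₀ (by norm_num) (by norm_num) (by omega)
    linarith
  have hle : ∀ i : ℕ, 1 - (1 / 2 : ℝ) ^ (i + 1) ≤ 1 := fun i => by
    have : (0 : ℝ) < (1 / 2 : ℝ) ^ (i + 1) := by positivity
    linarith
  rw [two_mul, Finset.prod_range_add]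
  have h0 : 0 < ∏ i ∈ range n, (1 - (1 / 2 : ℝ) ^ (i + 1)) := Finset.prod_pos fun i _ => hpos i
  have key : ∀ m : ℕ, 1 - (1 / 2 : ℝ) ^ n + (1 / 2) ^ (n + m) ≤
      ∏ i ∈ range m, (1 - (1 / 2 : ℝ) ^ (n + i + 1)) := by
    intro m
    induction m with
    | zero => simp
    | succ m ih =>
      rw [Finset.prod_range_succ]
      have hp : ∏ i ∈ range m, (1 - (1 / 2 : ℝ) ^ (n + i + 1)) ≤ 1 :=
        Finset.prod_le_one (fun i _ => (hpos _).le) fun i _ => hle _
      have e1 : (1 / 2 : ℝ) ^ (n + (m + 1)) = (1 / 2) ^ (n + m) / 2 := by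
        rw [← add_assoc, pow_succ]
        ring
      have e2 : (1 / 2 : ℝ) ^ (n + m + 1) = (1 / 2) ^ (n + m) / 2 := by
        rw [pow_succ]
        ring
      rw [e1, e2]
      have h3 : (0 : ℝ) < (1 / 2) ^ (n + m) := by positivity
      nlinarith
  refine ⟨mul_le_of_le_one_right h0.le (Finset.prod_le_one (fun i _ => (hpos _).le)
    fun i _ => hle _), mul_le_mul_of_nonneg_left ?_ h0.le⟩
  have h1 := key n
  have h2 : (0 : ℝ) < (1 / 2) ^ (n + n) := by positivity
  linarith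

/-- **the sum of the limit law** -/
theorem sum_law : c2 * Fe 1 = 1 := by
  obtain ⟨hc, hc0, -⟩ := Pool.Agent.Y948.CQ.t_C2
  set P : ℕ → ℝ := fun n => ∏ i ∈ range n, (1 - (1 / 2 : ℝ) ^ (2 * i + 1)) with hP
  set Q : ℕ → ℝ := fun n => ∏ i ∈ range n, (1 + (1 / 2 : ℝ) ^ (i + 1)) with hQ
  have hh : Tendsto (fun n : ℕ => (1 / 2 : ℝ) ^ n) atTop (nhds 0) :=
    tendsto_pow_atTop_nhds_zero_of_lt_one (by norm_num) (by norm_num)
  have hPl : Tendsto P atTop (nhds c2) := by
    rw [tendsto_iff_norm_sub_tendsto_zero]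
    refine squeeze_zero (fun n => norm_nonneg _) (fun n => hc n) ?_
    exact tendsto_pow_atTop_nhds_zero_of_lt_one (by norm_num) (by norm_num)
  have hPQ : Tendsto (fun n => P n * Q n) atTop (nhds 1) := by
    have hpos : ∀ n, 0 < ∏ i ∈ range n, (1 - (1 / 2 : ℝ) ^ (i + 1)) := fun n =>
      Finset.prod_pos fun i _ => by
        have : (1 / 2 : ℝ) ^ (i + 1) < 1 := pow_lt_one₀ (by norm_num) (by norm_num) (by omega)
        linarith
    refine tendsto_of_tendsto_of_tendsto_of_le_of_le (g := fun n : ℕ => 1 - (1 / 2 : ℝ) ^ n)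
      (h := fun _ => 1) ?_ tendsto_const_nhds (fun n => ?_) (fun n => ?_)
    · simpa using hh.const_sub 1
    · obtain ⟨-, h2⟩ := prod_up n
      rw [← prod_fin, mul_comm] at h2
      exact le_of_mul_le_mul_right h2 (hpos n)
    · obtain ⟨h1, -⟩ := prod_up n
      rw [← prod_fin] at h1
      exact (mul_le_iff_le_one_left (hpos n)).1 h1
  have hF : Tendsto (fun n : ℕ => Fe ((1 / 2) ^ n)) atTop (nhds 1) := by
    rw [tendsto_iff_norm_sub_tendsto_zero]
    have hg : Tendsto (fun n : ℕ => 2 * (1 / 2 : ℝ) ^ n) atTop (nhds 0) := by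
      simpa using hh.const_mul 2
    refine squeeze_zero (fun n => norm_nonneg _) (fun n => ?_) hg
    exact Fe_near (x := (1 / 2) ^ n) (by positivity) (pow_le_one₀ (by norm_num) (by norm_num))
  have h1 : Tendsto (fun n => P n * Fe 1) atTop (nhds (c2 * Fe 1)) := hPl.mul_const _
  have h2 : Tendsto (fun n => P n * Fe 1) atTop (nhds (1 * 1)) := by
    refine (hPQ.mul hF).congr fun n => ?_
    rw [Fe_prod n, mul_assoc]
  rw [one_mul] at h2
  exact tendsto_nhds_unique h1 h2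

/-- the limit law -/
noncomputable def al (r : ℕ) : ℝ := c2 * cf r

theorem hasSum_al : HasSum al 1 := by
  have h1 : Summable cf := by
    have := summ (x := 1) zero_le_one le_rfl
    simpa using this
  have h2 : Fe 1 = ∑' r, cf r := by
    unfold Fe
    simp
  rw [← sum_law, h2]
  exact h1.hasSum.mul_left c2

theorem al_pos (r : ℕ) : 0 < al r :=
  mul_pos (lt_trans (by norm_num) Pool.Agent.Y948.CQ.t_C2.2.2.2.1) (cf_pos r)

/-- **the tails of the limit law** -/
theorem tail_al (k : ℕ) : 1 - ∑ r ∈ range (k + 1), al r ≤ cf (k + 1) := by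
  have hc : c2 < 1 / 2 := lt_trans Pool.Agent.Y948.CQ.t_C2.2.2.2.2 (by norm_num)
  have hc0 : 0 < c2 := lt_trans (by norm_num) Pool.Agent.Y948.CQ.t_C2.2.2.2.1
  have h1 : ∑' j, al (j + (k + 1)) = 1 - ∑ r ∈ range (k + 1), al r := by
    have h2 := hasSum_al.summable.sum_add_tsum_nat_add (k + 1)
    rw [hasSum_al.tsum_eq] at h2
    linarith
  rw [← h1]
  have h3 : ∀ j, al (j + (k + 1)) ≤ c2 * cf (k + 1) * (1 / 2) ^ j := by
    intro j
    induction j with
    | zero => rw [zero_add, pow_zero, mul_one]; exact le_rfl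
    | succ j ih =>
      have e : j + 1 + (k + 1) = j + (k + 1) + 1 := by ring
      rw [e]
      have h4 : cf (j + (k + 1) + 1) ≤ cf (j + (k + 1)) * (1 / 2) := by
        refine (cf_succ_le _).trans ?_
        refine mul_le_mul_of_nonneg_left ?_ (cf_pos _).le
        calc (1 / 2 : ℝ) ^ (j + (k + 1)) ≤ (1 / 2) ^ 1 :=
              pow_le_pow_of_le_one (by norm_num) (by norm_num) (by omega)
          _ = 1 / 2 := pow_one _
      unfold al at ih ⊢
      calc c2 * cf (j + (k + 1) + 1) ≤ c2 * (cf (j + (k + 1)) * (1 / 2)) :=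
            mul_le_mul_of_nonneg_left h4 hc0.le
        _ = (c2 * cf (j + (k + 1))) * (1 / 2) := by ring
        _ ≤ (c2 * cf (k + 1) * (1 / 2) ^ j) * (1 / 2) :=
            mul_le_mul_of_nonneg_right ih (by norm_num)
        _ = c2 * cf (k + 1) * (1 / 2) ^ (j + 1) := by rw [pow_succ]; ring
  have hg := (summable_geometric_of_lt_one (r := (1 / 2 : ℝ)) (by norm_num)
    (by norm_num)).mul_left (c2 * cf (k + 1))
  have h5 := (((summable_nat_add_iff (k + 1)).2 hasSum_al.summable).tsum_le_tsum h3 hg)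
  refine h5.trans ?_
  rw [tsum_mul_left, tsum_geometric_of_lt_one (by norm_num) (by norm_num)]
  have := cf_pos (k + 1)
  nlinarith

end Q283.GS
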