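import Pool.Agent.Y697.PQ.Jt

/-!
# Several symmetric forms which are completed by the same form: the coranks

The joint law of the coranks of the completions, after `Pool.Agent.Y697.PQ.Jt` (helper697), where the
nonsingular completions are counted.
-/

set_option autoImplicit false

namespace Q283.GM

open Finset Module Filter Topology
open Pool.Agent.Y697.PP (Sy Nd YY mem_YY)
open Pool.Agent.Y697.PQ

theorem ij_self (r : ℕ) : ij r (2 ^ r) = 2 ^ (r * (r - 1) / 2) / cf r := by
  induction r with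
  | zero => simp [ij, cf]
  | succ r ih =>
    have h1 : ij (r + 1) (2 ^ (r + 1)) = (2 ^ (r + 1) - 1) * (2 ^ r * ij r (2 ^ r)) := by
      unfold ij
      rw [Finset.prod_range_succ']
      have e : ∀ i ∈ range r, ((2 : ℝ) ^ (r + 1) - 2 ^ (i + 1)) = 2 * (2 ^ r - 2 ^ i) := by
        intro i _
        rw [pow_succ, pow_succ]
        ring
      rw [Finset.prod_congr rfl e, Finset.prod_mul_distrib, Finset.prod_const, Finset.card_range,
        pow_zero]
      ring
    have h2 := pm1 r
    have h3 := cf_pos r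
    rw [h1, ih, tri, pow_add, show cf (r + 1) = cf r / (2 ^ (r + 1) - 1) from rfl]
    have h4 : (2 : ℝ) ^ (r + 1) - 1 ≠ 0 := by linarith
    field_simp
    ring

theorem cf_le_one (r : ℕ) : cf r ≤ 1 := by
  induction r with
  | zero => exact le_of_eq rfl
  | succ r ih =>
    rw [show cf (r + 1) = cf r / (2 ^ (r + 1) - 1) from rfl]
    have h2 := pm1 r
    rw [div_le_one (by linarith)]
    linarith

theorem ij_self_pos (r : ℕ) : 0 < ij r (2 ^ r) := by
  rw [ij_self]
  have := cf_pos r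
  positivity

theorem ij_add (r j c : ℕ) : ij (r + j) (2 ^ (r + c)) = ij r (2 ^ (r + c)) * (2 ^ (r * j) * ij j (2 ^ c)) := by
  unfold ij
  rw [Finset.prod_range_add]
  congr 1
  have e : ∀ i ∈ range j, ((2 : ℝ) ^ (r + c) - 2 ^ (r + i)) = 2 ^ r * (2 ^ c - 2 ^ i) := by
    intro i _
    rw [pow_add, pow_add]
    ring
  rw [Finset.prod_congr rfl e, Finset.prod_mul_distrib, Finset.prod_const, Finset.card_range, ← pow_mul]

/-- the polynomial which is one at `2 ^ r` and zero at the other small powers of two -/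
noncomputable def qq (r I : ℕ) (x : ℝ) : ℝ :=
  (∑ j ∈ range (I + 1), (-1) ^ j * cf j * (2 ^ (r * j))⁻¹ * ij (r + j) x) / ij r (2 ^ r)

theorem qq_lt {r I c : ℕ} (h : c < r) : qq r I (2 ^ c) = 0 := by
  unfold qq
  rw [Finset.sum_eq_zero, zero_div]
  intro j _
  rw [ij_zero (show c < r + j by omega), mul_zero]

theorem qq_ge (r I c : ℕ) : qq r I (2 ^ (r + c)) =
    ij r (2 ^ (r + c)) / ij r (2 ^ r) * pp I (2 ^ c) := by
  unfold qq
  rw [← pp_eq, div_mul_eq_mul_div, Finset.mul_sum]
  congr 1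
  refine Finset.sum_congr rfl fun j _ => ?_
  rw [ij_add]
  have : (2 : ℝ) ^ (r * j) ≠ 0 := by positivity
  field_simp

theorem ij_nn (r c : ℕ) : 0 ≤ ij r (2 ^ (r + c)) := by
  unfold ij
  refine Finset.prod_nonneg fun i hi => ?_
  rw [Finset.mem_range] at hi
  have : (2 : ℝ) ^ i ≤ 2 ^ (r + c) := pow_le_pow_right₀ (by norm_num) (by omega)
  linarith

theorem qq_even {I : ℕ} (hI : Even I) (r c : ℕ) : (if c = r then (1 : ℝ) else 0) ≤ qq r I (2 ^ c) := by
  rcases lt_or_ge c r with h | h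
  · rw [qq_lt h, if_neg (by omega)]
  · obtain ⟨d, rfl⟩ := Nat.exists_eq_add_of_le h
    rw [qq_ge]
    have h1 := pp_even hI d
    have h2 := ij_nn r d
    have h3 := ij_self_pos r
    by_cases hd : d = 0
    · subst hd
      rw [if_pos rfl] at h1
      rw [if_pos (by simp), add_zero, div_self h3.ne', one_mul]
      exact h1
    · rw [if_neg hd] at h1
      rw [if_neg (by omega)]
      positivity

theorem qq_odd {I : ℕ} (hI : Odd I) (r c : ℕ) : qq r I (2 ^ c) ≤ (if c = r then (1 : ℝ) else 0) := by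
  rcases lt_or_ge c r with h | h
  · rw [qq_lt h, if_neg (by omega)]
  · obtain ⟨d, rfl⟩ := Nat.exists_eq_add_of_le h
    rw [qq_ge]
    have h1 := pp_odd hI d
    have h2 := ij_nn r d
    have h3 := ij_self_pos r
    by_cases hd : d = 0
    · subst hd
      rw [if_pos rfl] at h1
      rw [if_pos (by simp), add_zero, div_self h3.ne', one_mul]
      exact h1
    · rw [if_neg hd] at h1
      rw [if_neg (by omega)]
      exact mul_nonpos_of_nonneg_of_nonpos (div_nonneg h2 h3.le) h1

theorem tri_sum (r j : ℕ) : (r + j) * (r + j - 1) / 2 = r * (r - 1) / 2 + j * (j - 1) / 2 + r * j := by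
  induction j with
  | zero => simp
  | succ j ih =>
    rw [← add_assoc, tri, ih, tri]
    ring

open Classical in
theorem sum_qq {V : Type} [AddCommGroup V] [Module (ZMod 2) V] [Fintype V]
    {𝒴 : Finset (LinearMap.BilinForm (ZMod 2) V)} {B : LinearMap.BilinForm (ZMod 2) V} {γ N δ : ℝ}
    (hN : 0 ≤ N) {r I : ℕ}
    (h : ∀ j ≤ r + I, |∑ Y ∈ 𝒴, ij j (2 ^ finrank (ZMod 2) (LinearMap.ker (B + Y))) -
      γ * 2 ^ (j * (j - 1) / 2) * N| ≤ 2 ^ (j * (j - 1) / 2) * N * δ) (hδ : 0 ≤ δ) :
    |∑ Y ∈ 𝒴, qq r I (2 ^ finrank (ZMod 2) (LinearMap.ker (B + Y))) -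
      γ * cf r * (∑ j ∈ range (I + 1), (-1) ^ j * ff j) * N| ≤ N * ((I + 1) * δ) := by
  set t : ℝ := 2 ^ (r * (r - 1) / 2) with ht
  have ht0 : 0 < t := by positivity
  have hcr := cf_pos r
  have hcr1 := cf_le_one r
  have hs : ij r (2 ^ r) = t / cf r := ij_self r
  have h1 : ∑ Y ∈ 𝒴, qq r I (2 ^ finrank (ZMod 2) (LinearMap.ker (B + Y))) =
      ∑ j ∈ range (I + 1), (-1) ^ j * cf j * (2 ^ (r * j))⁻¹ * (cf r / t) *
        ∑ Y ∈ 𝒴, ij (r + j) (2 ^ finrank (ZMod 2) (LinearMap.ker (B + Y))) := by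
    unfold qq
    rw [hs]
    simp only [Finset.sum_div, Finset.mul_sum]
    rw [Finset.sum_comm]
    refine Finset.sum_congr rfl fun j _ => Finset.sum_congr rfl fun Y _ => ?_
    field_simp
  have h2 : γ * cf r * (∑ j ∈ range (I + 1), (-1) ^ j * ff j) * N =
      ∑ j ∈ range (I + 1), (-1) ^ j * cf j * (2 ^ (r * j))⁻¹ * (cf r / t) *
        (γ * 2 ^ ((r + j) * (r + j - 1) / 2) * N) := by
    rw [Finset.mul_sum, Finset.sum_mul]
    refine Finset.sum_congr rfl fun j _ => ?_
    unfold ff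
    rw [tri_sum, pow_add, pow_add, ← ht]
    have : (2 : ℝ) ^ (r * j) ≠ 0 := by positivity
    field_simp
  rw [h1, h2, ← Finset.sum_sub_distrib]
  refine (Finset.abs_sum_le_sum_abs _ _).trans ?_
  have h3 : ∀ j ∈ range (I + 1), |(-1) ^ j * cf j * (2 ^ (r * j))⁻¹ * (cf r / t) *
      ∑ Y ∈ 𝒴, ij (r + j) (2 ^ finrank (ZMod 2) (LinearMap.ker (B + Y))) -
      (-1) ^ j * cf j * (2 ^ (r * j))⁻¹ * (cf r / t) *
        (γ * 2 ^ ((r + j) * (r + j - 1) / 2) * N)| ≤ N * δ := by
    intro j hj
    rw [Finset.mem_range] at hj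
    have h4 := h (r + j) (by omega)
    have hcj := cf_pos j
    have hp : (0 : ℝ) < (2 ^ (r * j))⁻¹ := by positivity
    have hq : 0 < cf r / t := by positivity
    rw [← mul_sub, abs_mul, abs_mul, abs_mul, abs_mul, abs_pow, abs_neg, abs_one, one_pow, one_mul,
      abs_of_pos hcj, abs_of_pos hp, abs_of_pos hq]
    refine (mul_le_mul_of_nonneg_left h4 (by positivity)).trans ?_
    have h5 := ff_le_one j
    have h6 : cf j * (2 ^ (r * j))⁻¹ * (cf r / t) * (2 ^ ((r + j) * (r + j - 1) / 2) * N * δ) =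
        ff j * cf r * (N * δ) := by
      unfold ff
      rw [tri_sum, pow_add, pow_add, ← ht]
      have : (2 : ℝ) ^ (r * j) ≠ 0 := by positivity
      field_simp
    rw [h6]
    refine mul_le_of_le_one_left (mul_nonneg hN hδ) ?_
    exact mul_le_one₀ h5 hcr.le hcr1
  refine (Finset.sum_le_sum h3).trans (le_of_eq ?_)
  rw [Finset.sum_const, Finset.card_range, nsmul_eq_mul]
  push_cast
  ring

open Classical in
/-- **The joint law of the coranks** -/
theorem thmR (M : ℕ) : ∀ (r : Fin M → ℕ) (ε : ℝ), 0 < ε → ∃ R : ℕ, ∀ (V : Type) [AddCommGroup V]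
    [Module (ZMod 2) V] [Fintype V] (W : Submodule (ZMod 2) V)
    (B : Fin M → LinearMap.BilinForm (ZMod 2) V) (d t : ℕ),
    (∀ k, Sy (B k)) → (∀ k, Nd (B k) W) →
    (∀ k l, k ≠ l → finrank (ZMod 2) (JJ (B k) (B l) W) ≤ d) → finrank (ZMod 2) W ≤ d →
    finrank (ZMod 2) W + t = finrank (ZMod 2) V → d + R ≤ t →
    |(((YY W).filter fun Y => ∀ k, finrank (ZMod 2) (LinearMap.ker (B k + Y)) = r k).card : ℝ) -
      (∏ k, gi * cf (r k)) * (YY W).card| ≤ ε * (YY W).card := by
  induction M with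
  | zero =>
    intro r ε hε
    refine ⟨0, ?_⟩
    intro V _ _ _ W B d t _ _ _ _ _ _
    have h1 : ((YY W).filter fun Y => ∀ k : Fin 0,
        finrank (ZMod 2) (LinearMap.ker (B k + Y)) = r k) = YY W :=
      Finset.filter_true_of_mem fun Y _ k => k.elim0
    rw [h1, Finset.univ_eq_empty, Finset.prod_empty, one_mul, sub_self, abs_zero]
    positivity
  | succ M ih =>
    intro r ε hε
    obtain ⟨n₀, hn₀⟩ := (Metric.tendsto_atTop.1 gi_tendsto) (ε / 3) (by positivity)
    set J : ℕ := 2 * n₀ + 1 with hJ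
    set r₀ : ℕ := r 0 with hr₀
    set L : ℕ := r₀ + J + 1 with hL
    set η : ℝ := ε / (3 * (J + 2)) with hη
    have hη0 : 0 < η := by positivity
    obtain ⟨R₁, hR₁⟩ := ih (fun k => r k.succ) η hη0
    obtain ⟨R₂, hR₂⟩ : ∃ R₂ : ℕ, ((M : ℝ) + 1) * 2 ^ L * (J + 2) * 3 / ε < 2 ^ R₂ :=
      pow_unbounded_of_one_lt _ (by norm_num)
    refine ⟨R₁ + R₂ + 2 * L, ?_⟩
    intro V _ _ _ W B d t hSy hNd hJJ hWd ht hR
    have hfin : Module.Finite (ZMod 2) V := Module.Finite.of_finite
    obtain ⟨G, hG⟩ : ∃ G : LinearMap.BilinForm (ZMod 2) V → Prop,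
        ∀ Y, G Y ↔ ∀ k : Fin M, finrank (ZMod 2) (LinearMap.ker (B k.succ + Y)) = r k.succ :=
      ⟨_, fun _ => Iff.rfl⟩
    set γ : ℝ := ∏ k : Fin M, gi * cf (r k.succ) with hγ
    have hgi0 : 0 ≤ gi := le_trans (by norm_num) gi_ge
    have hγ0 : 0 ≤ γ := Finset.prod_nonneg fun k _ => mul_nonneg hgi0 (cf_pos _).le
    have hγ1 : γ ≤ 1 := Finset.prod_le_one (fun k _ => mul_nonneg hgi0 (cf_pos _).le)
      fun k _ => mul_le_one₀ gi_le (cf_pos _).le (cf_le_one _)
    set N : ℝ := ((YY W).card : ℝ) with hNdef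
    have hN0 : 0 ≤ N := Nat.cast_nonneg _
    -- the exceptional set
    set Z : Finset V := (univ.filter fun x => x ∈ W) ∪
      (univ : Finset (Fin M)).biUnion fun k =>
        (univ.filter fun p : V × V => p ∈ JJ (B 0) (B k.succ) W).image Prod.fst with hZ
    have hcard : ∀ (E : Type) [AddCommGroup E] [Module (ZMod 2) E] [Fintype E]
        (S : Submodule (ZMod 2) E), (univ.filter fun x => x ∈ S).card = 2 ^ finrank (ZMod 2) S := by
      intro E _ _ _ S
      have hfinE : Module.Finite (ZMod 2) E := Module.Finite.of_finite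
      have h1 : (univ.filter fun x => x ∈ S).card = Nat.card S := by
        rw [Nat.card_eq_fintype_card, ← Fintype.card_coe]
        exact Fintype.card_congr (Equiv.subtypeEquivRight fun x => by simp)
      rw [h1, Module.natCard_eq_pow_finrank (K := ZMod 2), Nat.card_zmod]
    have hZc : Z.card ≤ (M + 1) * 2 ^ d := by
      have h1 : (univ.filter fun x => x ∈ W).card ≤ 2 ^ d := by
        rw [hcard V W]
        exact Nat.pow_le_pow_right (by norm_num) hWd
      have h2 : ((univ : Finset (Fin M)).biUnion fun k =>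
          (univ.filter fun p : V × V => p ∈ JJ (B 0) (B k.succ) W).image Prod.fst).card ≤
          M * 2 ^ d := by
        refine Finset.card_biUnion_le.trans ?_
        have h3 : ∀ k ∈ (univ : Finset (Fin M)), ((univ.filter fun p : V × V =>
            p ∈ JJ (B 0) (B k.succ) W).image Prod.fst).card ≤ 2 ^ d := by
          intro k _
          refine Finset.card_image_le.trans ?_
          rw [hcard (V × V) (JJ (B 0) (B k.succ) W)]
          exact Nat.pow_le_pow_right (by norm_num) (hJJ 0 k.succ (Fin.succ_ne_zero k).symm)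
        refine (Finset.sum_le_sum h3).trans (le_of_eq ?_)
        rw [Finset.sum_const, Finset.card_univ, Fintype.card_fin, smul_eq_mul]
      refine (Finset.card_union_le _ _).trans ?_
      rw [add_mul, one_mul]
      omega
    set δ : ℝ := η + Z.card * 2 ^ L / 2 ^ t with hδ
    have hδ0 : 0 ≤ δ := by positivity
    -- the estimate
    have hest : ∀ j ≤ L, |∑ Y ∈ (YY W).filter G,
        ij j (2 ^ finrank (ZMod 2) (LinearMap.ker (B 0 + Y))) -
        γ * 2 ^ (j * (j - 1) / 2) * N| ≤ 2 ^ (j * (j - 1) / 2) * N * δ := by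
      intro j hj
      have h1 := est (hSy 0) (hNd 0) ht G (γ := γ) (ε := η) hγ0 hγ1 hη0.le (j := j) (by omega) Z
        (fun w hw => Finset.mem_union_left _ (Finset.mem_filter.2 ⟨Finset.mem_univ _, hw⟩)) ?_
      · refine h1.trans ?_
        apply mul_le_mul_of_nonneg_left _ (by positivity)
        rw [hδ]
        have h2 : (2 : ℝ) ^ j ≤ 2 ^ L := pow_le_pow_right₀ (by norm_num) hj
        gcongr
      · intro v hvN hLI hvZ hd Y₀ hY₀ hY₀U
        have hY' := mem_YY.1 hY₀
        have hUW : ∀ u ∈ Submodule.span (ZMod 2) (Set.range v), ∀ w ∈ W, B 0 u w = 0 := by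
          intro u hu
          have : Submodule.span (ZMod 2) (Set.range v) ≤ Nn (B 0) W := by
            rw [Submodule.span_le]
            rintro x ⟨i, rfl⟩
            exact hvN i
          exact mem_Nn.1 (this hu)
        have hfr := finrank_sup_span hLI hd
        have h2 := hR₁ V (W ⊔ Submodule.span (ZMod 2) (Set.range v))
          (fun k => B k.succ + Y₀) (d + j) (t - j)
          (fun k => (hSy k.succ).add hY'.1) (fun k => ?_) (fun k l hkl => ?_) (by omega) (by omega)
          (by omega)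
        · have h3 : ((YY (W ⊔ Submodule.span (ZMod 2) (Set.range v))).filter
              fun Y => G (Y₀ + Y)) =
              (YY (W ⊔ Submodule.span (ZMod 2) (Set.range v))).filter
              fun Y => ∀ k : Fin M,
                finrank (ZMod 2) (LinearMap.ker (B k.succ + Y₀ + Y)) = r k.succ := by
            ext Y
            simp only [Finset.mem_filter, hG]
            refine and_congr_right fun _ => forall_congr' fun k => ?_
            rw [add_assoc]
          rw [h3]
          exact h2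
        · refine nd_JJ (hNd k.succ) hY₀ hY₀U hUW ?_
          intro u hu hu0 b hb
          obtain ⟨c, rfl⟩ := (Submodule.mem_span_range_iff_exists_fun (ZMod 2)).1 hu
          refine hvZ c (fun hc => hu0 (by rw [hc]; simp)) ?_
          rw [hZ]
          refine Finset.mem_union_right _ (Finset.mem_biUnion.2 ⟨k, Finset.mem_univ _, ?_⟩)
          exact Finset.mem_image.2 ⟨_, Finset.mem_filter.2 ⟨Finset.mem_univ _, hb⟩, rfl⟩
        · have h3 := finrank_JJ (B := B k.succ) (B' := B l.succ) hY₀ v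
          have h4 := hJJ k.succ l.succ (fun h => hkl (Fin.succ_injective _ h))
          omega
    have hδ' : (J + 2) * δ ≤ 2 * ε / 3 := by
      have h1 : ((J : ℝ) + 2) * η = ε / 3 := by
        rw [hη]
        field_simp
      have h2 : (Z.card : ℝ) * 2 ^ L / 2 ^ t ≤ (M + 1) * 2 ^ L / 2 ^ R₂ := by
        rw [div_le_div_iff₀ (by positivity) (by positivity)]
        have h3 : (Z.card : ℝ) ≤ (M + 1) * 2 ^ d := by exact_mod_cast hZc
        have h4 : (2 : ℝ) ^ d * 2 ^ R₂ ≤ 2 ^ t := by
          rw [← pow_add]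
          exact pow_le_pow_right₀ (by norm_num) (by omega)
        calc (Z.card : ℝ) * 2 ^ L * 2 ^ R₂ ≤ (M + 1) * 2 ^ d * 2 ^ L * 2 ^ R₂ := by
              gcongr
          _ = (M + 1) * 2 ^ L * (2 ^ d * 2 ^ R₂) := by ring
          _ ≤ _ := by gcongr
      have h3 : ((J : ℝ) + 2) * ((M + 1) * 2 ^ L / 2 ^ R₂) ≤ ε / 3 := by
        rw [← mul_div_assoc, div_le_div_iff₀ (by positivity) (by norm_num)]
        rw [div_lt_iff₀ hε] at hR₂
        nlinarith
      have h4 : ((J : ℝ) + 2) * δ = (J + 2) * η + (J + 2) * (Z.card * 2 ^ L / 2 ^ t) := by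
        rw [hδ]
        ring
      have h5 : ((J : ℝ) + 2) * (Z.card * 2 ^ L / 2 ^ t) ≤ ε / 3 :=
        (mul_le_mul_of_nonneg_left h2 (by positivity)).trans h3
      rw [h4, h1]
      linarith
    -- the count
    have hcnt : (((YY W).filter fun Y => ∀ k,
        finrank (ZMod 2) (LinearMap.ker (B k + Y)) = r k).card : ℝ) =
        ∑ Y ∈ (YY W).filter G,
          (if finrank (ZMod 2) (LinearMap.ker (B 0 + Y)) = r₀ then (1 : ℝ) else 0) := by
      rw [← Finset.sum_filter, Finset.sum_const, nsmul_eq_mul, mul_one, Finset.filter_filter]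
      congr 2
      ext Y
      simp only [Finset.mem_filter, hG]
      rw [Fin.forall_fin_succ, and_comm (a := finrank (ZMod 2) _ = r 0)]
    have hsum : ∀ n, n₀ ≤ n → |∑ i ∈ range n, (-1) ^ i * ff i - gi| ≤ ε / 3 := by
      intro n hn
      have := hn₀ n hn
      rw [Real.dist_eq] at this
      exact this.le
    have hprod : ∏ k : Fin (M + 1), gi * cf (r k) = gi * cf r₀ * γ := by
      rw [Fin.prod_univ_succ]
    have hcr := cf_pos r₀
    have hcr1 := cf_le_one r₀
    have hmain : ∀ I, I ≤ J + 1 → n₀ ≤ I + 1 →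
        |∑ Y ∈ (YY W).filter G, qq r₀ I (2 ^ finrank (ZMod 2) (LinearMap.ker (B 0 + Y))) -
          gi * cf r₀ * γ * N| ≤ ε * N := by
      intro I hI hI'
      have h1 := sum_qq (γ := γ) (N := N) (δ := δ) hN0 (r := r₀) (I := I)
        (fun j hj => hest j (by omega)) hδ0
      have h2 := hsum (I + 1) hI'
      have h3 : |γ * cf r₀ * (∑ j ∈ range (I + 1), (-1) ^ j * ff j) * N - gi * cf r₀ * γ * N| ≤
          ε / 3 * N := by
        have h4 : γ * cf r₀ * (∑ j ∈ range (I + 1), (-1) ^ j * ff j) * N - gi * cf r₀ * γ * N =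
            (γ * cf r₀) * ((∑ j ∈ range (I + 1), (-1) ^ j * ff j) - gi) * N := by
          ring
        have h5 : 0 ≤ γ * cf r₀ := mul_nonneg hγ0 hcr.le
        have h6 : γ * cf r₀ ≤ 1 := mul_le_one₀ hγ1 hcr.le hcr1
        rw [h4, abs_mul, abs_mul, abs_of_nonneg hN0, abs_of_nonneg h5]
        apply mul_le_mul_of_nonneg_right _ hN0
        calc (γ * cf r₀) * |(∑ j ∈ range (I + 1), (-1) ^ j * ff j) - gi| ≤ 1 * (ε / 3) :=
              mul_le_mul h6 h2 (abs_nonneg _) zero_le_one
          _ = _ := one_mul _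
      have h5 : N * (((I : ℝ) + 1) * δ) ≤ N * (2 * ε / 3) := by
        apply mul_le_mul_of_nonneg_left _ hN0
        refine le_trans ?_ hδ'
        apply mul_le_mul_of_nonneg_right _ hδ0
        have : (I : ℝ) ≤ J + 1 := by exact_mod_cast hI
        linarith
      have h6 := abs_sub_le
        (∑ Y ∈ (YY W).filter G, qq r₀ I (2 ^ finrank (ZMod 2) (LinearMap.ker (B 0 + Y))))
        (γ * cf r₀ * (∑ j ∈ range (I + 1), (-1) ^ j * ff j) * N) (gi * cf r₀ * γ * N)
      have h7 := h1.trans h5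
      linarith
    have hlo := hmain J (by omega) (by omega)
    have hhi := hmain (J + 1) le_rfl (by omega)
    have hJo : Odd J := ⟨n₀, hJ⟩
    have hJe : Even (J + 1) := hJo.add_one
    have h1 : ∑ Y ∈ (YY W).filter G, qq r₀ J (2 ^ finrank (ZMod 2) (LinearMap.ker (B 0 + Y))) ≤
        ∑ Y ∈ (YY W).filter G,
          (if finrank (ZMod 2) (LinearMap.ker (B 0 + Y)) = r₀ then (1 : ℝ) else 0) :=
      Finset.sum_le_sum fun Y _ => qq_odd hJo _ _
    have h2 : ∑ Y ∈ (YY W).filter G,
          (if finrank (ZMod 2) (LinearMap.ker (B 0 + Y)) = r₀ then (1 : ℝ) else 0) ≤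
        ∑ Y ∈ (YY W).filter G, qq r₀ (J + 1) (2 ^ finrank (ZMod 2) (LinearMap.ker (B 0 + Y))) :=
      Finset.sum_le_sum fun Y _ => qq_even hJe _ _
    rw [hcnt, hprod]
    rw [abs_le] at hlo hhi ⊢
    constructor <;> linarith

end Q283.GM
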