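import Pool.Agent.Q283.J2.LA
import Pool.Agent.Q283.GM.Stm

/-!
# The linear algebra: the law of the coranks of the random symmetric completions
-/

set_option autoImplicit false

open scoped Classical

namespace Q283.GM

open Finset Module Function
open Pool.Agent.Y703.CQ (prs c2)
open Pool.Agent.Y219.CQ (F bf bf_apply bf_symm bf_add bf_single Gs mf mf_apply mA mC mZ mL pa pa_surj
  zx zx_of zx_not sum_zx mZ_symm mL_symm bf_l bf_r all_zero row1 row2)
open Pool.Agent.Y697.PQ (JJ mem_JJ gi cf)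
open Pool.Agent.Y697.PP (YY mem_YY)
open Pool.Agent.Y697.CJ (Am Bm Cm fm BM BM_symm nd_BM yy_card sum_Cm gi_eq mf_add Am_symm Bm_eq)

section mask
variable {U J : Type} [Fintype U] [Fintype J]

theorem sum_Am {m : Finset U} {A : U → U → F} {B : U → J → F} {f : U → F} {u : U} (hu : u ∈ m)
    (x : U → F) (y : J → F) :
    ∑ v, Am m A u v * (x v + x u) + ∑ l, Bm m B u l * (y l + x u) + fm m f u * x u =
      ∑ v ∈ m, A u v * (x v + x u) + ∑ l, B u l * (y l + x u) + f u * x u := by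
  unfold Am Bm fm
  simp only [hu, true_and, if_true]
  congr 2
  rw [← Finset.sum_filter_add_sum_filter_not univ (fun v => v ∈ m)]
  have h1 : ∑ v ∈ univ.filter (fun v => ¬ v ∈ m), (if v ∈ m then A u v else 0) * (x v + x u) = 0 :=
    Finset.sum_eq_zero fun v hv => by
      rw [if_neg (Finset.mem_filter.1 hv).2, zero_mul]
  rw [h1, add_zero]
  have h2 : univ.filter (fun v => v ∈ m) = m := by
    ext v
    simp
  rw [h2]
  refine Finset.sum_congr rfl fun v hv => ?_
  rw [if_pos hv]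

theorem sum_Am' {m : Finset U} {A : U → U → F} {B : U → J → F} {f : U → F} {u : U} (hu : u ∉ m)
    (x : U → F) (y : J → F) :
    ∑ v, Am m A u v * (x v + x u) + ∑ l, Bm m B u l * (y l + x u) + fm m f u * x u = x u := by
  unfold Am Bm fm
  simp only [hu, false_and, if_false, zero_mul, sum_const_zero, zero_add, one_mul]

theorem sum_Cm' {m : Finset U} {C : J → U → F} (k : J) (x : U → F) (z : F) :
    ∑ u, Cm m C k u * (x u + z) = ∑ u ∈ m, C k u * (x u + z) := by
  unfold Cm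
  rw [← Finset.sum_filter_add_sum_filter_not univ (fun v => v ∈ m)]
  have h1 : ∑ v ∈ univ.filter (fun v => ¬ v ∈ m), (if v ∈ m then C k v else 0) * (x v + z) = 0 :=
    Finset.sum_eq_zero fun v hv => by
      rw [if_neg (Finset.mem_filter.1 hv).2, zero_mul]
  rw [h1, add_zero]
  have h2 : univ.filter (fun v => v ∈ m) = m := by
    ext v
    simp
  rw [h2]
  refine Finset.sum_congr rfl fun v hv => ?_
  rw [if_pos hv]

end mask

section main
variable {U J : Type} [Fintype U] [Fintype J] [LinearOrder J]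

/-- the extension by zero -/
noncomputable def zz' (U1 : Finset U) (J1 : Finset J) :
    ((U1 → F) × (J1 → F)) →ₗ[ZMod 2] ((U → F) × (J → F)) where
  toFun w := (zx U1 w.1, zx J1 w.2)
  map_add' := by
    intro w w'
    refine Prod.ext (funext fun u => ?_) (funext fun u => ?_)
    · by_cases hu : u ∈ U1
      · show zx U1 (w + w').1 u = zx U1 w.1 u + zx U1 w'.1 u
        unfold zx
        rw [dif_pos hu, dif_pos hu, dif_pos hu]
        rfl
      · show zx U1 (w + w').1 u = zx U1 w.1 u + zx U1 w'.1 u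
        rw [zx_not U1 _ hu, zx_not U1 _ hu, zx_not U1 _ hu, add_zero]
    · by_cases hu : u ∈ J1
      · show zx J1 (w + w').2 u = zx J1 w.2 u + zx J1 w'.2 u
        unfold zx
        rw [dif_pos hu, dif_pos hu, dif_pos hu]
        rfl
      · show zx J1 (w + w').2 u = zx J1 w.2 u + zx J1 w'.2 u
        rw [zx_not J1 _ hu, zx_not J1 _ hu, zx_not J1 _ hu, add_zero]
  map_smul' := by
    intro c w
    refine Prod.ext (funext fun u => ?_) (funext fun u => ?_)
    · by_cases hu : u ∈ U1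
      · show zx U1 (c • w).1 u = c * zx U1 w.1 u
        unfold zx
        rw [dif_pos hu, dif_pos hu]
        rfl
      · show zx U1 (c • w).1 u = c * zx U1 w.1 u
        rw [zx_not U1 _ hu, zx_not U1 _ hu, mul_zero]
    · by_cases hu : u ∈ J1
      · show zx J1 (c • w).2 u = c * zx J1 w.2 u
        unfold zx
        rw [dif_pos hu, dif_pos hu]
        rfl
      · show zx J1 (c • w).2 u = c * zx J1 w.2 u
        rw [zx_not J1 _ hu, zx_not J1 _ hu, mul_zero]

theorem zz'_inj (U1 : Finset U) (J1 : Finset J) : Function.Injective (zz' U1 J1) := by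
  intro w w' h
  refine Prod.ext (funext fun u => ?_) (funext fun u => ?_)
  · have h1 := congrFun (congrArg Prod.fst h) (u : U)
    change zx U1 w.1 u = zx U1 w'.1 u at h1
    rwa [zx_of, zx_of] at h1
  · have h1 := congrFun (congrArg Prod.snd h) (u : J)
    change zx J1 w.2 u = zx J1 w'.2 u at h1
    rwa [zx_of, zx_of] at h1

theorem mem_ker_mf {ι κ : Type} [Fintype ι] [Fintype κ] (MA : ι → ι → F) (MC : ι → κ → F)
    (MS : κ → κ → F) (w : (ι → F) × (κ → F)) :
    w ∈ LinearMap.ker (mf (bf MA) (bf MC) (bf MS)) ↔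
      (∀ v, ∑ u, w.1 u * MA u v + ∑ k, MC v k * w.2 k = 0) ∧
      (∀ l, ∑ u, w.1 u * MC u l + ∑ k, w.2 k * MS k l = 0) := by
  rw [LinearMap.mem_ker]
  constructor
  · intro h
    have h1 : ∀ w' : (ι → F) × (κ → F), bf MA w.1 w'.1 + bf MC w.1 w'.2 + bf MC w'.1 w.2 +
        bf MS w.2 w'.2 = 0 := by
      intro w'
      have := LinearMap.congr_fun h w'
      rw [mf_apply] at this
      exact this
    refine ⟨all_zero _ fun x' => ?_, all_zero _ fun y' => ?_⟩
    · have h3 := h1 (x', 0)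
      simp only [map_zero, add_zero] at h3
      rw [bf_l, bf_r, ← sum_add_distrib] at h3
      rw [← h3]
      exact sum_congr rfl fun v _ => by rw [add_mul]
    · have h3 := h1 (0, y')
      simp only [map_zero, LinearMap.zero_apply, add_zero, zero_add] at h3
      rw [bf_l, bf_l, ← sum_add_distrib] at h3
      rw [← h3]
      exact sum_congr rfl fun v _ => by rw [add_mul]
  · rintro ⟨h1, h2⟩
    refine LinearMap.ext fun w' => ?_
    rw [mf_apply, LinearMap.zero_apply]
    have e1 : bf MA w.1 w'.1 + bf MC w'.1 w.2 = 0 := by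
      rw [bf_l, bf_r, ← sum_add_distrib]
      refine sum_eq_zero fun v _ => ?_
      rw [← add_mul, h1, zero_mul]
    have e2 : bf MC w.1 w'.2 + bf MS w.2 w'.2 = 0 := by
      rw [bf_l, bf_l, ← sum_add_distrib]
      refine sum_eq_zero fun v _ => ?_
      rw [← add_mul, h2, zero_mul]
    linear_combination e1 + e2

theorem map_ker (m U1 : Finset U) (J1 : Finset J)
    (A : U → U → F) (B : U → J → F) (C : J → U → F) (f : U → F) (g : J → F)
    (hA : ∀ u ∈ U1, ∀ v ∈ U1, A u v = A v u) (hB : ∀ u ∈ U1, ∀ k ∈ J1, B u k = C k u)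
    (α : prs J1 → F) :
    (LinearMap.ker (BM U1 J1 m A B C f g + mf 0 0 (pa J1 α).1)).map (zz' U1 J1) =
      KM m U1 J1 A B C (Pool.Agent.Y703.CQ.ext α) f g := by
  have h0 : (BM U1 J1 m A B C f g + mf 0 0 (pa J1 α).1 :
      LinearMap.BilinForm (ZMod 2) ((U1 → F) × (J1 → F))) =
      mf (bf (mA U1 (Am m A) (Bm m B) (fm m f))) (bf (mC U1 J1 (Cm m C)))
        (bf fun k l => mL J1 α k l + mZ J1 (Cm m C) g k l) := by
    have h1 : (bf fun k l => mL J1 α k l + mZ J1 (Cm m C) g k l) =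
        bf (mZ J1 (Cm m C) g) + bf (mL J1 α) := by
      rw [← bf_add]
      congr 1
      funext k l
      exact add_comm _ _
    rw [h1, mf_add]
    rfl
  have hA' := Am_symm (m := m) hA
  have hB' := Bm_eq (m := m) hB
  ext w
  rw [Submodule.mem_map, mem_KM]
  constructor
  · rintro ⟨v, hv, rfl⟩
    rw [h0] at hv
    obtain ⟨h1, h2⟩ := (mem_ker_mf _ _ _ _).1 hv
    have r1 := row1 U1 J1 (Am m A) (Bm m B) (Cm m C) (fm m f) hA' hB' v.1 v.2
    have r2 := row2 U1 J1 (Cm m C) g α v.1 v.2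
    have hz : ∀ u, u ∉ m → zx U1 v.1 u = 0 := by
      intro u hu
      by_cases hu1 : u ∈ U1
      · have h3 := r1 ⟨u, hu1⟩
        rw [h1, sum_Am' hu] at h3
        exact h3
      · exact zx_not U1 _ hu1
    refine ⟨⟨fun u hu => zx_not U1 _ hu, hz, fun k hk => zx_not J1 _ hk⟩, fun u hu hm => ?_,
      fun k hk => ?_⟩
    · have h3 := r1 ⟨u, hu⟩
      rw [h1, sum_Am hm] at h3
      exact h3
    · have h3 := r2 ⟨k, hk⟩
      rw [h2, sum_Cm'] at h3
      exact h3
  · rintro ⟨⟨hx, hm, hy⟩, h1, h2⟩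
    have e1 : zx U1 (fun u => w.1 u) = w.1 := by
      funext u
      by_cases hu : u ∈ U1
      · exact zx_of U1 (fun u => w.1 u) ⟨u, hu⟩
      · rw [zx_not U1 _ hu, hx u hu]
    have e2 : zx J1 (fun u => w.2 u) = w.2 := by
      funext u
      by_cases hu : u ∈ J1
      · exact zx_of J1 (fun u => w.2 u) ⟨u, hu⟩
      · rw [zx_not J1 _ hu, hy u hu]
    refine ⟨(fun u => w.1 u, fun k => w.2 k), ?_, Prod.ext e1 e2⟩
    rw [h0, mem_ker_mf]
    refine ⟨fun u => ?_, fun k => ?_⟩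
    · show ∑ v : U1, w.1 v * mA U1 (Am m A) (Bm m B) (fm m f) v u +
        ∑ k : J1, mC U1 J1 (Cm m C) u k * w.2 k = 0
      rw [← row1 U1 J1 (Am m A) (Bm m B) (Cm m C) (fm m f) hA' hB' (fun u => w.1 u)
        (fun k => w.2 k), e1, e2]
      by_cases hu : (u : U) ∈ m
      · rw [sum_Am hu]
        exact h1 u u.2 hu
      · rw [sum_Am' hu]
        exact hm u hu
    · show ∑ u : U1, w.1 u * mC U1 J1 (Cm m C) u k +
        ∑ l : J1, w.2 l * (mL J1 α l k + mZ J1 (Cm m C) g l k) = 0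
      rw [← row2 U1 J1 (Cm m C) g α (fun u => w.1 u) (fun k => w.2 k), e1, e2, sum_Cm']
      exact h2 k k.2

theorem finrank_KM (m U1 : Finset U) (J1 : Finset J)
    (A : U → U → F) (B : U → J → F) (C : J → U → F) (f : U → F) (g : J → F)
    (hA : ∀ u ∈ U1, ∀ v ∈ U1, A u v = A v u) (hB : ∀ u ∈ U1, ∀ k ∈ J1, B u k = C k u)
    (α : prs J1 → F) :
    finrank (ZMod 2) (KM m U1 J1 A B C (Pool.Agent.Y703.CQ.ext α) f g) =
      finrank (ZMod 2) (LinearMap.ker (BM U1 J1 m A B C f g + mf 0 0 (pa J1 α).1)) := by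
  rw [← map_ker m U1 J1 A B C f g hA hB α]
  exact (Submodule.equivMapOfInjective (zz' U1 J1) (zz'_inj U1 J1) _).finrank_eq.symm

end main

/-- **LA** -/
theorem t_LA (M : ℕ) (r : Fin M → ℕ) (ε : ℝ) (hε : 0 < ε) : ∃ R : ℕ,
    ∀ (U J : Type) [Fintype U] [Fintype J]
    [LinearOrder J] (U1 : Finset U) (J1 : Finset J), (∃ l, l ∉ J1) → ∀ (m : Fin M → Finset U)
    (A : U → U → ZMod 2) (B : U → J → ZMod 2) (C : J → U → ZMod 2) (f : Fin M → U → ZMod 2)
    (g : Fin M → J → ZMod 2),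
    (∀ u ∈ U1, ∀ v ∈ U1, A u v = A v u) → (∀ u ∈ U1, ∀ k ∈ J1, B u k = C k u) →
    (∀ w : U → ZMod 2, (∀ u, u ∉ U1 → w u = 0) → (∃ u, w u ≠ 0) → ∃ k ∈ J1, ∑ u, w u * C k u ≠ 0) →
    2 * U1.card + R ≤ J1.card →
    (∀ i j, i ≠ j → 2 * U1.card + R ≤
      (J1.filter fun k => ∑ u ∈ m i, C k u + ∑ u ∈ m j, C k u + g i k + g j k ≠ 0).card) →
    |((univ.filter fun α : prs J1 → ZMod 2 =>
        ∀ i, finrank (ZMod 2) (KM (m i) U1 J1 A B C (Pool.Agent.Y703.CQ.ext α) (f i) (g i)) =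
          r i).card : ℝ) /
        2 ^ (prs J1).card - cR r| ≤ ε := by
  obtain ⟨R, hR⟩ := thmR M r ε hε
  refine ⟨R, ?_⟩
  intro U J _ _ _ U1 J1 hJ m A B C f g hA hB hC hJ1 hm
  have e1 : finrank F (U1 → F) = U1.card := by
    rw [finrank_fintype_fun_eq_card, Fintype.card_coe]
  have e2 : finrank F (J1 → F) = J1.card := by
    rw [finrank_fintype_fun_eq_card, Fintype.card_coe]
  have e3 : finrank (ZMod 2) ((U1 → F) × (J1 → F)) = U1.card + J1.card := by
    rw [Module.finrank_prod, e1, e2]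
  have e4 : finrank (ZMod 2) (LinearMap.ker (LinearMap.snd (ZMod 2) (U1 → F) (J1 → F))) =
      U1.card := by
    have h1 := LinearMap.finrank_range_add_finrank_ker (LinearMap.snd (ZMod 2) (U1 → F) (J1 → F))
    rw [LinearMap.range_eq_top.2 (LinearMap.snd_surjective), finrank_top, e2, e3] at h1
    omega
  have key := hR ((U1 → F) × (J1 → F)) (LinearMap.ker (LinearMap.snd (ZMod 2) (U1 → F) (J1 → F)))
    (fun k => BM U1 J1 (m k) A B C (f k) (g k))
    (2 * U1.card + (J1.card - (2 * U1.card + R))) J1.card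
    (fun k => BM_symm U1 J1 (m k) A B C (f k) (g k) hA) (fun k => nd_BM (m k) hC)
    (fun k l hkl => (Q283.J2.finrank_le (m k) (m l)).trans (by
      have h := hm k l hkl
      have : (J1.filter fun j => Q283.J2.d2 (m k) (m l) C (g k) (g l) j ≠ 0).card =
        (J1.filter fun j => ∑ u ∈ m k, C j u + ∑ u ∈ m l, C j u + g k j + g l j ≠ 0).card := rfl
      omega)) (by rw [e4]; omega) (by rw [e3, e4]) (by omega)
  have hpos : 0 < ((YY (LinearMap.ker (LinearMap.snd (ZMod 2) (U1 → F) (J1 → F)))).card : ℝ) := by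
    rw [Nat.cast_pos, Finset.card_pos]
    refine ⟨0, mem_YY.2 ⟨fun _ _ => rfl, fun _ _ => rfl⟩⟩
  obtain ⟨P, hP⟩ : ∃ P : LinearMap.BilinForm (ZMod 2) ((U1 → F) × (J1 → F)) → Prop,
      ∀ Y, P Y ↔ ∀ k, finrank (ZMod 2)
        (LinearMap.ker (BM U1 J1 (m k) A B C (f k) (g k) + Y)) = r k :=
    ⟨_, fun _ => Iff.rfl⟩
  have hc : cR r = ∏ k, gi * cf (r k) := by
    unfold cR
    rw [gi_eq]
  have h1 : |(((YY (LinearMap.ker (LinearMap.snd (ZMod 2) (U1 → F) (J1 → F)))).filter P).card : ℝ) /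
      ((YY (LinearMap.ker (LinearMap.snd (ZMod 2) (U1 → F) (J1 → F)))).card : ℝ) - cR r| ≤ ε := by
    rw [div_sub' hpos.ne', abs_div, abs_of_pos hpos, div_le_iff₀ hpos, mul_comm _ (cR r), hc]
    refine le_trans (le_of_eq ?_) key
    congr 4
    ext Y
    simp only [Finset.mem_filter, hP]
  rw [yy_card] at h1
  refine le_trans (le_of_eq ?_) h1
  congr 2
  rw [← Pool.Agent.Y759.CX.fr_comp (pa J1) (pa_surj J1 hJ)]
  unfold Pool.Agent.Y759.CX.fr
  have h6 : Nat.card (prs J1 → F) = 2 ^ (prs J1).card := by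
    rw [Nat.card_fun, Nat.card_eq_fintype_card, Nat.card_eq_fintype_card, ZMod.card,
      Fintype.card_coe]
  rw [h6, Nat.card_eq_fintype_card, Fintype.card_subtype]
  push_cast
  congr 3
  ext α
  simp only [Finset.mem_filter, hP, finrank_KM _ U1 J1 A B C _ _ hA hB α]

end Q283.GM
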