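import Pool.Agent.Q283.GM.Sel3

set_option autoImplicit false
set_option linter.unusedSectionVars false

/-!
# The isogeny Selmer groups of the twists of `X_0(49)`: the Selmer group and the rank
-/

namespace Q283.GS

open Finset
open Pool.Agent.Y700 (PC VR)
open Pool.Agent.Y668 (Wt Wt_eqn al al_some al_zero)
open Pool.Agent.Y698.SG.Cv (LocI WF)
open Q283.GW (CF PA QA ρ49)
open Q283.GM (rk)
open Q283.XF (nf)

/-- the square class of a rational number -/
theorem exists_cls (q : ℚ) (hq : q ≠ 0) : ∃ z : ℤ, Squarefree z ∧ IsSquare (q * z) := by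
  have hn : q.num * q.den ≠ 0 := mul_ne_zero (Rat.num_ne_zero.2 hq) (by exact_mod_cast q.den_ne_zero)
  obtain ⟨a, b, hab, ha⟩ := Nat.sq_mul_squarefree (q.num * q.den).natAbs
  have hb0 : b ≠ 0 := by
    rintro rfl
    rw [zero_pow two_ne_zero, zero_mul] at hab
    exact hn (Int.natAbs_eq_zero.1 hab.symm)
  have hq' : q = q.num / q.den := (Rat.num_div_den q).symm
  have hd0 : (q.den : ℚ) ≠ 0 := by exact_mod_cast q.den_ne_zero
  have key : ∀ e : ℤ, (e = 1 ∨ e = -1) → q.num * q.den = e * (b ^ 2 * a : ℕ) →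
      ∃ z : ℤ, Squarefree z ∧ IsSquare (q * z) := by
    intro e he h
    refine ⟨e * a, ?_, ?_⟩
    · rcases he with rfl | rfl
      · rw [one_mul]
        exact Int.squarefree_natCast.2 ha
      · rw [neg_one_mul, ← Int.squarefree_natAbs, Int.natAbs_neg, Int.natAbs_natCast]
        exact ha
    · have h1 : (q.num : ℚ) * q.den = e * (b ^ 2 * a) := by exact_mod_cast h
      have h2 : (e : ℚ) * e = 1 := by
        rcases he with rfl | rfl <;> norm_num
      have h3 : q * (q.den * q.den) = e * (b ^ 2 * a) := by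
        rw [← h1]
        rw [← mul_assoc]
        exact congrArg (· * (q.den : ℚ)) (Rat.mul_den_eq_num q)
      obtain ⟨n, hn'⟩ : ∃ n : ℚ, n = q.den := ⟨_, rfl⟩
      rw [← hn'] at h3 hd0
      refine ⟨b * a / n, ?_⟩
      rw [div_mul_div_comm, eq_div_iff (mul_ne_zero hd0 hd0)]
      push_cast
      linear_combination (e : ℚ) * a * h3 + (b : ℚ) ^ 2 * a ^ 2 * h2
  rcases Int.natAbs_eq (q.num * q.den) with h | h
  · exact key 1 (Or.inl rfl) (by rw [hab, one_mul]; exact h)
  · exact key (-1) (Or.inr rfl) (by rw [hab, neg_one_mul]; exact h)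

/-- the empty set -/
theorem KerJ_empty (S : Finset ℕ) : KerJ S ∅ :=
  ⟨Finset.empty_subset _, fun i _ => Finset.sum_empty, fun i hi => absurd hi (Finset.notMem_empty i)⟩

theorem pd_empty : pd ∅ = 1 := by unfold pd; simp

theorem pd_pos {S : Finset ℕ} (hS : CF S) : 0 < pd S := by
  unfold pd
  exact_mod_cast Finset.prod_pos fun q hq => (hS q hq).1.pos

theorem seven_irr (s : ℚ) : s ^ 2 ≠ 7 := by
  intro h
  have h8 : IsSquare ((7 : ℕ) : ℚ) := ⟨s, by push_cast; rw [← h]; ring⟩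
  rw [Rat.isSquare_natCast_iff] at h8
  obtain ⟨m, hm⟩ := h8
  have : m ≤ 2 := by nlinarith
  interval_cases m <;> omega

/-- **the bound for the rank** -/
theorem rank_le {S : Finset ℕ} (hS : CF S) :
    Module.finrank ℤ (WF ℚ (21 * pd S) (112 * pd S ^ 2)).toAffine.Point ≤
      2 * rk ρ49.Φ nf S := by
  classical
  have hD0 := pd_pos hS
  set D := pd S with hD
  have hDQ : (0 : ℚ) < (D : ℚ) := by exact_mod_cast hD0
  set a : ℚ := ((21 * D : ℤ) : ℚ) with ha
  set b : ℚ := ((112 * D ^ 2 : ℤ) : ℚ) with hb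
  have ha' : a = 21 * D := by rw [ha]; push_cast; ring
  have hb' : b = 112 * D ^ 2 := by rw [hb]; push_cast; ring
  have hb0 : b ≠ 0 := by rw [hb']; positivity
  have hdisc : a ^ 2 - 4 * b = -7 * D ^ 2 := by rw [ha', hb']; ring
  have hd0 : a ^ 2 - 4 * b ≠ 0 := by
    rw [hdisc]
    have : (0 : ℚ) < 7 * D ^ 2 := by positivity
    linarith
  have hZ : ∀ z ∈ (KS S).image pd, ∃ J, KerJ S J ∧ z = pd J := by
    intro z hz
    obtain ⟨J, hJ, rfl⟩ := Finset.mem_image.1 hz
    exact ⟨J, mem_KS.1 hJ, rfl⟩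
  have hZ' : ∀ J, KerJ S J → pd J ∈ (KS S).image pd := fun J hJ =>
    Finset.mem_image_of_mem _ (mem_KS.2 hJ)
  have hZ0 : ∀ z ∈ (KS S).image pd, z ≠ 0 := by
    intro z hz
    obtain ⟨J, hJ, rfl⟩ := hZ z hz
    exact (pd_pos fun q hq => hS q (Finset.mem_filter.1 (hJ.1 hq)).1).ne'
  have h1Z : (1 : ℤ) ∈ (KS S).image pd := by
    rw [← pd_empty]
    exact hZ' ∅ (KerJ_empty S)
  have hcard : ((KS S).image pd).card ≤ 2 ^ rk ρ49.Φ nf S := by
    rw [← card_KS]
    exact Finset.card_image_le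
  have key := desc2 (a := a) (b := b) hb0 hd0 ((KS S).image pd) ((KS S).image pd) ?_ ?_ hZ0 hZ0
  · have h2 : 2 ^ Module.finrank ℤ (Wt a b).toAffine.Point ≤ 2 ^ (2 * rk ρ49.Φ nf S) := by
      refine key.trans ((Nat.mul_le_mul hcard hcard).trans (le_of_eq ?_))
      rw [two_mul, pow_add]
    exact (Nat.pow_le_pow_iff_right (by norm_num)).1 h2
  · -- the points of the curve
    intro P
    rcases P with _ | ⟨x, y, hxy⟩
    · refine ⟨1, h1Z, Or.inl ⟨1, ?_⟩⟩
      show (1 : ℚ) * ((1 : ℤ) : ℚ) = 1 * 1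
      norm_num
    · have heq := Wt_eqn.mp hxy.1
      by_cases hx : x = 0
      · refine ⟨1, h1Z, Or.inr ⟨b, ?_⟩⟩
        rw [al_some, if_pos hx]
        push_cast
        ring
      · have hpos : 0 < x ^ 2 + a * x + b := by
          have h3 : 4 * (x ^ 2 + a * x + b) = (2 * x + a) ^ 2 + 7 * D ^ 2 := by
            linear_combination -hdisc
          have h4 : 0 < (2 * x + a) ^ 2 + 7 * (D : ℚ) ^ 2 := by positivity
          linarith
        have hxy' : y ^ 2 = x * (x ^ 2 + a * x + b) := by linear_combination heq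
        have hy : y ≠ 0 := by
          rintro rfl
          rw [zero_pow two_ne_zero] at hxy'
          rcases mul_eq_zero.1 hxy'.symm with h3 | h3
          · exact hx h3
          · exact hpos.ne' h3
        have hxpos : 0 < x := by
          by_contra h3
          push Not at h3
          have h4 : x * (x ^ 2 + a * x + b) ≤ 0 := mul_nonpos_of_nonpos_of_nonneg h3 hpos.le
          have h5 : 0 < y ^ 2 := by positivity
          linarith
        obtain ⟨z, hz, t, ht⟩ := exists_cls x hx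
        have hz0 : 0 < z := by
          by_contra h3
          push Not at h3
          have h4 : (z : ℚ) ≤ 0 := by exact_mod_cast h3
          have h5 : x * z ≤ 0 := mul_nonpos_of_nonneg_of_nonpos hxpos.le h4
          have h6 : 0 ≤ t * t := mul_self_nonneg t
          have h7 : x * (z : ℚ) = 0 := by linarith
          rcases mul_eq_zero.1 h7 with h8 | h8
          · exact hx h8
          · exact hz.ne_zero (by exact_mod_cast h8)
        obtain ⟨J, hJ, hzJ⟩ := selA hS hz hz0 fun l hl => by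
          refine ⟨(x : ℚ_[l]), (y : ℚ_[l]), by exact_mod_cast hy, ?_, (t : ℚ_[l]), ?_⟩
          · rw [ha', hb'] at heq
            have h9 : ((y ^ 2 : ℚ) : ℚ_[l]) =
                ((x ^ 3 + 21 * D * x ^ 2 + 112 * D ^ 2 * x : ℚ) : ℚ_[l]) := by
              rw [heq]
            push_cast at h9 ⊢
            exact h9
          · exact_mod_cast congrArg (fun q : ℚ => (q : ℚ_[l])) ht
        refine ⟨pd J, hZ' J hJ, ?_⟩
        rw [al_some, if_neg hx]
        rcases hzJ with h9 | h9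
        · left
          rw [← h9]
          exact ⟨t, ht⟩
        · right
          refine ⟨4 * D * t, ?_⟩
          have h10 : (z : ℚ) = 7 * pd J := by exact_mod_cast h9
          rw [h10] at ht
          rw [hb']
          linear_combination 16 * (D : ℚ) ^ 2 * ht
  · -- the dual curve
    intro X hX0 hX
    rcases hX with rfl | ⟨Y, hY⟩
    · refine ⟨1, h1Z, Or.inl ⟨1, by norm_num⟩⟩
    · have hY0 : Y ≠ 0 := by
        rintro rfl
        have h3 : X ^ 2 + (-2 * a) * X + (a ^ 2 - 4 * b) = 0 := by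
          apply mul_left_cancel₀ hX0
          linear_combination -hY
        apply seven_irr ((X - 21 * D) / (8 * D))
        rw [hdisc, ha'] at h3
        have h4 : (8 * (D : ℚ)) ≠ 0 := by positivity
        rw [div_pow, div_eq_iff (pow_ne_zero 2 h4)]
        linear_combination h3
      obtain ⟨z, hz, t, ht⟩ := exists_cls X hX0
      obtain ⟨J, hJ, hzJ⟩ := selB hS hz fun l hl => by
        refine ⟨(X : ℚ_[l]), (Y : ℚ_[l]), by exact_mod_cast hY0, ?_, (t : ℚ_[l]), ?_⟩
        · rw [hdisc, ha'] at hY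
          have h9 : ((Y ^ 2 : ℚ) : ℚ_[l]) =
              ((X ^ 3 + -2 * (21 * D) * X ^ 2 + -7 * D ^ 2 * X : ℚ) : ℚ_[l]) := by
            rw [hY]
          push_cast at h9 ⊢
          linear_combination h9
        · exact_mod_cast congrArg (fun q : ℚ => (q : ℚ_[l])) ht
      refine ⟨pd J, hZ' J hJ, ?_⟩
      rcases hzJ with h9 | h9
      · left
        rw [← h9]
        exact ⟨t, ht⟩
      · right
        refine ⟨D * t, ?_⟩
        have h10 : (z : ℚ) = -7 * pd J := by exact_mod_cast h9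
        rw [h10] at ht
        rw [hdisc]
        linear_combination (D : ℚ) ^ 2 * ht

/-- the rank of the short model -/
theorem rank_short {D : ℤ} (hD : D ≠ 0) :
    Module.finrank ℤ (Pool.Agent.Z702.sh (-2835 * D ^ 2) (-71442 * D ^ 3)).toAffine.Point =
      Module.finrank ℤ (WF ℚ (21 * D) (112 * D ^ 2)).toAffine.Point := by
  have hΔ : (Pool.Agent.Z702.sh (-2835 * D ^ 2) (-71442 * D ^ 3)).Δ ≠ 0 := by
    rw [Q283.J2.delta49]
    exact mul_ne_zero (by norm_num) (pow_ne_zero 6 (by exact_mod_cast hD))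
  have hv : VR (WF ℚ (21 * D) (112 * D ^ 2))
      (Pool.Agent.Z702.sh (-2835 * D ^ 2) (-71442 * D ^ 3)) (1 / 3) (-7 * D) 0 0 := by
    refine ⟨by norm_num, ?_, ?_, ?_, ?_, ?_⟩
    · show (1 / 3 : ℚ) * 0 = 0 + 2 * 0
      norm_num
    · show (1 / 3 : ℚ) ^ 2 * 0 = ((21 * D : ℤ) : ℚ) - 0 * 0 + 3 * (-7 * D) - 0 ^ 2
      push_cast
      ring
    · show (1 / 3 : ℚ) ^ 3 * 0 = 0 + (-7 * D) * 0 + 2 * 0
      ring
    · show (1 / 3 : ℚ) ^ 4 * ((-2835 * D ^ 2 : ℤ) : ℚ) = ((112 * D ^ 2 : ℤ) : ℚ) - 0 * 0 +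
        2 * (-7 * D) * ((21 * D : ℤ) : ℚ) - (0 + (-7 * D) * 0) * 0 +
        3 * (-7 * (D : ℚ)) ^ 2 - 2 * 0 * 0
      push_cast
      ring
    · show (1 / 3 : ℚ) ^ 6 * ((-71442 * D ^ 3 : ℤ) : ℚ) = 0 +
        (-7 * D) * ((112 * D ^ 2 : ℤ) : ℚ) + (-7 * D) ^ 2 * ((21 * D : ℤ) : ℚ) +
        (-7 * (D : ℚ)) ^ 3 - 0 * 0 - 0 ^ 2 - (-7 * D) * 0 * 0
      push_cast
      ring
  exact (hv.equiv hΔ).toIntLinearEquiv.finrank_eq

/-! ### the Selmer group -/

/-- the Selmer group of the isogeny from `E_D` -/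
def SelB (D : ℤ) : Set ℤ :=
  {z | Squarefree z ∧ (∀ (p : ℕ) [Fact p.Prime], LocI ℚ_[p] (21 * D) (112 * D ^ 2) z) ∧
    LocI ℝ (21 * D) (112 * D ^ 2) z}

theorem pd_inj {S J J' : Finset ℕ} (hS : CF S) (hJ : J ⊆ S) (hJ' : J' ⊆ S) (h : pd J = pd J') :
    J = J' := by
  unfold pd at h
  have h1 : ∏ q ∈ J, q = ∏ q ∈ J', q := by exact_mod_cast h
  rw [← Nat.primeFactors_prod (fun q hq => (hS q (hJ hq)).1),
    ← Nat.primeFactors_prod (fun q hq => (hS q (hJ' hq)).1), h1]

theorem sqf_prod {J : Finset ℕ} (hJ : ∀ q ∈ J, q.Prime) : Squarefree (∏ q ∈ J, q) := by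
  classical
  induction J using Finset.induction_on with
  | empty => simp
  | insert p J hp ih =>
    rw [Finset.prod_insert hp]
    have h1 := ih fun q hq => hJ q (Finset.mem_insert_of_mem hq)
    have hpp := hJ p (Finset.mem_insert_self p J)
    refine (Nat.squarefree_mul ?_).2 ⟨hpp.squarefree, h1⟩
    rw [hpp.coprime_iff_not_dvd]
    exact Pool.Agent.Y698.SG.not_dvd_pr hpp (fun q hq => hJ q (Finset.mem_insert_of_mem hq)) hp

theorem SelB_eq {S : Finset ℕ} (hS : CF S) :
    SelB (pd S) = ((KS S).image pd ∪ (KS S).image fun J => -7 * pd J : Finset ℤ) := by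
  classical
  have hD0 := pd_pos hS
  ext z
  rw [Finset.mem_coe, Finset.mem_union, Finset.mem_image, Finset.mem_image]
  constructor
  · rintro ⟨h1, h2, -⟩
    obtain ⟨J, hJ, h3⟩ := selB hS h1 fun l hl => by
      have h4 := PC_of_LocI (a := 21 * pd S) (b := 112 * pd S ^ 2) (d := z) (by positivity) l (h2 l)
      have e1 : -2 * (21 * pd S) = -42 * pd S := by ring
      have e2 : (21 * pd S) ^ 2 - 4 * (112 * pd S ^ 2) = -7 * pd S ^ 2 := by ring
      rw [e1, e2] at h4
      exact h4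
    rcases h3 with h3 | h3
    · exact Or.inl ⟨J, mem_KS.2 hJ, h3.symm⟩
    · exact Or.inr ⟨J, mem_KS.2 hJ, h3.symm⟩
  · have hp : ∀ J, KerJ S J → ∀ q ∈ J, q.Prime ∧ q % 4 = 1 := fun J hJ q hq =>
      hS q (Finset.mem_filter.1 (hJ.1 hq)).1
    rintro (⟨J, hJ, rfl⟩ | ⟨J, hJ, rfl⟩)
    · rw [mem_KS] at hJ
      obtain ⟨h1, h2⟩ := selB_suf hS hJ
      refine ⟨?_, h1, h2⟩
      unfold pd
      exact Int.squarefree_natCast.2 (sqf_prod fun q hq => (hp J hJ q hq).1)
    · rw [mem_KS] at hJ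
      obtain ⟨h1, h2⟩ := selB_suf hS hJ
      have hJ0 : pd J ≠ 0 := (pd_pos (hp J hJ)).ne'
      refine ⟨?_, fun p _ => loc_neg hD0.ne' hJ0 (h1 p), loc_neg hD0.ne' hJ0 h2⟩
      have h7 : 7 ∉ J := fun h => by have := (hp J hJ 7 h).2; norm_num at this
      have e : (-7 * pd J).natAbs = ∏ q ∈ insert 7 J, q := by
        rw [Finset.prod_insert h7]
        unfold pd
        rw [Int.natAbs_mul, Int.natAbs_natCast]
        rfl
      rw [← Int.squarefree_natAbs, e]
      refine sqf_prod fun q hq => ?_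
      rcases Finset.mem_insert.1 hq with rfl | hq
      · norm_num
      · exact (hp J hJ q hq).1

/-- **the order of the Selmer group** -/
theorem card_SelB {S : Finset ℕ} (hS : CF S) : (SelB (pd S)).ncard = 2 ^ (1 + rk ρ49.Φ nf S) := by
  classical
  have hp : ∀ J ∈ KS S, J ⊆ S := fun J hJ => (mem_KS.1 hJ).1.trans (Finset.filter_subset _ _)
  rw [SelB_eq hS, Set.ncard_coe_finset, Finset.card_union_of_disjoint]
  · rw [Finset.card_image_of_injOn, Finset.card_image_of_injOn, card_KS, pow_add, pow_one]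
    · ring
    · intro J hJ J' hJ' h
      refine pd_inj hS (hp J hJ) (hp J' hJ') ?_
      have h' : -7 * pd J = -7 * pd J' := h
      linarith
    · intro J hJ J' hJ' h
      exact pd_inj hS (hp J hJ) (hp J' hJ') h
  · rw [Finset.disjoint_left]
    intro z hz hz'
    obtain ⟨J, hJ, rfl⟩ := Finset.mem_image.1 hz
    obtain ⟨J', hJ', h⟩ := Finset.mem_image.1 hz'
    have h1 := pd_pos (S := J) fun q hq => hS q (hp J hJ hq)
    have h2 := pd_pos (S := J') fun q hq => hS q (hp J' hJ' hq)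
    linarith

end Q283.GS
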