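import Pool.Agent.Y697.JQ.BOX
import Pool.Agent.Q283.GM.LA
import Pool.Agent.Y356.CQ.EQ
import Pool.Agent.Y948.CQ.C2

/-! The joint count in a box for a general class of primes (after `Pool.Agent.Y697.JQ.BOX`). -/

set_option autoImplicit false

open scoped Classical

namespace Q283.GM

open Finset Module
open Pool.Agent.Y703.CQ (nr sg prs HB S_EQ c2 ext)
open Pool.Agent.Y657.CQ (nr_self sum_un HB_sub ez0 ez0_coe)
open Pool.Agent.Y697.JQ (pt mem_pt sum_pt add_pt sd_sd sd_union sd_sub)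

/-- the active elements -/
noncomputable def ue (Φ : Fam) (S₁ : Finset ℕ) : Finset S₁ := univ.filter fun u : S₁ => Φ.A (u : ℕ)

theorem mem_ue {Φ : Fam} {S₁ : Finset ℕ} (u : S₁) : u ∈ ue Φ S₁ ↔ Φ.A (u : ℕ) := by
  unfold ue
  simp

theorem nr_symm {p q : ℕ} (hp : p.Prime) (hp1 : p % 4 = 1) (hq : q.Prime) (hq2 : q ≠ 2) :
    nr p q = nr q p := by
  have : Fact p.Prime := ⟨hp⟩
  have : Fact q.Prime := ⟨hq⟩
  unfold nr
  have h := ZMod.exists_sq_eq_prime_iff_of_mod_four_eq_one (p := p) (q := q) hp1 hq2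
  by_cases h1 : IsSquare (q : ZMod p)
  · rw [if_pos h1, if_pos (h.1 h1)]
  · rw [if_neg h1, if_neg (fun h2 => h1 (h.2 h2))]

theorem sum_f (w : ℕ → Prop) (S₀ : Finset ℕ) (h : ℕ → ZMod 2) :
    ∑ u ∈ S₀.filter (fun u => w u), h u =
      ∑ u ∈ univ.filter (fun u : S₀ => w (u : ℕ)), h u := by
  rw [Finset.sum_filter, Finset.sum_filter, ← Finset.sum_coe_sort S₀]

section one
variable {Φ : Fam} {ι : Type} [Fintype ι] [LinearOrder ι] {J1 : Finset ι} {S₁ T : Finset ℕ}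
  {p : ι → ℕ}

theorem ext_sum (hpr : ∀ i, (p i).Prime ∧ p i ≠ 2) (hJ : ∀ i, Φ.A (p i) ↔ i ∈ J1)
    (k : ι) (hk : k ∈ J1) (y : ι → ZMod 2) (yk : ZMod 2) :
    ∑ l, ext (fun e : prs J1 => nr (p e.1.1) (p e.1.2)) k l * (y l + yk) =
      ∑ l, nr (p k) (p l) * (y l + yk) := by
  refine Finset.sum_congr rfl fun l _ => ?_
  congr 1
  unfold Pool.Agent.Y703.CQ.ext
  by_cases h : (k, l) ∈ prs J1
  · rw [dif_pos h]
  · rw [dif_neg h]
    by_cases hlk : l = k
    · subst hlk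
      rw [dif_neg (fun h' => h h'.1), nr_self]
    · have h1 : l ∈ J1 ∧ ¬ k < l := by
        by_contra hcon
        apply h
        unfold prs
        refine Finset.mem_filter.2 ⟨Finset.mem_univ _, hk, hlk, fun hl => ?_⟩
        by_contra hkl
        exact hcon ⟨hl, hkl⟩
      have h2 : (l, k) ∈ prs J1 := by
        unfold prs
        exact Finset.mem_filter.2 ⟨Finset.mem_univ _, h1.1, fun h => hlk h.symm,
          fun _ => lt_of_le_of_ne (not_lt.1 h1.2) hlk⟩
      rw [dif_pos ⟨h2, hk⟩]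
      exact nr_symm (hpr l).1 (Φ.hA _ ((hJ l).2 h1.1)).2 (hpr k).1 (hpr k).2

/-- the restriction -/
def rs (S₁ : Finset ℕ) (p : ι → ℕ) : (ℕ → ZMod 2) →ₗ[ZMod 2] ((S₁ → ZMod 2) × (ι → ZMod 2)) where
  toFun x := (fun u => x u, fun i => x (p i))
  map_add' := by
    intro x y
    rfl
  map_smul' := by
    intro c x
    rfl

theorem sum_TU (hT : T ⊆ S₁) (hp : Function.Injective p) (hd : ∀ i, p i ∉ S₁) (h : ℕ → ZMod 2) :
    ∑ x ∈ T ∪ univ.image p, h x = ∑ u ∈ pt S₁ T, h u + ∑ l, h (p l) := by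
  have hdT : ∀ i, p i ∉ T := fun i hi => hd i (hT hi)
  rw [sum_un hp hdT, Finset.sum_coe_sort T (fun x => h x), sum_pt hT]

theorem rk_eq (f : ℕ → ZMod 2) (hT : T ⊆ S₁) (hp : Function.Injective p)
    (hpr : ∀ i, (p i).Prime ∧ p i ≠ 2) (hd : ∀ i, p i ∉ S₁) (hJ : ∀ i, Φ.A (p i) ↔ i ∈ J1) :
    rk Φ f (T ∪ univ.image p) = finrank (ZMod 2) (KM (pt S₁ T) (ue Φ S₁) J1
      (fun u v : S₁ => nr u v) (fun (u : S₁) l => nr u (p l)) (fun k (u : S₁) => nr (p k) u)
      (ext fun e : prs J1 => nr (p e.1.1) (p e.1.2))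
      (fun u : S₁ => f u) (fun k => f (p k))) := by
  set KK := KM (pt S₁ T) (ue Φ S₁) J1
      (fun u v : S₁ => nr u v) (fun (u : S₁) l => nr u (p l)) (fun k (u : S₁) => nr (p k) u)
      (ext fun e : prs J1 => nr (p e.1.1) (p e.1.2))
      (fun u : S₁ => f u) (fun k => f (p k)) with hKK
  have h0 : ∀ x ∈ Kr Φ f (T ∪ univ.image p), rs S₁ p x ∈ KK := by
    intro x hx
    rw [mem_Kr] at hx
    rw [hKK, mem_KM]
    refine ⟨⟨fun u hu => ?_, fun u hu => ?_, fun k hk => ?_⟩, fun u hu hm => ?_, fun k hk => ?_⟩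
    · exact hx.1 u fun h => hu ((mem_ue u).2 h.2)
    · refine hx.1 u fun h => ?_
      rcases Finset.mem_union.1 h.1 with h1 | h1
      · exact hu ((mem_pt u).2 h1)
      · obtain ⟨i, -, hi⟩ := Finset.mem_image.1 h1
        exact hd i (hi ▸ u.2)
    · exact hx.1 (p k) fun h => hk ((hJ k).1 h.2)
    · have h1 := hx.2 u (Finset.mem_union_left _ ((mem_pt u).1 hm)) ((mem_ue u).1 hu)
      rw [sum_TU hT hp hd] at h1
      exact h1
    · have h1 := hx.2 (p k) (Finset.mem_union_right _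
        (Finset.mem_image_of_mem _ (Finset.mem_univ _))) ((hJ k).2 hk)
      rw [sum_TU hT hp hd] at h1
      rw [ext_sum hpr hJ k hk (rs S₁ p x).2]
      exact h1
  unfold rk
  refine LinearEquiv.finrank_eq (LinearEquiv.ofBijective ((rs S₁ p).restrict h0) ⟨?_, ?_⟩)
  · intro x y hxy
    have h1 : rs S₁ p x = rs S₁ p y := congrArg Subtype.val hxy
    refine Subtype.ext (funext fun n => ?_)
    by_cases hn : n ∈ T ∪ univ.image p
    · rcases Finset.mem_union.1 hn with h2 | h2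
      · exact congrFun (congrArg Prod.fst h1) (⟨n, hT h2⟩ : S₁)
      · obtain ⟨i, -, rfl⟩ := Finset.mem_image.1 h2
        exact congrFun (congrArg Prod.snd h1) i
    · rw [(mem_Kr.1 x.2).1 n fun h => hn h.1, (mem_Kr.1 y.2).1 n fun h => hn h.1]
  · rintro ⟨w, hw⟩
    rw [hKK, mem_KM] at hw
    obtain ⟨⟨hw1, hw2, hw3⟩, hw4, hw5⟩ := hw
    set c' : ℕ → ZMod 2 := fun n => if h : n ∈ S₁ then w.1 ⟨n, h⟩ else
      if h : ∃ l, p l = n then w.2 h.choose else 0 with hc'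
    have e1 : ∀ u : S₁, c' u = w.1 u := by
      intro u
      simp only [hc']
      rw [dif_pos u.2]
    have e2 : ∀ l, c' (p l) = w.2 l := by
      intro l
      have hex : ∃ l', p l' = p l := ⟨l, rfl⟩
      simp only [hc']
      rw [dif_neg (hd l), dif_pos hex]
      exact congrArg w.2 (hp hex.choose_spec)
    have hr : rs S₁ p c' = w := Prod.ext (funext e1) (funext e2)
    refine ⟨⟨c', ?_⟩, Subtype.ext hr⟩
    rw [mem_Kr]
    refine ⟨fun n hn => ?_, fun n hn ha => ?_⟩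
    · by_cases h1 : n ∈ S₁
      · have h2 := e1 ⟨n, h1⟩
        change c' n = _ at h2
        rw [h2]
        by_cases h3 : Φ.A n
        · refine hw2 _ fun h4 => hn ⟨Finset.mem_union_left _ ((mem_pt _).1 h4), h3⟩
        · exact hw1 _ fun h4 => h3 ((mem_ue _).1 h4)
      · by_cases h2 : ∃ l, p l = n
        · obtain ⟨l, rfl⟩ := h2
          rw [e2]
          exact hw3 l fun h4 => hn ⟨Finset.mem_union_right _
            (Finset.mem_image_of_mem _ (Finset.mem_univ _)), (hJ l).2 h4⟩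
        · simp only [hc']
          rw [dif_neg h1, dif_neg h2]
    · rw [sum_TU hT hp hd]
      rcases Finset.mem_union.1 hn with h1 | h1
      · have h2 := hw4 ⟨n, hT h1⟩ ((mem_ue _).2 ha) ((mem_pt _).2 h1)
        have h3 : c' n = w.1 ⟨n, hT h1⟩ := e1 ⟨n, hT h1⟩
        simp only [e1, e2, h3]
        exact h2
      · obtain ⟨k, -, rfl⟩ := Finset.mem_image.1 h1
        have hk := (hJ k).1 ha
        have h2 := hw5 k hk
        rw [ext_sum hpr hJ k hk w.2] at h2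
        simp only [e1, e2]
        exact h2

end one

/-- the labels -/
abbrev Lf (M : ℕ) (S : Finset ℕ) : Type := (S → ZMod 2) × (S → ZMod 2) × (Fin M → ZMod 2)

/-- the label of a prime -/
noncomputable def lf {M : ℕ} (f : Fin M → ℕ → ZMod 2) (S : Finset ℕ) (x : ℕ) : Lf M S :=
  (fun u => nr u x, fun u => nr x u, fun k => f k x)

/-- the labels are not degenerate -/
def LN (Φ : Fam) {M : ℕ} {ι : Type} (S₀ : Finset ℕ) (J1 : Finset ι) (β : ι → Lf M S₀) : Prop :=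
  ∀ w : S₀ → ZMod 2, (∃ u : S₀, Φ.A (u : ℕ) ∧ w u ≠ 0) →
    ∃ i ∈ J1, ∑ u ∈ univ.filter (fun u : S₀ => Φ.A (u : ℕ)), w u * (β i).2.1 u ≠ 0

theorem nd_iff {Φ : Fam} {M : ℕ} {ι : Type} [Fintype ι] {J1 : Finset ι} {S₀ : Finset ℕ}
    {p : ι → ℕ} (f : Fin M → ℕ → ZMod 2) (hJ : ∀ i, Φ.A (p i) ↔ i ∈ J1) :
    Nd Φ S₀ (univ.image p) ↔ LN Φ S₀ J1 (fun i => lf f S₀ (p i)) := by
  unfold Nd LN
  constructor
  · intro h w hw
    obtain ⟨u, hu1, hu2⟩ := hw
    obtain ⟨x, hx, hx1, hx2⟩ := h (ez0 w) ⟨u, u.2, hu1, by rw [ez0_coe]; exact hu2⟩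
    rw [Finset.mem_image] at hx
    obtain ⟨i, -, rfl⟩ := hx
    refine ⟨i, (hJ i).1 hx1, ?_⟩
    rw [sum_f] at hx2
    intro h0
    apply hx2
    rw [← h0]
    refine Finset.sum_congr rfl fun u _ => ?_
    rw [ez0_coe]
    rfl
  · intro h w hw
    obtain ⟨u, hu0, hu1, hu2⟩ := hw
    obtain ⟨i, hi, hi2⟩ := h (fun u => w u) ⟨⟨u, hu0⟩, hu1, hu2⟩
    refine ⟨p i, Finset.mem_image_of_mem _ (Finset.mem_univ _), (hJ i).2 hi, ?_⟩
    rw [sum_f]
    exact hi2

/-- the good labels -/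
def LF (Φ : Fam) {M : ℕ} {ι : Type} (R : ℕ) (S₁ : Finset ℕ) (U : Fin M → Finset ℕ) (J1 : Finset ι)
    (β : ι → Lf M S₁) : Prop :=
  LN Φ S₁ J1 β ∧ 2 * S₁.card + R ≤ J1.card ∧ ∀ k l, k ≠ l →
    2 * S₁.card + R ≤ (J1.filter fun i => ∑ u ∈ pt S₁ (symmDiff (U k) (U l)), (β i).2.1 u +
      (β i).2.2 k + (β i).2.2 l ≠ 0).card

theorem ndF_iff {Φ : Fam} {M : ℕ} {ι : Type} [Fintype ι] {J1 : Finset ι} {S₀ W : Finset ℕ}
    {U : Fin M → Finset ℕ} {p : ι → ℕ} (f : Fin M → ℕ → ZMod 2) (R : ℕ) (hU : ∀ k, U k ⊆ W)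
    (hp : Function.Injective p) (hJ : ∀ i, Φ.A (p i) ↔ i ∈ J1) :
    NdF Φ R W f U S₀ (univ.image p) ↔ LF Φ R (S₀ ∪ W) U J1 (fun i => lf f (S₀ ∪ W) (p i)) := by
  unfold NdF LF
  have h1 : ((univ.image p).filter fun q => Φ.A q).card = J1.card := by
    have h2 : (univ.image p).filter (fun q => Φ.A q) = J1.image p := by
      ext q
      simp only [Finset.mem_filter, Finset.mem_image, Finset.mem_univ, true_and]
      constructor
      · rintro ⟨⟨i, rfl⟩, h⟩
        exact ⟨i, (hJ i).1 h, rfl⟩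
      · rintro ⟨i, hi, rfl⟩
        exact ⟨⟨i, rfl⟩, (hJ i).2 hi⟩
    rw [h2, Finset.card_image_of_injective _ hp]
  have h3 : ∀ k l, ((univ.image p).filter fun q => Φ.A q ∧ sep f U k l q ≠ 0).card =
      (J1.filter fun i => ∑ u ∈ pt (S₀ ∪ W) (symmDiff (U k) (U l)),
        (lf f (S₀ ∪ W) (p i)).2.1 u + (lf f (S₀ ∪ W) (p i)).2.2 k +
          (lf f (S₀ ∪ W) (p i)).2.2 l ≠ 0).card := by
    intro k l
    have hs : symmDiff (U k) (U l) ⊆ S₀ ∪ W := by
      intro x hx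
      rw [Finset.mem_symmDiff] at hx
      rw [Finset.mem_union]
      rcases hx with hx | hx
      · exact Or.inr (hU k hx.1)
      · exact Or.inr (hU l hx.1)
    have h5 : ∀ i, sep f U k l (p i) = ∑ u ∈ pt (S₀ ∪ W) (symmDiff (U k) (U l)),
        (lf f (S₀ ∪ W) (p i)).2.1 u + (lf f (S₀ ∪ W) (p i)).2.2 k +
          (lf f (S₀ ∪ W) (p i)).2.2 l := by
      intro i
      unfold sep
      rw [sum_pt hs]
      rfl
    have h4 : (univ.image p).filter (fun q => Φ.A q ∧ sep f U k l q ≠ 0) =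
        (J1.filter fun i => ∑ u ∈ pt (S₀ ∪ W) (symmDiff (U k) (U l)),
        (lf f (S₀ ∪ W) (p i)).2.1 u + (lf f (S₀ ∪ W) (p i)).2.2 k +
          (lf f (S₀ ∪ W) (p i)).2.2 l ≠ 0).image p := by
      ext q
      simp only [Finset.mem_filter, Finset.mem_image, Finset.mem_univ, true_and]
      constructor
      · rintro ⟨⟨i, rfl⟩, h6, h7⟩
        rw [h5] at h7
        exact ⟨i, ⟨(hJ i).1 h6, h7⟩, rfl⟩
      · rintro ⟨i, ⟨hi, h7⟩, rfl⟩
        rw [← h5] at h7
        exact ⟨⟨i, rfl⟩, (hJ i).2 hi, h7⟩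
    rw [h4, Finset.card_image_of_injective _ hp]
  rw [nd_iff f hJ, h1]
  refine and_congr_right fun _ => and_congr_right fun _ => ?_
  refine forall_congr' fun k => forall_congr' fun l => ?_
  rw [h3 k l]

theorem cR_nonneg {M : ℕ} (r : Fin M → ℕ) : 0 ≤ cR r := by
  unfold cR
  refine Finset.prod_nonneg fun k _ => mul_nonneg ?_ (Pool.Agent.Y697.PQ.cf_pos _).le
  exact (Pool.Agent.Y948.CQ.t_C2).2.1.le

/-- **The joint count in a box.** -/
theorem t_BOX (Φ : Fam) (M : ℕ) (r : Fin M → ℕ) (ε : ℝ) (hε : 0 < ε) : ∃ R : ℕ,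
    ∀ (f : Fin M → ℕ → ZMod 2)
    (ι : Type) [Fintype ι] [LinearOrder ι] (J1 : Finset ι) (C : ι → Finset ℕ) (X : ι → ℕ) (κ : ℝ)
    (S₀ W : Finset ℕ) (U : Fin M → Finset ℕ), (∀ k, U k ⊆ W) → 0 ≤ κ →
    (∀ i, (C i).card ≤ X i) → HB J1 C X κ → (∀ u ∈ S₀ ∪ W, u.Prime ∧ u ≠ 2) →
    (∀ i, ∀ p ∈ C i, p.Prime ∧ p ≠ 2 ∧ p ∉ S₀ ∪ W ∧ (i ∈ J1 ↔ Φ.A p)) →
    (∀ i l, i ≠ l → Disjoint (C i) (C l)) → (∃ i, i ∉ J1) →
    |(((Fintype.piFinset C).filter fun p => NdF Φ R W f U S₀ (univ.image p) ∧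
        GdR Φ r f U (S₀ ∪ univ.image p)).card : ℝ) -
        cR r * (((Fintype.piFinset C).filter fun p => NdF Φ R W f U S₀ (univ.image p)).card : ℝ)| ≤
      ε * (((Fintype.piFinset C).filter fun p => NdF Φ R W f U S₀ (univ.image p)).card : ℝ) +
      2 ^ ((2 * (S₀ ∪ W).card + M) * Fintype.card ι + (prs J1).card) * (κ * ∏ j, (X j : ℝ)) := by
  obtain ⟨R₀, hLA⟩ := t_LA M r ε hε
  refine ⟨R₀, ?_⟩
  intro f ι _ _ J1 C X κ S₀ W Vm hVW hκ hCX hHB hS₁ hC hdis hne
  set S₁ := S₀ ∪ W with hS₁d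
  set R : ℝ := 2 ^ (prs J1).card * (κ * ∏ j, (X j : ℝ)) with hR
  have hR0 : 0 ≤ R := mul_nonneg (by positivity)
    (mul_nonneg hκ (Finset.prod_nonneg fun j _ => by positivity))
  -- facts on tuples
  have hinj : ∀ p ∈ Fintype.piFinset C, Function.Injective p := by
    intro p hp i j hij
    rw [Fintype.mem_piFinset] at hp
    by_contra hne
    have h1 := Finset.disjoint_left.1 (hdis i j hne) (hp i)
    rw [hij] at h1
    exact h1 (hp j)
  have hJ : ∀ p ∈ Fintype.piFinset C, ∀ i, Φ.A (p i) ↔ i ∈ J1 := by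
    intro p hp i
    rw [Fintype.mem_piFinset] at hp
    exact (hC i _ (hp i)).2.2.2.symm
  have hd : ∀ p ∈ Fintype.piFinset C, ∀ i, p i ∉ S₁ := by
    intro p hp i
    rw [Fintype.mem_piFinset] at hp
    exact (hC i _ (hp i)).2.2.1
  have hpr : ∀ p ∈ Fintype.piFinset C, ∀ i, (p i).Prime ∧ p i ≠ 2 := by
    intro p hp i
    rw [Fintype.mem_piFinset] at hp
    exact ⟨(hC i _ (hp i)).1, (hC i _ (hp i)).2.1⟩
  have hU1 : (ue Φ S₁).card ≤ S₁.card := by
    refine (Finset.card_le_univ _).trans ?_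
    rw [Fintype.card_coe]
  have hgd : ∀ p ∈ Fintype.piFinset C, (GdR Φ r f Vm (S₀ ∪ univ.image p) ↔
      ∀ i, finrank (ZMod 2) (KM (pt S₁ (symmDiff S₀ (Vm i))) (ue Φ S₁) J1
      (fun u v : S₁ => nr u v) (fun (u : S₁) l => nr u (p l)) (fun k (u : S₁) => nr (p k) u)
      (ext fun e : prs J1 => nr (p e.1.1) (p e.1.2))
      (fun u : S₁ => f i u) (fun k => f i (p k))) = r i) := by
    intro p hp
    have hP : ∀ x ∈ univ.image p, x ∉ S₀ ∪ W := by
      intro x hx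
      rw [Finset.mem_image] at hx
      obtain ⟨i, -, rfl⟩ := hx
      exact hd p hp i
    refine forall_congr' fun i => ?_
    rw [sd_union (hVW i) hP,
      rk_eq (f i) (sd_sub (hVW i)) (hinj p hp) (hpr p hp) (hd p hp) (hJ p hp)]
  -- the part with given labels
  have h1 : ∀ β : ι → Lf M S₁, LF Φ R₀ S₁ Vm J1 β →
      |(((Fintype.piFinset C).filter fun p => (fun i => lf f S₁ (p i)) = β ∧
          GdR Φ r f Vm (S₀ ∪ univ.image p)).card : ℝ) -
        cR r * (((Fintype.piFinset C).filter fun p =>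
          (fun i => lf f S₁ (p i)) = β).card : ℝ)| ≤
      ε * (((Fintype.piFinset C).filter fun p => (fun i => lf f S₁ (p i)) = β).card : ℝ) + R := by
    intro β hβ
    by_cases hemp : ((Fintype.piFinset C).filter fun p => (fun i => lf f S₁ (p i)) = β) = ∅
    · have he2 : ((Fintype.piFinset C).filter fun p => (fun i => lf f S₁ (p i)) = β ∧
          GdR Φ r f Vm (S₀ ∪ univ.image p)) = ∅ := by
        rw [← Finset.filter_filter, hemp, Finset.filter_empty]
      rw [he2, hemp]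
      simpa using hR0
    obtain ⟨p₀, hp₀⟩ := Finset.nonempty_iff_ne_empty.2 hemp
    rw [Finset.mem_filter] at hp₀
    obtain ⟨hp₀, hp₀β⟩ := hp₀
    set C' : ι → Finset ℕ := fun i => (C i).filter fun q => lf f S₁ q = β i with hC'
    have hpi : (Fintype.piFinset C).filter (fun p => (fun i => lf f S₁ (p i)) = β) =
        Fintype.piFinset C' := by
      ext p
      simp only [Finset.mem_filter, Fintype.mem_piFinset, hC']
      constructor
      · rintro ⟨h2, h3⟩ i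
        exact ⟨h2 i, congrFun h3 i⟩
      · intro h2
        exact ⟨fun i => (h2 i).1, funext fun i => (h2 i).2⟩
    have h2 := hLA S₁ ι (ue Φ S₁) J1 hne (fun i => pt S₁ (symmDiff S₀ (Vm i)))
      (fun u v => nr u v) (fun u l => (β l).1 u) (fun k u => (β k).2.1 u) (fun i u => f i u)
      (fun i k => (β k).2.2 i)
      (by
        intro u hu v hv
        exact nr_symm (hS₁ u u.2).1 (Φ.hA _ ((mem_ue u).1 hu)).2 (hS₁ v v.2).1 (hS₁ v v.2).2)
      (by
        intro u hu k hk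
        have h3 := congrFun hp₀β k
        rw [← h3]
        exact nr_symm (hS₁ u u.2).1 (Φ.hA _ ((mem_ue u).1 hu)).2 (hpr p₀ hp₀ k).1
          (hpr p₀ hp₀ k).2)
      (by
        rintro w hw0 ⟨u, hu⟩
        have hu8 : Φ.A (u : ℕ) := by
          by_contra h8
          exact hu (hw0 u fun hu' => h8 ((mem_ue u).1 hu'))
        obtain ⟨k, hk, hk2⟩ := hβ.1 w ⟨u, hu8, hu⟩
        refine ⟨k, hk, ?_⟩
        rw [Finset.sum_filter] at hk2
        intro h0
        apply hk2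
        refine Eq.trans ?_ h0
        refine Finset.sum_congr rfl fun v _ => ?_
        split_ifs with h8
        · rfl
        · rw [hw0 v fun hv => h8 ((mem_ue v).1 hv), zero_mul])
      (by
        have h3 := hβ.2.1
        omega)
      (by
        intro i j hij
        have h3 := hβ.2.2 i j hij
        have h4 : (J1.filter fun k => ∑ u ∈ pt S₁ (symmDiff S₀ (Vm i)), (β k).2.1 u +
            ∑ u ∈ pt S₁ (symmDiff S₀ (Vm j)), (β k).2.1 u + (β k).2.2 i + (β k).2.2 j ≠ 0) =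
            (J1.filter fun k => ∑ u ∈ pt S₁ (symmDiff (Vm i) (Vm j)), (β k).2.1 u +
              (β k).2.2 i + (β k).2.2 j ≠ 0) := by
          refine Finset.filter_congr fun k _ => ?_
          rw [add_pt, sd_sd]
        rw [h4]
        omega)
    obtain ⟨Q, hQ⟩ : ∃ Q : (prs J1 → ZMod 2) → Prop, ∀ α, Q α ↔ ∀ i,
      finrank (ZMod 2) (KM (pt S₁ (symmDiff S₀ (Vm i))) (ue Φ S₁)
      J1 (fun u v : S₁ => nr u v) (fun (u : S₁) l => (β l).1 u) (fun k (u : S₁) => (β k).2.1 u)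
      (ext α) (fun u : S₁ => f i u) (fun k => (β k).2.2 i)) = r i :=
      ⟨_, fun _ => Iff.rfl⟩
    have h3 := Pool.Agent.Y356.CQ.t_EQ ι J1 C' X κ hκ
      (fun i => (Finset.card_le_card (Finset.filter_subset _ _)).trans (hCX i))
      (HB_sub hHB fun i q => lf f S₁ q = β i) Q
    have h4 : ((Fintype.piFinset C).filter fun p => (fun i => lf f S₁ (p i)) = β ∧
        GdR Φ r f Vm (S₀ ∪ univ.image p)) = ((Fintype.piFinset C').filter fun p =>
          Q fun e => nr (p e.1.1) (p e.1.2)) := by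
      rw [← hpi, Finset.filter_filter]
      refine Finset.filter_congr fun p hp => ?_
      refine and_congr_right fun hl => ?_
      rw [hgd p hp, hQ]
      subst hl
      exact Iff.rfl
    have h5 : (((Fintype.piFinset C').card : ℕ) : ℝ) = ∏ j, ((C' j).card : ℝ) := by
      rw [Fintype.card_piFinset]
      push_cast
      rfl
    rw [h4, hpi, h5]
    have h2' : |((univ.filter Q).card : ℝ) / 2 ^ (prs J1).card - cR r| ≤ ε := by
      rw [Finset.filter_congr fun α _ => hQ α]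
      exact h2
    set n : ℝ := (((Fintype.piFinset C').filter fun p =>
          Q fun e => nr (p e.1.1) (p e.1.2)).card : ℝ) with hn
    set q : ℝ := ((univ.filter Q).card : ℝ) / 2 ^ (prs J1).card with hq
    set P : ℝ := ∏ j, ((C' j).card : ℝ) with hP
    have hP0 : 0 ≤ P := Finset.prod_nonneg fun j _ => by positivity
    have h6 : |n - cR r * P| ≤ |n - q * P| + |q - cR r| * P := by
      have h7 : n - cR r * P = (n - q * P) + (q - cR r) * P := by ring
      have h8 : |(q - cR r) * P| = |q - cR r| * P := by rw [abs_mul, abs_of_nonneg hP0]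
      rw [h7, ← h8]
      exact abs_add_le _ _
    have h7 : |q - cR r| * P ≤ ε * P := mul_le_mul_of_nonneg_right h2' hP0
    have h8 : |n - q * P| ≤ R := h3
    linarith
  -- sum over the labels
  set LL := univ.filter (fun β : ι → Lf M S₁ => LF Φ R₀ S₁ Vm J1 β) with hLL
  have hfib : ∀ T : (ι → ℕ) → Prop,
      (((Fintype.piFinset C).filter fun p => NdF Φ R₀ W f Vm S₀ (univ.image p) ∧ T p).card : ℝ) =
      ∑ β ∈ LL, (((Fintype.piFinset C).filter fun p =>
        (fun i => lf f S₁ (p i)) = β ∧ T p).card : ℝ) := by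
    intro T
    rw [Finset.card_eq_sum_card_fiberwise (f := fun (p : ι → ℕ) (i : ι) => lf f S₁ (p i))
      (t := LL) (by
        intro p hp
        rw [Finset.mem_coe, Finset.mem_filter] at hp
        rw [Finset.mem_coe, hLL, Finset.mem_filter]
        exact ⟨Finset.mem_univ _, (ndF_iff f R₀ hVW (hinj p hp.1) (hJ p hp.1)).1 hp.2.1⟩)]
    push_cast
    refine Finset.sum_congr rfl fun β hβ => ?_
    rw [hLL, Finset.mem_filter] at hβ
    congr 2
    ext p
    simp only [Finset.mem_filter]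
    constructor
    · rintro ⟨⟨h3, h4, h4'⟩, h5⟩
      exact ⟨h3, h5, h4'⟩
    · rintro ⟨h3, h4, h5⟩
      refine ⟨⟨h3, ?_, h5⟩, h4⟩
      refine (ndF_iff f R₀ hVW (hinj p h3) (hJ p h3)).2 ?_
      rw [← hS₁d, h4]
      exact hβ.2
  have hf1 := hfib fun p => GdR Φ r f Vm (S₀ ∪ univ.image p)
  have hf2 := hfib fun _ => True
  simp only [and_true] at hf2
  rw [hf1, hf2, Finset.mul_sum, ← Finset.sum_sub_distrib]
  refine (Finset.abs_sum_le_sum_abs _ _).trans ?_
  refine (Finset.sum_le_sum fun β hβ => h1 β (Finset.mem_filter.1 hβ).2).trans ?_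
  rw [Finset.sum_add_distrib, ← Finset.mul_sum, Finset.sum_const, nsmul_eq_mul]
  have h5 : ((LL.card : ℕ) : ℝ) ≤ 2 ^ ((2 * S₁.card + M) * Fintype.card ι) := by
    have h6 : LL.card ≤ Fintype.card (ι → Lf M S₁) := Finset.card_le_univ _
    rw [Fintype.card_fun, Fintype.card_prod, Fintype.card_prod, Fintype.card_fun, Fintype.card_fun,
      ZMod.card, Fintype.card_coe, Fintype.card_fin, ← pow_add, ← pow_add, ← pow_mul] at h6
    have h7 : (S₁.card + (S₁.card + M)) * Fintype.card ι = (2 * S₁.card + M) * Fintype.card ι := by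
      ring
    rw [h7] at h6
    exact_mod_cast h6
  have h6 := mul_le_mul_of_nonneg_right h5 hR0
  rw [pow_add, mul_assoc]
  linarith

end Q283.GM
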