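import Pool.Agent.Y405.CQ.MER
import Pool.Agent.Y302.CQ.LOW
import Pool.Agent.TH423.SH.PAIP
import Pool.Agent.Q283.GM.Stm

/-!
# The classes of primes given by residues modulo `m`
-/

set_option autoImplicit false

open scoped Classical

namespace Q283.GM

open Finset Filter

/-- the residue classes -/
structure RC where
  m : ℕ
  𝒜 : Finset ℕ
  ℬ : Finset ℕ
  h4 : 4 ∣ m
  pos : 0 < m
  hA : ∀ a ∈ 𝒜, a < m ∧ a.Coprime m ∧ a % 4 = 1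
  h1 : 1 ∈ 𝒜
  hB : ∀ b ∈ ℬ, b < m ∧ b.Coprime m
  hBn : ℬ.Nonempty
  dis : Disjoint 𝒜 ℬ

/-- the family -/
def RC.Φ (ρ : RC) : Fam where
  A p := p.Prime ∧ p % ρ.m ∈ ρ.𝒜
  B p := p.Prime ∧ p % ρ.m ∈ ρ.ℬ
  hA := by
    rintro p ⟨h1, h2⟩
    refine ⟨h1, ?_⟩
    have h3 := (ρ.hA _ h2).2.2
    rwa [Nat.mod_mod_of_dvd p ρ.h4] at h3
  hB := by
    rintro p ⟨h1, h2⟩
    refine ⟨h1, ?_⟩
    rintro rfl
    obtain ⟨k, hk⟩ := ρ.h4
    have h3 := (ρ.hB _ h2).2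
    have h5 := ρ.pos
    have h4 : 2 % ρ.m = 2 := Nat.mod_eq_of_lt (by omega)
    rw [h4, hk] at h3
    have := Nat.Coprime.coprime_mul_right_right h3
    revert this
    decide
  dis := by
    rintro p ⟨-, h2⟩ ⟨-, h3⟩
    exact Finset.disjoint_left.1 ρ.dis h2 h3

/-- the density of the primes -/
noncomputable def RC.δ (ρ : RC) : ℝ := ((ρ.𝒜 ∪ ρ.ℬ).card : ℝ) / (ρ.m.totient : ℝ)

theorem RC.P_iff (ρ : RC) (p : ℕ) : ρ.Φ.P p ↔ p.Prime ∧ p % ρ.m ∈ ρ.𝒜 ∪ ρ.ℬ := by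
  rw [mem_union]
  unfold Fam.P RC.Φ
  simp only
  tauto

/-- Mertens' theorem for several classes -/
theorem mer_cls {m : ℕ} (hm : 0 < m) (S : Finset ℕ) (hS : ∀ a ∈ S, a < m ∧ a.Coprime m) :
    ∃ C : ℝ, ∀ y : ℕ, 3 ≤ y →
      |∑ p ∈ (range (y + 1)).filter (fun p => p.Prime ∧ p % m ∈ S), (1 : ℝ) / p -
        (S.card : ℝ) / (m.totient : ℝ) * Real.log (Real.log y)| ≤ C := by
  have h1 : ∀ a : ℕ, ∃ C : ℝ, a ∈ S → ∀ y : ℕ, 3 ≤ y →
      |∑ p ∈ (range (y + 1)).filter (fun p => p.Prime ∧ p % m = a), (1 : ℝ) / p -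
        1 / (m.totient : ℝ) * Real.log (Real.log y)| ≤ C := by
    intro a
    by_cases h : a ∈ S
    · obtain ⟨C, -, hC⟩ := Pool.Agent.Y405.CQ.mertens_ap m hm a (hS a h).1 (hS a h).2
      refine ⟨C, fun _ y hy => ?_⟩
      have h3 : (range (y + 1)).filter (fun p => p.Prime ∧ p % m = a) =
          (Icc 1 y).filter (fun p => p.Prime ∧ p % m = a) := by
        ext p
        rw [mem_filter, mem_filter, mem_range, mem_Icc]
        constructor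
        · rintro ⟨g1, g2, g3⟩
          exact ⟨⟨g2.one_lt.le, by omega⟩, g2, g3⟩
        · rintro ⟨⟨g0, g1⟩, g2, g3⟩
          exact ⟨by omega, g2, g3⟩
      rw [h3]
      exact hC y hy
    · exact ⟨0, fun h' => absurd h' h⟩
  choose c hc using h1
  refine ⟨∑ a ∈ S, c a, fun y hy => ?_⟩
  have h2 : ∀ p ∈ (range (y + 1)).filter (fun p => p.Prime ∧ p % m ∈ S), p % m ∈ S := fun p hp =>
    (mem_filter.1 hp).2.2
  rw [← sum_fiberwise_of_maps_to h2]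
  have h3 : ∀ a ∈ S, ∑ p ∈ ((range (y + 1)).filter (fun p => p.Prime ∧ p % m ∈ S)).filter
      (fun p => p % m = a), (1 : ℝ) / p =
      ∑ p ∈ (range (y + 1)).filter (fun p => p.Prime ∧ p % m = a), (1 : ℝ) / p := by
    intro a ha
    congr 1
    ext p
    simp only [mem_filter]
    constructor
    · rintro ⟨⟨a1, a2, a3⟩, a4⟩
      exact ⟨a1, a2, a4⟩
    · rintro ⟨a1, a2, a3⟩
      exact ⟨⟨a1, a2, a3 ▸ ha⟩, a3⟩
  rw [sum_congr rfl h3]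
  have h4 : (S.card : ℝ) / (m.totient : ℝ) * Real.log (Real.log y) =
      ∑ a ∈ S, 1 / (m.totient : ℝ) * Real.log (Real.log y) := by
    rw [sum_const, nsmul_eq_mul]
    ring
  rw [h4, ← sum_sub_distrib]
  exact (abs_sum_le_sum_abs _ _).trans (sum_le_sum fun a ha => hc a ha y hy)

theorem RC.hAB (ρ : RC) : ∀ a ∈ ρ.𝒜 ∪ ρ.ℬ, a < ρ.m ∧ a.Coprime ρ.m := by
  intro a ha
  rcases mem_union.1 ha with h | h
  · exact ⟨(ρ.hA a h).1, (ρ.hA a h).2.1⟩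
  · exact ρ.hB a h

theorem RC.sum_P (ρ : RC) (y : ℕ) : ∑ p ∈ (range (y + 1)).filter (fun p => ρ.Φ.P p), (1 : ℝ) / p =
    ∑ p ∈ (range (y + 1)).filter (fun p => p.Prime ∧ p % ρ.m ∈ ρ.𝒜 ∪ ρ.ℬ), (1 : ℝ) / p := by
  refine sum_congr ?_ fun _ _ => rfl
  ext p
  rw [mem_filter, mem_filter, ρ.P_iff]

theorem RC.up (ρ : RC) : ∃ C : ℝ, ∀ y : ℕ, 3 ≤ y →
    ∑ p ∈ (range (y + 1)).filter (fun p => ρ.Φ.P p), (1 : ℝ) / p ≤
      ρ.δ * Real.log (Real.log y) + C := by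
  obtain ⟨C, hC⟩ := mer_cls ρ.pos (ρ.𝒜 ∪ ρ.ℬ) ρ.hAB
  refine ⟨C, fun y hy => ?_⟩
  rw [ρ.sum_P]
  have := (abs_le.1 (hC y hy)).2
  unfold RC.δ
  linarith

theorem RC.phi_pos (ρ : RC) : (0 : ℝ) < (ρ.m.totient : ℝ) := by
  exact_mod_cast Nat.totient_pos.2 ρ.pos

theorem sumf_congr {P Q : ℕ → Prop} {iP : DecidablePred P} {iQ : DecidablePred Q} (h : ∀ p, P p ↔ Q p)
    (s : Finset ℕ) (f : ℕ → ℝ) : ∑ p ∈ s.filter P, f p = ∑ p ∈ s.filter Q, f p := by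
  refine sum_congr ?_ fun _ _ => rfl
  ext p
  rw [mem_filter, mem_filter, h]

theorem hm_cls {m : ℕ} (hm : 0 < m) (S : Finset ℕ) (hS : ∀ a ∈ S, a < m ∧ a.Coprime m)
    (hn : S.Nonempty) : HM fun p => p.Prime ∧ p % m ∈ S := by
  obtain ⟨C, hC⟩ := mer_cls hm S hS
  have h0 : (0 : ℝ) < (m.totient : ℝ) := by exact_mod_cast Nat.totient_pos.2 hm
  have h1 : (0 : ℝ) < (S.card : ℝ) := by exact_mod_cast Finset.card_pos.2 hn
  refine ⟨(S.card : ℝ) / (m.totient : ℝ), C, by positivity, fun y hy => ?_⟩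
  have h2 := (abs_le.1 (hC y hy)).1
  have h5 : (S.card : ℝ) / (m.totient : ℝ) * Real.log (Real.log y) - C ≤
      ∑ p ∈ (range (y + 1)).filter (fun p => p.Prime ∧ p % m ∈ S), (1 : ℝ) / p := by linarith
  exact h5.trans (le_of_eq (sumf_congr (fun p => ⟨fun h => ⟨h.1, h⟩, fun h => h.2⟩) _ _))

theorem RC.act (ρ : RC) : HM ρ.Φ.A :=
  hm_cls ρ.pos ρ.𝒜 (fun a ha => ⟨(ρ.hA a ha).1, (ρ.hA a ha).2.1⟩) ⟨1, ρ.h1⟩

theorem RC.pas (ρ : RC) : HM ρ.Φ.B := hm_cls ρ.pos ρ.ℬ ρ.hB ρ.hBn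

theorem RC.δ_pos (ρ : RC) : 0 < ρ.δ := by
  have h0 := ρ.phi_pos
  have h1 : (0 : ℝ) < ((ρ.𝒜 ∪ ρ.ℬ).card : ℝ) := by
    exact_mod_cast Finset.card_pos.2 ⟨1, mem_union_left _ ρ.h1⟩
  unfold RC.δ
  positivity

theorem RC.δ_le (ρ : RC) : ρ.δ ≤ 1 := by
  unfold RC.δ
  rw [div_le_one ρ.phi_pos]
  have h1 : ρ.𝒜 ∪ ρ.ℬ ⊆ (range ρ.m).filter fun a => ρ.m.Coprime a := by
    intro a ha
    rw [mem_filter, mem_range]
    exact ⟨(ρ.hAB a ha).1, (ρ.hAB a ha).2.symm⟩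
  have h2 := Finset.card_le_card h1
  rw [← Nat.totient_eq_card_coprime] at h2
  exact_mod_cast h2

/-- Mertens' theorem for the primes outside the class -/
theorem RC.mert (ρ : RC) : ∃ C : ℝ, ∀ y : ℕ, 3 ≤ y →
    ∑ p ∈ Pool.Agent.Y302.CQ.P2 ρ.Φ.P y, (1 : ℝ) / p ≤ (1 - ρ.δ) * Real.log (Real.log y) + C := by
  set S := (range ρ.m).filter (fun a => a.Coprime ρ.m ∧ a ∉ ρ.𝒜 ∪ ρ.ℬ) with hS
  obtain ⟨C, hC⟩ := mer_cls ρ.pos S (by
    intro a ha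
    rw [hS, mem_filter, mem_range] at ha
    exact ⟨ha.1, ha.2.1⟩)
  have hcard : (S.card : ℝ) / (ρ.m.totient : ℝ) = 1 - ρ.δ := by
    have h1 : S.card + (ρ.𝒜 ∪ ρ.ℬ).card = ρ.m.totient := by
      rw [Nat.totient_eq_card_coprime, ← Finset.card_union_of_disjoint]
      · congr 1
        ext a
        rw [mem_union, hS, mem_filter, mem_filter, mem_range]
        constructor
        · rintro (h | h)
          · exact ⟨h.1, h.2.1.symm⟩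
          · exact ⟨(ρ.hAB a h).1, (ρ.hAB a h).2.symm⟩
        · rintro ⟨h1, h2⟩
          by_cases h : a ∈ ρ.𝒜 ∪ ρ.ℬ
          · exact Or.inr h
          · exact Or.inl ⟨h1, h2.symm, h⟩
      · rw [Finset.disjoint_left]
        intro a ha ha'
        rw [hS, mem_filter] at ha
        exact ha.2.2 ha'
    have h2 : (S.card : ℝ) + ((ρ.𝒜 ∪ ρ.ℬ).card : ℝ) = (ρ.m.totient : ℝ) := by exact_mod_cast h1
    have h3 := ρ.phi_pos
    unfold RC.δ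
    field_simp
    linarith
  refine ⟨C + ∑ p ∈ ρ.m.primeFactors, (1 : ℝ) / p, fun y hy => ?_⟩
  have h1 := (abs_le.1 (hC y hy)).2
  rw [hcard] at h1
  have h2 : ∑ p ∈ Pool.Agent.Y302.CQ.P2 ρ.Φ.P y, (1 : ℝ) / p ≤
      ∑ p ∈ (range (y + 1)).filter (fun p => p.Prime ∧ p % ρ.m ∈ S) ∪ ρ.m.primeFactors,
        (1 : ℝ) / p := by
    refine sum_le_sum_of_subset_of_nonneg ?_ fun p _ _ => by positivity
    intro p hp
    rw [Pool.Agent.Y302.CQ.P2, mem_filter, ρ.P_iff] at hp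
    obtain ⟨h3, h4, h5⟩ := hp
    rw [mem_union, mem_filter]
    by_cases h6 : p ∣ ρ.m
    · exact Or.inr (Nat.mem_primeFactors.2 ⟨h4, h6, ρ.pos.ne'⟩)
    · left
      refine ⟨h3, h4, ?_⟩
      rw [hS, mem_filter, mem_range]
      refine ⟨Nat.mod_lt _ ρ.pos, ?_, fun h => h5 ⟨h4, h⟩⟩
      have h7 : p.Coprime ρ.m := (Nat.Prime.coprime_iff_not_dvd h4).2 h6
      unfold Nat.Coprime at h7 ⊢
      rw [← Nat.gcd_rec, Nat.gcd_comm]
      exact h7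
  have h3 := Finset.sum_union_inter (s₁ := (range (y + 1)).filter fun p => p.Prime ∧ p % ρ.m ∈ S)
    (s₂ := ρ.m.primeFactors) (f := fun p : ℕ => (1 : ℝ) / p)
  have h4 : 0 ≤ ∑ p ∈ (range (y + 1)).filter (fun p => p.Prime ∧ p % ρ.m ∈ S) ∩ ρ.m.primeFactors,
    (1 : ℝ) / p := sum_nonneg fun p _ => by positivity
  linarith

/-- many primes `1` modulo `m` -/
theorem che (m : ℕ) (hm : 0 < m) : ∃ (c : ℝ) (Y₀ : ℕ), 0 < c ∧ ∀ Y : ℕ, Y₀ ≤ Y →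
    c * Y / Real.log Y ≤
      (((range (Y + 1)).filter fun p => p.Prime ∧ p % m = 1 % m).card : ℝ) := by
  obtain ⟨x₀, hx₀⟩ := Pool.Agent.TH423.SH.pai m hm (1 / 2) (1 / 4) (by norm_num)
    (by norm_num)
  have hφ : (0 : ℝ) < (m.totient : ℝ) := by exact_mod_cast Nat.totient_pos.2 hm
  refine ⟨1 / (8 * m.totient), max 4 ⌈x₀⌉₊, by positivity, ?_⟩
  intro Y hY
  have hY4 : 4 ≤ Y := le_trans (le_max_left _ _) hY
  have hYx : x₀ ≤ (Y : ℝ) := (Nat.le_ceil x₀).trans (by exact_mod_cast (le_max_right _ _).trans hY)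
  have hY4' : (4 : ℝ) ≤ Y := by exact_mod_cast hY4
  have hdiv1 : ((Y / 2 : ℕ) : ℝ) ≤ (Y : ℝ) / 2 := Nat.cast_div_le
  have hdiv2 : (Y : ℝ) / 2 ≤ ((Y / 2 + 1 : ℕ) : ℝ) := by
    have : Y < 2 * (Y / 2 + 1) := by omega
    have : (Y : ℝ) < 2 * ((Y / 2 + 1 : ℕ) : ℝ) := by exact_mod_cast this
    linarith
  have hlog : 0 < Real.log Y := Real.log_pos (by linarith)
  have h := hx₀ Y hYx (Y / 2 + 1) Y 1 hdiv2 (by linarith)
    (by push_cast; linarith) (Nat.coprime_one_left m)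
  have h1 := (abs_le.mp h).1
  have hsub : (Ioc (Y / 2 + 1) Y).filter (fun q => q.Prime ∧ q % m = 1 % m) ⊆
      (range (Y + 1)).filter fun p => p.Prime ∧ p % m = 1 % m := by
    intro q hq
    rw [mem_filter, mem_Ioc] at hq
    rw [mem_filter, mem_range]
    exact ⟨by omega, hq.2⟩
  have hcard : (((Ioc (Y / 2 + 1) Y).filter (fun q => q.Prime ∧ q % m = 1 % m)).card : ℝ) ≤
      (((range (Y + 1)).filter fun p => p.Prime ∧ p % m = 1 % m).card : ℝ) := by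
    exact_mod_cast Finset.card_le_card hsub
  refine le_trans ?_ hcard
  have h2 : (1 / 2 : ℝ) * (((Y : ℝ) - ((Y / 2 + 1 : ℕ) : ℝ)) / (m.totient * Real.log Y)) ≤
      (((Ioc (Y / 2 + 1) Y).filter (fun q => q.Prime ∧ q % m = 1 % m)).card : ℝ) := by
    linarith
  refine le_trans ?_ h2
  have h3 : (Y : ℝ) / 4 ≤ (Y : ℝ) - ((Y / 2 + 1 : ℕ) : ℝ) := by push_cast; linarith
  have h4 : (Y : ℝ) / 4 / (m.totient * Real.log Y) ≤
      ((Y : ℝ) - ((Y / 2 + 1 : ℕ) : ℝ)) / (m.totient * Real.log Y) := by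
    apply div_le_div_of_nonneg_right h3
    positivity
  calc 1 / (8 * (m.totient : ℝ)) * Y / Real.log Y = 1 / 2 * ((Y : ℝ) / 4 / (m.totient * Real.log Y)) := by
        field_simp; ring
    _ ≤ _ := by linarith

end Q283.GM
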