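import Pool.Agent.Y687.JQ.Asy
import Pool.Agent.Q283.GM.CNT
import Pool.Agent.Q283.GM.KEY
import Pool.Agent.Q283.GM.BAD

/-!
# The joint law of the coranks for a general class of primes: the final asymptotics
(after `Pool.Agent.Y703.CQ.Asy`, `Pool.Agent.Y687.JQ.Asy`)
-/

set_option autoImplicit false

open scoped Classical
open Finset Filter

namespace Q283.GM

open Pool.Agent.Y703.CX (sm la jj XX eL zz kk S_SIE eL_tendsto logX_eq rpow_eL HH NN ev_eL one_le_exp
  HH_ge HH_le HH_pos kk_ge kk_le X_pos one_add_log lin_le kap zz_ge zz_pos kap_nonneg kap_pow kap_le)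
open Pool.Agent.Y703.CQ (Sml sml_of sml_add sml_rpow cmp c2)
open Pool.Agent.Y687.JQ (sml_mainJ sml_sum)

/-- sets with many primes -/
theorem sml_many (Φ : Fam) {t : ℝ} (ht : t < 1) :
    Sml t fun X => (((SS Φ X).filter fun S => kk X < S.card).card : ℝ) := by
  apply sml_of (C := 2) (a := 1) ht
  filter_upwards [ev_eL 1] with X hX
  have h0 : 0 < eL X := by linarith
  have h1 := many Φ X (kk X)
  have h2 : Real.exp (2 * eL X) ≤ 2 ^ kk X := by
    have e : (2 : ℝ) ^ kk X = Real.exp (kk X * Real.log 2) := by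
      rw [mul_comm, Real.exp_mul, Real.exp_log (by norm_num), Real.rpow_natCast]
    rw [e]
    apply Real.exp_le_exp.2
    have h3 := kk_ge X
    have h4 := Real.log_two_gt_d9
    nlinarith
  have hX0 : (0 : ℝ) ≤ X := Nat.cast_nonneg _
  have h5 : (((SS Φ X).filter fun S => kk X < S.card).card : ℝ) * Real.exp (2 * eL X) ≤
      X * (2 * Real.exp (eL X)) := by
    calc _ ≤ (((SS Φ X).filter fun S => kk X < S.card).card : ℝ) * 2 ^ kk X := by gcongr
      _ ≤ X * (1 + Real.log X) := h1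
      _ ≤ _ := mul_le_mul_of_nonneg_left (one_add_log h0) hX0
  have h6 : (2 : ℝ) * (X * Real.exp (-1 * eL X)) * Real.exp (2 * eL X) = X * (2 * Real.exp (eL X)) := by
    have e : Real.exp (-1 * eL X) * Real.exp (2 * eL X) = Real.exp (eL X) := by
      rw [← Real.exp_add]; congr 1; ring
    calc _ = 2 * X * (Real.exp (-1 * eL X) * Real.exp (2 * eL X)) := by ring
      _ = _ := by rw [e]; ring
  rw [← h6] at h5
  exact le_of_mul_le_mul_right h5 (Real.exp_pos _)

/-- sets near the boundary -/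
theorem sml_cut (Φ : Fam) {t : ℝ} (ht : t < 1) : Sml t fun X =>
    (((SS Φ X).filter fun S => S.card ≤ kk X ∧
    X < (∏ p ∈ sm (zz X) S, p) * ∏ p ∈ la (zz X) S, XX (HH X) (jj (HH X) p)).card : ℝ) := by
  apply sml_of (C := 2) (a := 1) ht
  have hlog : ∀ᶠ X : ℕ in atTop, Real.exp (eL X) ≤ X := by
    filter_upwards [ev_eL 1] with X hX
    rw [← logX_eq (by linarith)]
    exact (Real.log_le_sub_one_of_pos (by exact_mod_cast X_pos (by linarith))).trans (by linarith)
  filter_upwards [ev_eL 1, lin_le (a := 1) (b := 11) (by norm_num) (by norm_num), hlog] with X hX h11 hl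
  have h0 : 0 < eL X := by linarith
  have h1 := cut_count (Φ := Φ) (X := X) (z := zz X) (k := kk X) (HH_pos h0)
  refine h1.trans ?_
  have hH := HH_ge h0
  have hHp : (0 : ℝ) < HH X := lt_of_lt_of_le (Real.exp_pos _) hH
  have hX0 : (0 : ℝ) ≤ X := Nat.cast_nonneg _
  have h2 : (X : ℝ) * kk X / HH X ≤ X * Real.exp (-1 * eL X) := by
    rw [div_le_iff₀ hHp]
    calc (X : ℝ) * kk X ≤ X * Real.exp (eL X) := by
          have := kk_le hX
          rw [one_mul] at h11
          have : (kk X : ℝ) ≤ Real.exp (eL X) := by linarith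
          gcongr
      _ ≤ X * (Real.exp (-1 * eL X) * Real.exp (3 * eL X)) := by
          rw [← Real.exp_add]
          apply mul_le_mul_of_nonneg_left _ hX0
          apply Real.exp_le_exp.2
          linarith
      _ ≤ X * Real.exp (-1 * eL X) * HH X := by
          rw [mul_assoc]
          gcongr
  have h3 : (1 : ℝ) ≤ X * Real.exp (-1 * eL X) := by
    have e : Real.exp (eL X) * Real.exp (-1 * eL X) = 1 := by
      rw [← Real.exp_add]
      have : eL X + -1 * eL X = 0 := by ring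
      rw [this, Real.exp_zero]
    calc (1 : ℝ) = Real.exp (eL X) * Real.exp (-1 * eL X) := e.symm
      _ ≤ X * Real.exp (-1 * eL X) := mul_le_mul_of_nonneg_right hl (Real.exp_pos _).le
  linarith

/-- sets with two primes in one block -/
theorem sml_coll (Φ : Fam) {t : ℝ} (ht : t < 1) : Sml t fun X => (((SS Φ X).filter fun S =>
    ¬ Set.InjOn (jj (HH X)) (la (zz X) S : Set ℕ)).card : ℝ) := by
  apply sml_of (C := 8) (a := 2) (by linarith)
  filter_upwards [ev_eL 1] with X hX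
  have h0 : 0 < eL X := by linarith
  have h1 := coll_count (Φ := Φ) (X := X) (z := zz X) (HH_pos h0)
  refine h1.trans ?_
  have hH := HH_ge h0
  have hHp : (0 : ℝ) < HH X := lt_of_lt_of_le (Real.exp_pos _) hH
  have hX0 : (0 : ℝ) ≤ X := Nat.cast_nonneg _
  rw [div_le_iff₀ hHp]
  calc 4 * (X : ℝ) * (1 + Real.log X) ≤ 4 * X * (2 * Real.exp (eL X)) := by
        have := one_add_log h0
        gcongr
    _ = 8 * (X * (Real.exp (-2 * eL X) * Real.exp (3 * eL X))) := by
        rw [← Real.exp_add]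
        have : -2 * eL X + 3 * eL X = eL X := by ring
        rw [this]
        ring
    _ ≤ 8 * (X * (Real.exp (-2 * eL X) * HH X)) := by gcongr
    _ = 8 * (X * Real.exp (-2 * eL X)) * HH X := by ring

/-- the pairs of members -/
noncomputable def prU (M : ℕ) : Finset (Fin M × Fin M) := univ.filter fun e => e.1 ≠ e.2

/-- the sets with few large primes of a class -/
noncomputable def few (Φ : Fam) (X z R : ℕ) (w : ℕ → Prop) : Finset (Finset ℕ) :=
  (SS Φ X).filter fun S => ((la z S).filter fun p => w p).card < 2 * (sm z S).card + R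

/-- the sets outside the regular part -/
theorem out_subF {M : ℕ} (Φ : Fam) (W : Finset ℕ) (f : Fin M → ℕ → ZMod 2) (U : Fin M → Finset ℕ)
    (X z H k R : ℕ) :
    SS Φ X \ ((RR Φ X z H k (2 * W.card + R)).filter fun S => NdF Φ R W f U (sm z S) (la z S)) ⊆
      (((((((SS Φ X).filter fun S => k < S.card) ∪
      ((SS Φ X).filter fun S => S.card ≤ k ∧
        X < (∏ p ∈ sm z S, p) * ∏ p ∈ la z S, XX H (jj H p))) ∪
      ((SS Φ X).filter fun S => ¬ Set.InjOn (jj H) (la z S : Set ℕ))) ∪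
      few Φ X z (2 * W.card + R + 1) Φ.A) ∪ few Φ X z 1 Φ.B) ∪
      ((SS Φ X).filter fun S => S.card ≤ k ∧ ¬ Nd Φ (sm z S ∪ W) (la z S))) ∪
      (prU M).biUnion fun e => few Φ X z (2 * W.card + R) fun p => Φ.A p ∧ sep f U e.1 e.2 p ≠ 0 := by
  intro S hS
  rw [Finset.mem_sdiff, Finset.mem_filter] at hS
  obtain ⟨h1, h2⟩ := hS
  by_contra hc
  rw [mem_union, mem_union, mem_union, mem_union, mem_union, mem_union] at hc
  simp only [few, mem_filter, mem_biUnion] at hc
  push Not at hc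
  obtain ⟨⟨⟨⟨⟨⟨c1, c2⟩, c3⟩, c4⟩, c4'⟩, c5⟩, c6⟩ := hc
  have d1 : S.card ≤ k := c1 h1
  have d2 := c2 h1 d1
  have d3 := c3 h1
  have d4 := c4 h1
  have d4' := c4' h1
  have d5 := c5 h1 d1
  have hcu : (sm z S ∪ W).card ≤ (sm z S).card + W.card := card_union_le _ _
  apply h2
  refine ⟨?_, d5, ?_, ?_⟩
  · unfold RR
    rw [mem_filter]
    refine ⟨h1, d3, d1, d2, by omega, ?_⟩
    have h3 : 0 < ((la z S).filter fun p => Φ.B p).card := by omega
    rw [card_pos] at h3
    obtain ⟨p, hp⟩ := h3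
    rw [mem_filter] at hp
    exact ⟨p, hp.1, fun h => Φ.dis p h hp.2⟩
  · omega
  · intro i j hne
    have h3 := c6 (i, j) (by
      unfold prU
      rw [mem_filter]
      exact ⟨mem_univ _, hne⟩) h1
    simp only at h3
    omega

theorem cR_le_one {M : ℕ} (r : Fin M → ℕ) : cR r ≤ 1 := by
  unfold cR
  have h1 := (Pool.Agent.Y948.CQ.t_C2).2
  refine Finset.prod_le_one (fun k _ => mul_nonneg h1.1.le (Pool.Agent.Y697.PQ.cf_pos _).le)
    fun k _ => ?_
  exact mul_le_one₀ h1.2.1.le (Pool.Agent.Y697.PQ.cf_pos _).le (cf_le_one _)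

theorem t_DQ {Φ : Fam} {δ : ℝ} (hΦ : Ok Φ δ) {M : ℕ} (r : Fin M → ℕ) (f : Fin M → ℕ → ZMod 2)
    (W : Finset ℕ) (U : Fin M → Finset ℕ) (hW : OkU W U)
    (hHM : ∀ k l, k ≠ l → HM fun p => Φ.A p ∧ sep f U k l p ≠ 0) :
    Tendsto (fun X : ℕ => (((SS Φ X).filter (GdR Φ r f U)).card : ℝ) / ((SS Φ X).card : ℝ))
      atTop (nhds (cR r)) := by
  obtain ⟨c, X₀, hc, hlow⟩ := hΦ.low
  have hdp := hΦ.pos
  rw [Metric.tendsto_nhds]
  intro ε hε
  obtain ⟨R, C, hC1, hkey⟩ := t_KEY Φ M r (ε / 4) (by linarith)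
  set V : ℕ := 2 * W.card + R with hV
  have s1 := sml_many Φ (t := 1 - δ) (by linarith)
  have s2 := sml_cut Φ (t := 1 - δ) (by linarith)
  have s3 := sml_coll Φ (t := 1 - δ) (by linarith)
  have s4 := sml_few hΦ (w := Φ.A) (fun p h => Or.inl h) hΦ.act (V + 1)
  have s4' := sml_few hΦ (w := Φ.B) (fun p h => Or.inr h) hΦ.pas 1
  have s5 := sml_bad hΦ (E := W) fun u hu => (hW.1 u hu).1
  have s6 := sml_mainJ hC1 (t := 1 - δ) (by linarith)
  have s7 : Sml (1 - δ) fun X => ∑ e ∈ prU M,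
      ((few Φ X (zz X) V fun p => Φ.A p ∧ sep f U e.1 e.2 p ≠ 0).card : ℝ) := by
    refine sml_sum _ _ fun e he => ?_
    unfold prU at he
    rw [mem_filter] at he
    exact sml_few hΦ (fun p h => Or.inl h.1) (hHM _ _ he.2) V
  have s := sml_add (sml_add (sml_add (sml_add (sml_add (sml_add (sml_add s1 s2) s3) s4) s4') s5)
    s6) s7
  have hδ : (0 : ℝ) < c * ε / 4 := by positivity
  obtain ⟨WB, hWB⟩ : ∃ B : ℕ, ∀ u ∈ W, u ≤ B := ⟨W.sup id, fun u hu => Finset.le_sup (f := id) hu⟩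
  have hzt : ∀ᶠ X : ℕ in atTop, WB ≤ zz X := by
    filter_upwards [ev_eL (WB + 1)] with X hX
    have h0 : (1 : ℝ) ≤ eL X := by
      have : (0 : ℝ) ≤ WB := Nat.cast_nonneg _
      linarith
    unfold zz
    apply Nat.le_floor
    have h2 : (WB : ℝ) ≤ (eL X) ^ 3 := by
      have h3 : (1 : ℝ) * eL X ≤ (eL X) ^ 2 * eL X := by
        apply mul_le_mul_of_nonneg_right _ (by linarith)
        nlinarith
      have h4 : (eL X) ^ 3 = (eL X) ^ 2 * eL X := by ring
      linarith
    have h3 := Real.add_one_le_exp ((eL X) ^ 3)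
    linarith
  have hkt : ∀ n : ℕ, ∀ᶠ X : ℕ in atTop, n ≤ kk X := by
    intro n
    filter_upwards [ev_eL (n + 1)] with X hX
    have h2 := kk_ge X
    have h0 : (0 : ℝ) ≤ n := Nat.cast_nonneg _
    have : (n : ℝ) ≤ kk X := by linarith
    exact_mod_cast this
  filter_upwards [s (c * ε / 4) hδ, ev_eL 1, eventually_ge_atTop X₀, hzt, hkt W.card,
    hkt M] with X hX hl hX0 hz hk hkM
  have hl0 : 0 < eL X := by linarith
  have hlo := hlow X hX0
  have e00 : (-1 + δ : ℝ) = -(1 - δ) := by ring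
  rw [e00, rpow_eL hl0] at hlo
  have hXp := X_pos hl0
  have hXp' : (0 : ℝ) < X := by exact_mod_cast hXp
  have hSpos : (0 : ℝ) < ((SS Φ X).card : ℝ) := by
    refine lt_of_lt_of_le ?_ hlo
    positivity
  have hN : (HH X : ℝ) * Real.log X < NN X := by
    unfold NN
    push_cast
    exact Nat.lt_floor_add_one _
  have hmain := hkey f X (zz X) (HH X) (kk X) V (NN X) (kap C X) W U hW
    (fun u hu => (hWB u hu).trans hz) hk hkM hXp (HH_pos hl0) (zz_pos hl)
    (kap_nonneg hC1 X) (kap_pow hC1 hl) hN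
  set T := (RR Φ X (zz X) (HH X) (kk X) V).filter fun S =>
    NdF Φ R W f U (sm (zz X) S) (la (zz X) S) with hT
  have hTG : (RR Φ X (zz X) (HH X) (kk X) V).filter
      (fun S => NdF Φ R W f U (sm (zz X) S) (la (zz X) S) ∧ GdR Φ r f U S) =
        T.filter (GdR Φ r f U) := by
    rw [hT, filter_filter]
  rw [hTG] at hmain
  have hTS : T ⊆ SS Φ X := (filter_subset _ _).trans (filter_subset _ _)
  have hRS : ((RR Φ X (zz X) (HH X) (kk X) V).card : ℝ) ≤ ((SS Φ X).card : ℝ) := by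
    exact_mod_cast card_le_card (filter_subset _ _)
  have hcmp := cmp (GdR Φ r f U) T (SS Φ X) hTS (cR r) (cR_nonneg r) (cR_le_one r)
  have hout : ((SS Φ X \ T).card : ℝ) ≤
      ((((SS Φ X).filter fun S => kk X < S.card).card : ℝ) +
      (((SS Φ X).filter fun S => S.card ≤ kk X ∧
        X < (∏ p ∈ sm (zz X) S, p) * ∏ p ∈ la (zz X) S, XX (HH X) (jj (HH X) p)).card : ℝ) +
      (((SS Φ X).filter fun S => ¬ Set.InjOn (jj (HH X)) (la (zz X) S : Set ℕ)).card : ℝ) +
      ((few Φ X (zz X) (V + 1) Φ.A).card : ℝ) + ((few Φ X (zz X) 1 Φ.B).card : ℝ)) +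
      (((SS Φ X).filter fun S => S.card ≤ kk X ∧
        ¬ Nd Φ (sm (zz X) S ∪ W) (la (zz X) S)).card : ℝ) +
      ∑ e ∈ prU M, ((few Φ X (zz X) V fun p => Φ.A p ∧ sep f U e.1 e.2 p ≠ 0).card : ℝ) := by
    have g := card_le_card (out_subF Φ W f U X (zz X) (HH X) (kk X) R)
    rw [← hV, ← hT] at g
    have g3 := Finset.card_biUnion_le (s := prU M)
      (t := fun e => few Φ X (zz X) V fun p => Φ.A p ∧ sep f U e.1 e.2 p ≠ 0)
    have g2 := ((g.trans (card_union_le _ _)).trans (Nat.add_le_add_right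
      ((card_union_le _ _).trans (Nat.add_le_add_right ((card_union_le _ _).trans
      (Nat.add_le_add_right ((card_union_le _ _).trans
      (Nat.add_le_add_right ((card_union_le _ _).trans
      (Nat.add_le_add_right (card_union_le _ _) _)) _)) _)) _)) _)).trans (Nat.add_le_add_left g3 _)
    exact_mod_cast g2
  have htot : |(((SS Φ X).filter (GdR Φ r f U)).card : ℝ) - cR r * ((SS Φ X).card : ℝ)| ≤
      ε / 4 * ((SS Φ X).card : ℝ) +
        c * ε / 4 * (X * Real.exp (-(1 - δ) * eL X)) := by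
    have g1 : ε / 4 * ((RR Φ X (zz X) (HH X) (kk X) V).card : ℝ) ≤
        ε / 4 * ((SS Φ X).card : ℝ) := mul_le_mul_of_nonneg_left hRS (by positivity)
    change _ + ((few Φ X (zz X) (V + 1) Φ.A).card : ℝ) + ((few Φ X (zz X) 1 Φ.B).card : ℝ) +
      _ + _ + _ ≤ _ at hX
    linarith
  rw [Real.dist_eq]
  have e3 : (((SS Φ X).filter (GdR Φ r f U)).card : ℝ) / ((SS Φ X).card : ℝ) - cR r =
      ((((SS Φ X).filter (GdR Φ r f U)).card : ℝ) - cR r * ((SS Φ X).card : ℝ)) /
        ((SS Φ X).card : ℝ) := by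
    field_simp
  rw [e3, abs_div, abs_of_pos hSpos, div_lt_iff₀ hSpos]
  refine lt_of_le_of_lt htot ?_
  have g2 : c * ε / 4 * (X * Real.exp (-(1 - δ) * eL X)) ≤ ε / 4 * ((SS Φ X).card : ℝ) := by
    calc c * ε / 4 * (X * Real.exp (-(1 - δ) * eL X)) =
          ε / 4 * (c * X * Real.exp (-(1 - δ) * eL X)) := by ring
      _ ≤ _ := mul_le_mul_of_nonneg_left hlo (by linarith)
  have g4 : 0 < ε * ((SS Φ X).card : ℝ) := by positivity
  linarith

/-- the translation -/
theorem card_eq (Φ : Fam) (X : ℕ) (Q : Finset ℕ → Prop) :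
    ((Icc 1 X).filter fun D => Squarefree D ∧ (∀ p ∈ D.primeFactors, Φ.P p) ∧
      Q D.primeFactors).card = ((SS Φ X).filter Q).card := by
  refine Finset.card_bij (fun D _ => D.primeFactors) ?_ ?_ ?_
  · intro D hD
    obtain ⟨h1, h2, hcl, h4⟩ := Finset.mem_filter.1 hD
    obtain ⟨h5, h6⟩ := Finset.mem_Icc.1 h1
    refine Finset.mem_filter.2 ⟨Finset.mem_filter.2 ⟨?_, hcl, ?_⟩, h4⟩
    · rw [Finset.mem_powerset]
      intro p hp
      have := Nat.le_of_dvd (by omega) (Nat.dvd_of_mem_primeFactors hp)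
      exact Finset.mem_range.2 (by omega)
    · rw [Nat.prod_primeFactors_of_squarefree h2]
      exact h6
  · intro D hD E hE h
    have h2 := (Finset.mem_filter.1 hD).2.1
    have h3 := (Finset.mem_filter.1 hE).2.1
    have h' : D.primeFactors = E.primeFactors := h
    rw [← Nat.prod_primeFactors_of_squarefree h2, ← Nat.prod_primeFactors_of_squarefree h3, h']
  · intro S hS
    obtain ⟨h1, h2⟩ := Finset.mem_filter.1 hS
    obtain ⟨h3, h4, h5⟩ := Finset.mem_filter.1 h1
    have hpr : ∀ p ∈ S, p.Prime := fun p hp => (h4 p hp).prime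
    have hpf : (∏ p ∈ S, p).primeFactors = S := Nat.primeFactors_prod hpr
    have hsq : Squarefree (∏ p ∈ S, p) := by
      refine Finset.squarefree_prod_of_pairwise_isCoprime (fun p hp q hq hpq => ?_)
        fun p hp => (hpr p hp).squarefree
      show IsRelPrime p q
      rw [← Nat.coprime_iff_isRelPrime]
      exact (Nat.coprime_primes (hpr p hp) (hpr q hq)).mpr hpq
    refine ⟨∏ p ∈ S, p, ?_, hpf⟩
    have hcl : ∀ p ∈ (∏ p ∈ S, p).primeFactors, Φ.P p := by rw [hpf]; exact h4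
    refine Finset.mem_filter.2 ⟨Finset.mem_Icc.2 ⟨?_, h5⟩, hsq, hcl, ?_⟩
    · exact Nat.one_le_iff_ne_zero.2 hsq.ne_zero
    · rw [hpf]
      exact h2

/-- **the joint law of the coranks for a general class of primes** -/
theorem t_DEN {Φ : Fam} {δ : ℝ} (hΦ : Ok Φ δ) {M : ℕ} (r : Fin M → ℕ) (f : Fin M → ℕ → ZMod 2)
    (W : Finset ℕ) (U : Fin M → Finset ℕ) (hW : OkU W U)
    (hHM : ∀ k l, k ≠ l → HM fun p => Φ.A p ∧ sep f U k l p ≠ 0) :
    Tendsto (fun X : ℕ => (((Icc 1 X).filter fun D => Squarefree D ∧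
      (∀ p ∈ D.primeFactors, Φ.P p) ∧ GdR Φ r f U D.primeFactors).card : ℝ) /
      (((Icc 1 X).filter fun D => Squarefree D ∧ ∀ p ∈ D.primeFactors, Φ.P p).card : ℝ))
      atTop (nhds (cR r)) := by
  refine (t_DQ hΦ r f W U hW hHM).congr fun X => ?_
  have e1 := card_eq Φ X (GdR Φ r f U)
  have e2 := card_eq Φ X (fun _ => True)
  rw [Finset.filter_true] at e2
  simp only [and_true] at e2
  rw [← e1, ← e2]

end Q283.GM
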