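import Pool.Agent.Q283.GM.C49
import Pool.Agent.Q283.GM.ASY
import Pool.Agent.Q283.J2.Field

/-!
# The twists of `X_0(49)` by the numbers whose prime factors are `1` modulo `4`: rank zero
-/

set_option autoImplicit false
set_option linter.unusedSectionVars false

open scoped Classical

namespace Q283.GW

open Finset
open Q283.GM hiding DD rk_eq
open Pool.Agent.Y698 (Inq AX)
open Pool.Agent.Y698.SG (Spl Gp mat nq n4)
open Pool.Agent.Y687 (DD qs DD_natAbs)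
open Pool.Agent.Y687.MQ (ZB Ind)
open Pool.Agent.Y687.JQ (DD_mul DD_ne prod_symmDiff isSquare_of_mul)
open Pool.Agent.Y703.CQ (nr c2 Sp)
open Pool.Agent.Y723.QT (Kl F2)
open Pool.Agent.TH841.NF (EF)
open Q283.XF (nf)
open Q283.J2 (RZ49 trn49 delta49 critQ lfun49 finite_set)

/-- the discriminants are positive -/
theorem DD_CF {S : Finset ℕ} (h : CF S) : DD S = ((∏ p ∈ S, p : ℕ) : ℤ) := by
  unfold DD
  push_cast
  refine Finset.prod_congr rfl fun p hp => ?_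
  unfold qs
  rw [if_pos (h p hp).2]

theorem CF.ne {S : Finset ℕ} (h : CF S) : DD S ≠ 0 :=
  DD_ne fun p hp => (h p hp).1.ne_zero

/-- `1 + 4 j` -/
theorem CF.prod {S : Finset ℕ} (h : CF S) : ∃ j, ∏ q ∈ QA S ∪ PA S, q = 1 + 4 * j := by
  have hm4 := Pool.Agent.Y698.prod_mod_four (S := QA S ∪ PA S) fun q hq => by
    rw [union_A] at hq
    exact (h q hq).2
  exact ⟨(∏ q ∈ QA S ∪ PA S, q) / 4, by omega⟩

/-- **the criterion** -/
theorem rz_CF {S : Finset ℕ} (h : CF S) : RZ49 (DD S) ↔ rk ρ49.Φ nf S = 0 := by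
  obtain ⟨j, hj⟩ := h.prod
  have h1 := critQ (QA_inq h) (PA_spl S) hj
  rw [← det_rk, h1, DD_CF h]
  have e : ∏ p ∈ S, p = 1 + 4 * j := by rw [← hj, union_A]
  rw [e]
  exact trn49 (by rw [Nat.cast_ne_zero]; omega)

theorem rz_sq49 {D k : ℤ} (hD : D ≠ 0) (hk : k ≠ 0) : RZ49 (D * k ^ 2) ↔ RZ49 D :=
  Q283.J2.rz_sq true hD hk

/-- the product of two sets of the class -/
theorem rz_mulCF {S T : Finset ℕ} (hS : CF S) (hT : CF T) :
    RZ49 (DD S * DD T) ↔ rk ρ49.Φ nf (symmDiff S T) = 0 := by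
  rw [DD_mul, rz_sq49 (hS.symmDiff hT).ne, rz_CF (hS.symmDiff hT)]
  exact DD_ne fun p hp => (hS p (Finset.mem_inter.1 hp).1).1.ne_zero

/-- the L-function and the points -/
theorem zb_CF {S : Finset ℕ} (h : CF S) (hG : rk ρ49.Φ nf S = 0) :
    ZB (-2835 * DD S ^ 2) (-71442 * DD S ^ 3) := by
  have hdet := (det_rk S).2 hG
  obtain ⟨j, hj⟩ := h.prod
  obtain ⟨F, hF, hF1⟩ := lfun49 (QA_inq h) (PA_spl S) hj hdet
  have e : DD S = ((1 + 4 * j : ℕ) : ℤ) := by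
    rw [DD_CF h, ← hj, union_A]
  rw [e]
  refine ⟨⟨F, hF, ?_⟩, ?_⟩
  · rw [(hF.1.analyticAt 1).analyticOrderAt_eq_zero]
    exact hF1
  · have hΔ : (Pool.Agent.Z702.sh (-2835 * ((1 + 4 * j : ℕ) : ℤ) ^ 2)
        (-71442 * ((1 + 4 * j : ℕ) : ℤ) ^ 3)).Δ ≠ 0 := by
      rw [delta49]
      exact mul_ne_zero (by norm_num) (pow_ne_zero 6 (by
        have : ((1 + 4 * j : ℕ) : ℤ) ≠ 0 := by rw [Nat.cast_ne_zero]; omega
        exact_mod_cast this))
    refine finite_set hΔ ?_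
    rw [← e]
    exact ((rz_CF h).2 hG).1

/-- many primes separate two members -/
theorem hm_CF {e : Finset ℕ} (hne : e.Nonempty) (he : ∀ r ∈ e, r.Prime ∧ r ≠ 2 ∧ r ≠ 7) :
    HM fun p => ρ49.Φ.A p ∧ ∑ r ∈ e, nr p r ≠ 0 := by
  obtain ⟨C, hC⟩ := Q283.J2.hm_same hne he
  refine ⟨1 / 17, C, by norm_num, fun y hy => (hC y hy).trans ?_⟩
  have h0 : ∑ p ∈ (range (y + 1)).filter (fun p => Sp p ∧ ∑ r ∈ e, nr p r ≠ 0), (1 : ℝ) / p ≤
      ∑ p ∈ (range (y + 1)).filter (fun p => p.Prime ∧ (ρ49.Φ.A p ∧ ∑ r ∈ e, nr p r ≠ 0)),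
        (1 : ℝ) / p := by
    refine Finset.sum_le_sum_of_subset_of_nonneg (fun p hp => ?_) fun p _ _ => by positivity
    obtain ⟨h1, h2, h3⟩ := Finset.mem_filter.1 hp
    refine Finset.mem_filter.2 ⟨h1, h2.1, A49.2 ⟨h2.1, ?_, h2.2.2⟩, h3⟩
    have := h2.2.1
    omega
  exact h0.trans (le_of_eq (sumf_congr (fun _ => Iff.rfl) _ _))

theorem CF.ne27 {S : Finset ℕ} (h : CF S) : ∀ p ∈ S, p.Prime ∧ p ≠ 2 ∧ p ≠ 7 := by
  intro p hp
  obtain ⟨h1, h2⟩ := h p hp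
  refine ⟨h1, ?_, ?_⟩
  · rintro rfl; norm_num at h2
  · rintro rfl; norm_num at h2

theorem cardf {P Q : ℕ → Prop} {iP : DecidablePred P} {iQ : DecidablePred Q} (h : ∀ p, P p ↔ Q p)
    (s : Finset ℕ) : (s.filter P).card = (s.filter Q).card := by
  congr 1
  ext p
  rw [mem_filter, mem_filter, h]

/-- proportions of equivalent properties -/
theorem ratio {P Q P' Q' : ℕ → Prop} {iP : DecidablePred P} {iQ : DecidablePred Q}
    {iP' : DecidablePred P'} {iQ' : DecidablePred Q'} (h : ∀ p, P p ↔ P' p) (h' : ∀ p, Q p ↔ Q' p)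
    (s : Finset ℕ) : ((s.filter P).card : ℝ) / ((s.filter Q).card : ℝ) =
      ((s.filter P').card : ℝ) / ((s.filter Q').card : ℝ) := by
  rw [cardf h, cardf h']

/-- **the joint law of the coranks** -/
theorem law_CF {M : ℕ} (r : Fin M → ℕ) (U : Fin M → Finset ℕ) (hU : ∀ k, CF (U k))
    (hinj : ∀ k l, k ≠ l → U k ≠ U l) :
    Filter.Tendsto (fun X : ℕ => (((Icc 1 X).filter fun D : ℕ => (Squarefree D ∧
        CF D.primeFactors) ∧ ∀ k, rk ρ49.Φ nf (symmDiff D.primeFactors (U k)) = r k).card : ℝ) /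
      (((Icc 1 X).filter fun D : ℕ => Squarefree D ∧ CF D.primeFactors).card : ℝ))
      Filter.atTop (nhds (cR r)) := by
  have hW : OkU (univ.biUnion U) U := by
    refine ⟨fun u hu => ?_, fun k => Finset.subset_biUnion_of_mem U (Finset.mem_univ k)⟩
    obtain ⟨k, -, hk⟩ := Finset.mem_biUnion.1 hu
    exact ⟨((hU k).ne27 u hk).1, ((hU k).ne27 u hk).2.1⟩
  have hHM : ∀ k l, k ≠ l → HM fun p => ρ49.Φ.A p ∧ sep (fun _ => nf) U k l p ≠ 0 := by
    intro k l hkl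
    have he : ∀ r ∈ symmDiff (U k) (U l), r.Prime ∧ r ≠ 2 ∧ r ≠ 7 := by
      intro r hr
      rcases Finset.mem_symmDiff.1 hr with h | h
      · exact (hU k).ne27 r h.1
      · exact (hU l).ne27 r h.1
    have e : (fun p => ρ49.Φ.A p ∧ sep (fun _ => nf) U k l p ≠ 0) =
        fun p => ρ49.Φ.A p ∧ ∑ r ∈ symmDiff (U k) (U l), nr p r ≠ 0 := by
      funext p
      unfold sep
      rw [add_assoc, CharTwo.add_self_eq_zero, add_zero]
    rw [e]
    refine hm_CF ?_ he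
    rw [Finset.nonempty_iff_ne_empty]
    intro h0
    have h1 : symmDiff (U k) (U l) = ⊥ := h0
    rw [symmDiff_eq_bot] at h1
    exact hinj k l hkl h1
  have h := t_DEN (ρ49.ok) r (fun _ => nf) (univ.biUnion U) U hW hHM
  have hc : ∀ D : ℕ, (∀ p ∈ D.primeFactors, ρ49.Φ.P p) ↔ CF D.primeFactors := fun D =>
    forall_congr' fun p => forall_congr' fun _ => P49 p
  refine h.congr fun X => ratio (fun D => ?_) (fun D => ?_) _
  · rw [hc, and_assoc]
    exact Iff.rfl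
  · rw [hc]

/-- the class of the `D` -/
def C4 (D : ℕ) : Prop := Squarefree D ∧ CF D.primeFactors

theorem C4.eq {D : ℕ} (h : C4 D) : (D : ℤ) = DD D.primeFactors := by
  rw [DD_CF h.2, Nat.prod_primeFactors_of_squarefree h.1]

/-- **the proportion of rank zero** -/
theorem prop4 {M : ℕ} (U : Fin M → Finset ℕ) (hU : ∀ k, CF (U k))
    (hinj : ∀ k l, k ≠ l → U k ≠ U l) :
    Filter.Tendsto (fun X : ℕ => (((Icc 1 X).filter fun D : ℕ => C4 D ∧
        ∀ k, RZ49 ((D : ℤ) * DD (U k))).card : ℝ) /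
      (((Icc 1 X).filter fun D : ℕ => C4 D).card : ℝ))
      Filter.atTop (nhds (c2 ^ M)) := by
  have h := law_CF (fun _ => 0) U hU hinj
  have hc : cR (fun _ : Fin M => 0) = c2 ^ M := by
    unfold cR
    have : Pool.Agent.Y697.PQ.cf 0 = 1 := by
      simp [Pool.Agent.Y697.PQ.cf]
    simp [this]
  rw [hc] at h
  refine h.congr fun X => ratio (fun D => ?_) (fun D => Iff.rfl) _
  refine and_congr_right fun hD => forall_congr' fun k => ?_
  have hD' : C4 D := hD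
  have h3 := rz_mulCF hD.2 (hU k)
  rw [← hD'.eq] at h3
  exact h3.symm

end Q283.GW
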