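import Pool.Agent.Q283.GM.Sep

/-!
# The classes of the twists for several abelian fields
-/

set_option autoImplicit false
set_option linter.unusedSectionVars false

open scoped Classical

namespace Q283.GF

open Finset Filter
open Q283.GM hiding DD rk_eq
open Q283.GW
open Pool.Agent.Y698 (Inq AX)
open Pool.Agent.Y698.SG (Spl Gp mat nq n4)
open Pool.Agent.Y703.CQ (nr c2)
open Q283.XF (nf)

/-- the list of the fields: `K_i` has degree `2 ^ n_i` and is inside `ℚ(ζ_{r_i})` -/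
structure FL where
  s : ℕ
  r : Fin s → ℕ
  n : Fin s → ℕ
  pr : ∀ i, (r i).Prime
  r4 : ∀ i, r i % 4 = 1
  ns : ∀ i, ¬ IsSquare (-7 : ZMod (r i))

variable (L : FL)

theorem FL.ne7 (i : Fin L.s) : L.r i ≠ 7 := by
  intro h
  have := L.r4 i
  rw [h] at this
  norm_num at this

/-- the modulus -/
noncomputable def FL.R : ℕ := ∏ i, L.r i

theorem FL.R_pos : 0 < L.R := Finset.prod_pos fun i _ => (L.pr i).pos

theorem FL.cop : Nat.Coprime 28 L.R := by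
  refine Nat.Coprime.prod_right fun i _ => ?_
  rw [show (28 : ℕ) = 2 ^ 2 * 7 by norm_num]
  refine Nat.Coprime.mul_left (Nat.Coprime.pow_left 2 ?_) ?_
  · refine (Nat.coprime_primes Nat.prime_two (L.pr i)).2 fun h => ?_
    have := L.r4 i
    rw [← h] at this
    norm_num at this
  · exact (Nat.coprime_primes (by norm_num) (L.pr i)).2 fun h => L.ne7 i h.symm

/-- the condition for the split primes -/
def FL.cA (a : ℕ) : Prop := a % 4 = 1 ∧ (a % 7 = 1 ∨ a % 7 = 2 ∨ a % 7 = 4) ∧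
  ∀ i, ∃ y : ZMod (L.r i), y ^ 2 ^ L.n i = (a : ZMod (L.r i))

/-- the condition for the inert primes -/
def FL.cB (a : ℕ) : Prop := a % 4 = 1 ∧ (a % 7 = 3 ∨ a % 7 = 5 ∨ a % 7 = 6) ∧
  ∀ i, ∃ y : ZMod (L.r i), y ^ 2 ^ L.n i = (a : ZMod (L.r i)) ^ 2

theorem one_lt_m : 1 < 28 * L.R := by have := L.R_pos; omega

/-- the class -/
noncomputable def FL.ρ : RC where
  m := 28 * L.R
  𝒜 := (range (28 * L.R)).filter fun a => a.Coprime (28 * L.R) ∧ L.cA a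
  ℬ := (range (28 * L.R)).filter fun a => a.Coprime (28 * L.R) ∧ L.cB a
  h4 := ⟨7 * L.R, by ring⟩
  pos := by have := L.R_pos; omega
  hA := fun a ha => by
    obtain ⟨h1, h2, h3⟩ := mem_filter.1 ha
    exact ⟨mem_range.1 h1, h2, h3.1⟩
  h1 := by
    refine mem_filter.2 ⟨mem_range.2 (one_lt_m L), Nat.coprime_one_left _, by norm_num,
      Or.inl (by norm_num), fun i => ⟨1, ?_⟩⟩
    rw [one_pow, Nat.cast_one]
  hB := fun a ha => by
    obtain ⟨h1, h2, h3⟩ := mem_filter.1 ha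
    exact ⟨mem_range.1 h1, h2⟩
  hBn := by
    have hc := L.cop
    refine ⟨Nat.chineseRemainder hc 5 1, mem_filter.2 ⟨mem_range.2
      (Nat.chineseRemainder_lt_mul hc _ _ (by norm_num) L.R_pos.ne'), ?_, ?_, ?_, fun i => ?_⟩⟩
    · have h1 := (Nat.chineseRemainder hc 5 1).2.1
      have h2 := (Nat.chineseRemainder hc 5 1).2.2
      refine Nat.Coprime.mul_right ?_ ?_
      · unfold Nat.Coprime
        rw [h1.gcd_eq]
        norm_num
      · unfold Nat.Coprime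
        rw [h2.gcd_eq]
        exact Nat.gcd_one_left _
    · have h1 : (Nat.chineseRemainder hc 5 1 : ℕ) ≡ 5 [MOD 4 * 7] :=
        (Nat.chineseRemainder hc 5 1).2.1
      have h3 : (Nat.chineseRemainder hc 5 1 : ℕ) ≡ 5 [MOD 4] := h1.of_mul_right 7
      exact h3
    · have h1 : (Nat.chineseRemainder hc 5 1 : ℕ) ≡ 5 [MOD 4 * 7] :=
        (Nat.chineseRemainder hc 5 1).2.1
      have h3 : (Nat.chineseRemainder hc 5 1 : ℕ) ≡ 5 [MOD 7] := h1.of_mul_left 4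
      exact Or.inr (Or.inl h3)
    · have h2 : (Nat.chineseRemainder hc 5 1 : ℕ) ≡ 1 [MOD L.R] :=
        (Nat.chineseRemainder hc 5 1).2.2
      have h3 : (Nat.chineseRemainder hc 5 1 : ℕ) ≡ 1 [MOD L.r i] :=
        h2.of_dvd (Finset.dvd_prod_of_mem _ (Finset.mem_univ i))
      refine ⟨1, ?_⟩
      rw [(ZMod.natCast_eq_natCast_iff _ _ _).2 h3, one_pow, Nat.cast_one, one_pow]
  dis := by
    rw [Finset.disjoint_left]
    intro a h1 h2
    have h3 := (mem_filter.1 h1).2.2.2.1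
    have h4 := (mem_filter.1 h2).2.2.2.1
    omega

theorem dvd_m (i : Fin L.s) : L.r i ∣ 28 * L.R :=
  (Finset.dvd_prod_of_mem _ (Finset.mem_univ i)).mul_left 28

theorem cast_mod (i : Fin L.s) (p : ℕ) : ((p % (28 * L.R) : ℕ) : ZMod (L.r i)) = p :=
  (ZMod.natCast_eq_natCast_iff _ _ _).2 ((Nat.mod_modEq p _).of_dvd (dvd_m L i))

theorem mod4 (p : ℕ) : p % (28 * L.R) % 4 = p % 4 := Nat.mod_mod_of_dvd p ⟨7 * L.R, by ring⟩

theorem mod7 (p : ℕ) : p % (28 * L.R) % 7 = p % 7 := Nat.mod_mod_of_dvd p ⟨4 * L.R, by ring⟩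

theorem cA_mod (p : ℕ) : L.cA (p % (28 * L.R)) ↔ L.cA p := by
  unfold FL.cA
  rw [mod4, mod7]
  simp only [cast_mod]

theorem cB_mod (p : ℕ) : L.cB (p % (28 * L.R)) ↔ L.cB p := by
  unfold FL.cB
  rw [mod4, mod7]
  simp only [cast_mod]

theorem cop_mod (p : ℕ) : (p % (28 * L.R)).Coprime (28 * L.R) ↔ p.Coprime (28 * L.R) := by
  unfold Nat.Coprime
  rw [← Nat.gcd_rec, Nat.gcd_comm]

theorem cop_iff {p : ℕ} (hp : p.Prime) (h4 : p % 4 = 1) :
    p.Coprime (28 * L.R) ↔ p ≠ 7 ∧ ∀ i, p ≠ L.r i := by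
  have h2 : p ≠ 2 := by rintro rfl; norm_num at h4
  rw [Nat.coprime_mul_iff_right, show (28 : ℕ) = 2 ^ 2 * 7 by norm_num, Nat.coprime_mul_iff_right]
  constructor
  · rintro ⟨⟨-, h5⟩, h6⟩
    refine ⟨(Nat.coprime_primes hp (by norm_num)).1 h5, fun i => ?_⟩
    exact (Nat.coprime_primes hp (L.pr i)).1 (Nat.Coprime.coprime_dvd_right
      (Finset.dvd_prod_of_mem _ (Finset.mem_univ i)) h6)
  · rintro ⟨h5, h6⟩
    refine ⟨⟨Nat.Coprime.pow_right 2 ((Nat.coprime_primes hp Nat.prime_two).2 h2),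
      (Nat.coprime_primes hp (by norm_num)).2 h5⟩, ?_⟩
    exact Nat.Coprime.prod_right fun i _ => (Nat.coprime_primes hp (L.pr i)).2 (h6 i)

theorem A_iff (p : ℕ) : L.ρ.Φ.A p ↔ p.Prime ∧ (∀ i, p ≠ L.r i) ∧ L.cA p := by
  have e : L.ρ.Φ.A p ↔ p.Prime ∧ p % (28 * L.R) ∈
    (range (28 * L.R)).filter fun a => a.Coprime (28 * L.R) ∧ L.cA a := Iff.rfl
  have hm := one_lt_m L
  rw [e, mem_filter, mem_range, cA_mod, cop_mod]
  constructor
  · rintro ⟨h1, -, h2, h3⟩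
    exact ⟨h1, ((cop_iff L h1 h3.1).1 h2).2, h3⟩
  · rintro ⟨h1, h2, h3⟩
    refine ⟨h1, Nat.mod_lt _ (by omega), (cop_iff L h1 h3.1).2 ⟨?_, h2⟩, h3⟩
    rintro rfl
    have := h3.2.1
    norm_num at this

theorem B_iff (p : ℕ) : L.ρ.Φ.B p ↔ p.Prime ∧ (∀ i, p ≠ L.r i) ∧ L.cB p := by
  have e : L.ρ.Φ.B p ↔ p.Prime ∧ p % (28 * L.R) ∈
    (range (28 * L.R)).filter fun a => a.Coprime (28 * L.R) ∧ L.cB a := Iff.rfl
  have hm := one_lt_m L
  rw [e, mem_filter, mem_range, cB_mod, cop_mod]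
  constructor
  · rintro ⟨h1, -, h2, h3⟩
    exact ⟨h1, ((cop_iff L h1 h3.1).1 h2).2, h3⟩
  · rintro ⟨h1, h2, h3⟩
    refine ⟨h1, Nat.mod_lt _ (by omega), (cop_iff L h1 h3.1).2 ⟨?_, h2⟩, h3⟩
    rintro rfl
    have := h3.2.1
    norm_num at this

/-- the primes of the class -/
def FL.All (p : ℕ) : Prop := p.Prime ∧ p % 4 = 1 ∧ (∀ i, p ≠ L.r i) ∧
  ((IsSquare (-7 : ZMod p) ∧ ∀ i, ∃ y : ZMod (L.r i), y ^ 2 ^ L.n i = (p : ZMod (L.r i))) ∨
    (¬ IsSquare (-7 : ZMod p) ∧ ∀ i, ∃ y : ZMod (L.r i), y ^ 2 ^ L.n i = (p : ZMod (L.r i)) ^ 2))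

theorem P_iff (p : ℕ) : L.ρ.Φ.P p ↔ L.All p := by
  unfold Fam.P FL.All
  rw [A_iff, B_iff]
  unfold FL.cA FL.cB
  constructor
  · rintro (⟨h1, h2, h3, h4, h5⟩ | ⟨h1, h2, h3, h4, h5⟩)
    · have : Fact p.Prime := ⟨h1⟩
      refine ⟨h1, h3, h2, Or.inl ⟨?_, h5⟩⟩
      rw [Pool.Agent.Y687.sq_seven p h3 (by rintro rfl; norm_num at h4)]
      exact h4
    · have : Fact p.Prime := ⟨h1⟩
      refine ⟨h1, h3, h2, Or.inr ⟨?_, h5⟩⟩
      rw [Pool.Agent.Y687.sq_seven p h3 (by rintro rfl; norm_num at h4)]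
      omega
  · rintro ⟨h1, h2, h3, h4⟩
    have : Fact p.Prime := ⟨h1⟩
    have h7 : p ≠ 7 := by rintro rfl; norm_num at h2
    rw [Pool.Agent.Y687.sq_seven p h2 h7] at h4
    rcases h4 with ⟨h5, h6⟩ | ⟨h5, h6⟩
    · exact Or.inl ⟨h1, h3, h2, h5, h6⟩
    · refine Or.inr ⟨h1, h3, h2, ?_, h6⟩
      have h8 : p % 7 ≠ 0 := by
        intro h
        exact h7 ((Nat.prime_dvd_prime_iff_eq (by norm_num) h1).1 (Nat.dvd_of_mod_eq_zero h)).symm
      omega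

theorem A_49 {p : ℕ} (hp : L.ρ.Φ.P p) : L.ρ.Φ.A p ↔ ρ49.Φ.A p := by
  rw [A49]
  constructor
  · intro h
    rw [A_iff] at h
    exact ⟨h.1, h.2.2.1, h.2.2.2.1⟩
  · rintro ⟨h1, h2, h3⟩
    rcases hp with h | h
    · exact h
    · rw [B_iff] at h
      have := h.2.2.2.1
      omega

/-- the sets of primes of the class -/
def FL.CL (S : Finset ℕ) : Prop := ∀ p ∈ S, L.All p

theorem FL.CL.cf {L : FL} {S : Finset ℕ} (h : L.CL S) : CF S := fun p hp => ⟨(h p hp).1, (h p hp).2.1⟩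

theorem FL.CL.symmDiff {L : FL} {S T : Finset ℕ} (hS : L.CL S) (hT : L.CL T) :
    L.CL (symmDiff S T) := by
  intro p hp
  rcases Finset.mem_symmDiff.1 hp with h | h
  · exact hS p h.1
  · exact hT p h.1

theorem rk_CL {S : Finset ℕ} (h : L.CL S) : rk L.ρ.Φ nf S = rk ρ49.Φ nf S :=
  rk_congr nf fun p hp => A_49 L ((P_iff L p).2 (h p hp))

/-- **the joint law for the class of the fields** -/
theorem law_CL {M : ℕ} (r : Fin M → ℕ) (U : Fin M → Finset ℕ) (hU : ∀ k, L.CL (U k))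
    (hinj : ∀ k l, k ≠ l → U k ≠ U l) :
    Tendsto (fun X : ℕ => (((Icc 1 X).filter fun D : ℕ => (Squarefree D ∧
        L.CL D.primeFactors) ∧ ∀ k, rk ρ49.Φ nf (symmDiff D.primeFactors (U k)) = r k).card : ℝ) /
      (((Icc 1 X).filter fun D : ℕ => Squarefree D ∧ L.CL D.primeFactors).card : ℝ))
      atTop (nhds (cR r)) := by
  have hU' : ∀ k, ∀ p ∈ U k, p.Prime ∧ p ≠ 2 ∧ p.Coprime L.ρ.m := by
    intro k p hp
    obtain ⟨h1, h2, h3, h4⟩ := hU k p hp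
    refine ⟨h1, ?_, (cop_iff L h1 h2).2 ⟨?_, h3⟩⟩
    · rintro rfl; norm_num at h2
    · rintro rfl; norm_num at h2
  have h := L.ρ.law nf r U hU' hinj
  have hc : ∀ D : ℕ, (∀ p ∈ D.primeFactors, L.ρ.Φ.P p) ↔ L.CL D.primeFactors := fun D =>
    forall_congr' fun p => forall_congr' fun _ => P_iff L p
  refine h.congr fun X => ratio (fun D => ?_) (fun D => ?_) _
  · rw [hc]
    refine and_congr_right fun hD => forall_congr' fun k => ?_
    rw [rk_CL L (hD.2.symmDiff (hU k))]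
  · rw [hc]

/-- the number of the members of the class -/
theorem low_CL : ∃ (c : ℝ) (X₀ : ℕ), 0 < c ∧ ∀ X : ℕ, X₀ ≤ X →
    c * X * (Real.log X) ^ (-1 + L.ρ.δ : ℝ) ≤
      (((Icc 1 X).filter fun D : ℕ => Squarefree D ∧ L.CL D.primeFactors).card : ℝ) := by
  obtain ⟨c, X₀, hc, hX⟩ := L.ρ.ok.low
  refine ⟨c, X₀, hc, fun X h => (hX X h).trans (le_of_eq ?_)⟩
  have e2 := card_eq L.ρ.Φ X (fun _ => True)
  rw [Finset.filter_true] at e2
  simp only [and_true] at e2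
  have hc : ∀ D : ℕ, (∀ p ∈ D.primeFactors, L.ρ.Φ.P p) ↔ L.CL D.primeFactors := fun D =>
    forall_congr' fun p => forall_congr' fun _ => P_iff L p
  rw [← e2]
  exact congrArg (Nat.cast (R := ℝ)) (cardf (fun D => by rw [hc]) _)

end Q283.GF
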