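import Pool.Agent.Y698.SG.Fj
import Pool.Agent.Y698.SG.Ug
import Pool.Agent.Y698.SG.Uj
import Pool.Agent.Y698.SG.Dwc
import Pool.Agent.Y698.SG.Ebb
import Pool.Agent.Q283.GM.Fld
import Pool.Agent.Q283.J2.Conv

/-!
# The formula modulo two over the rational numbers for the twists of `X_0(49)`
-/

set_option autoImplicit false
set_option linter.unusedSectionVars false

namespace Q283.GB

open Pool.Agent.Y698 Pool.Agent.Y698.SG
open NumberField IsDedekindDomain IsCyclotomicExtension.Rat WithZero WeierstrassCurve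
open Pool.Agent.W189.NF Pool.Agent.TH936.CM
open Pool.Agent.H921R2.TatePole Pool.Agent.H82R3.EK
open Gx (mx)

/-- there is an inert prime outside of a given finite set -/
theorem exists_inq (Q : Finset ℕ) : ∃ r : ℕ, Inq r ∧ r ∉ Q := by
  have : NeZero (28 : ℕ) := ⟨by norm_num⟩
  have h1 : IsUnit ((5 : ℕ) : ZMod 28) := (ZMod.isUnit_iff_coprime 5 28).2 (by norm_num)
  have h2 := (Nat.infinite_setOfPred_prime_and_eq_mod h1).exists_notMem_finset Q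
  obtain ⟨r, ⟨hr, h3⟩, h4⟩ := h2
  have h5 : r % 28 = 5 := by
    have := (ZMod.natCast_eq_natCast_iff r 5 28).1 h3
    exact this
  have : Fact r.Prime := ⟨hr⟩
  refine ⟨r, ⟨hr, by omega, ?_⟩, h4⟩
  rw [Pool.Agent.Y687.sq_seven r (by omega) (by omega)]
  omega

section
variable {r : ℕ} [hr : Fact r.Prime] (M : Type) [Field M] [NumberField M]
  [hM : IsCyclotomicExtension {r} ℚ M] (K : Type) [Field K] [NumberField K] [Algebra K M]

include hM in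
open Classical in
theorem lser (hn : Module.finrank ℚ K = 1) (h7 : r ≠ 7) {Q P : Finset ℕ} (hgp : ∀ q ∈ Q ∪ P, Gp q) (hrS : r ∉ Q ∪ P) {j : ℕ}
    (hj : ∏ q ∈ Q ∪ P, q = 1 + 4 * j) {F : ℂ → ℂ}
    (g2 : ∀ z : ℂ, 3 / 2 < z.re → HasProd (fun p : Nat.Primes =>
      (1 - bc p * ((∏ q ∈ Q ∪ P, qch q (p : ℕ)) * ((p : ℕ) : ℂ) ^ (-z)) +
      ec p * ((∏ q ∈ Q ∪ P, qch q (p : ℕ)) * ((p : ℕ) : ℂ) ^ (-z)) ^ 2)⁻¹) (F z)) :
    ∀ s : ℂ, 2 < s.re → F s = (AX K j).LSeries s := by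
  have hG : IsGalois ℚ K := isGalK r K (M := M)
  have hcard : Nat.card (XK r M K) = 1 := by rw [card_XK, hn]
  have hfin : Finite (XK r M K) := Nat.finite_of_card_ne_zero (by rw [hcard]; norm_num)
  let _ : Fintype (XK r M K) := Fintype.ofFinite _
  have huniq : ∀ χ : XK r M K, χ = 1 := by
    intro χ
    have h1 : Fintype.card (XK r M K) = 1 := by rw [← Nat.card_eq_fintype_card, hcard]
    obtain ⟨x, hx⟩ := Fintype.card_eq_one_iff.1 h1
    rw [hx χ, hx 1]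
  intro s hs
  have hs' : 3 / 2 < s.re := by linarith
  have h1 : HasProd (fun q : Nat.Primes => ∏ χ : XK r M K,
      EF (cc (χ : DirichletCharacter ℂ r) q * ∏ p ∈ Q ∪ P, qch p (q : ℕ)) s q) (F s) := by
    convert g2 s hs' using 2 with q
    rw [Finset.prod_eq_single (1 : XK r M K)]
    · unfold EF cc
      rw [if_pos (show ((1 : XK r M K) : DirichletCharacter ℂ r) = 1 from rfl), one_mul]
    · intro χ _ hχ
      exact absurd (huniq χ) hχ
    · exact fun h => absurd (Finset.mem_univ _) h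
  simp_rw [← prod_placesD M K h7 hgp hrS hj s] at h1
  have h2 := (LSeries_hasProd (EX K (j : K)) hs).2
  have h3 := (Equiv.sigmaFiberEquiv (below (K := K))).hasProd_iff.2 h2
  have h4 := h3.sigma (g := fun q : Nat.Primes =>
    ∏ v : {v : HeightOneSpectrum (𝓞 K) // below v = q}, LFD j s v.1) (fun q => hasProd_fintype _)
  exact h1.unique h4

include hM in
theorem sum_mx [Normal ℚ K] (hn : Module.finrank ℚ K = 1) {Q P : Finset ℕ} (hQ : ∀ q ∈ Q, Inq q ∧ q ≠ r)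
    (hP : ∀ p ∈ P, Spl p) (hPr : ∀ p ∈ P, p ≠ r) :
    ∑ᶠ χ : XK r M K, mx Q P (χ : DirichletCharacter ℂ r) = Q.card + 2 * P.card := by
  classical
  have hcard : Nat.card (XK r M K) = 1 := by rw [card_XK, hn]
  have hfin : Finite (XK r M K) := Nat.finite_of_card_ne_zero (by rw [hcard]; norm_num)
  let _ : Fintype (XK r M K) := Fintype.ofFinite _
  have huniq : ∀ χ : XK r M K, χ = 1 := by
    intro χ
    have h1 : Fintype.card (XK r M K) = 1 := by rw [← Nat.card_eq_fintype_card, hcard]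
    obtain ⟨x, hx⟩ := Fintype.card_eq_one_iff.1 h1
    rw [hx χ, hx 1]
  rw [finsum_eq_sum_of_fintype, Finset.sum_eq_single (1 : XK r M K)]
  · have hone : ∀ q : ℕ, q.Prime → q ≠ r →
        (((1 : XK r M K) : DirichletCharacter ℂ r) (q : ZMod r)) = 1 := by
      intro q hq hqr
      have h3 : ((1 : XK r M K) : DirichletCharacter ℂ r) = 1 := rfl
      rw [h3]
      refine MulChar.one_apply ?_
      exact isUnit_iff_ne_zero.2 (nat_ne_zero hr.out hq hqr)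
    unfold mx
    rw [Finset.filter_true_of_mem, Finset.filter_true_of_mem]
    · exact fun p hp => hone p (hP p hp).pr (hPr p hp)
    · intro q hq
      rw [hone q (hQ q hq).1.pr (hQ q hq).2, one_pow]
  · intro χ _ hχ
    exact absurd (huniq χ) hχ
  · exact fun h => absurd (Finset.mem_univ _) h

include hM in
/-- the valuation of the analytic order -/
theorem v_quoQ (hn : Module.finrank ℚ K = 1) (hir : Inq r) {Q P : Finset ℕ}
    (hQ : ∀ q ∈ Q, Inq q ∧ q ≠ r) (hP : ∀ p ∈ P, Spl p)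
    {j : ℕ} (hj : ∏ q ∈ Q ∪ P, q = 1 + 4 * j) {L : PeriodPair} {Ω : ℂ} (hL : LD L Ω) (z : ℂ)
    {Γ : Type} [LinearOrderedCommGroupWithZero Γ] (v : Valuation ℂ Γ) (hv : v 2 < 1) :
    v (quoT K j z) = v 2 * v z / (v 2 ^ (Q.card + 2 * P.card) * v Ω ^ 1) := by
  have hn0 : Module.finrank ℚ K = 2 ^ 0 := by rw [hn, pow_zero]
  have hG : IsGalois ℚ K := isGalK r K (M := M)
  have hPr : ∀ p ∈ P, p ≠ r := by
    rintro p hp rfl
    exact hir.ns (hP p hp).sq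
  have h1 := Pool.Agent.Y890.SG.t_TAM r M K 0 hn0 hir Q P j hQ hP hj
  rw [sum_mx M K hn hQ hP hPr] at h1
  rw [v_quoG M K hn0 hir h1 hL z v hv, pow_zero]

end

/-- **the formula modulo two over the rational numbers** -/
theorem main_K (K : Type) [Field K] [NumberField K] (hn : Module.finrank ℚ K = 1)
    (hK : ∀ M : Type, ∀ [Field M] [NumberField M], Nonempty (Algebra K M)) {Q P : Finset ℕ} (hQ : ∀ q ∈ Q, Inq q) (hP : ∀ p ∈ P, Spl p) {j : ℕ}
    (hj : ∏ q ∈ Q ∪ P, q = 1 + 4 * j) :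
    ∃ Λ : ℂ → ℂ, Differentiable ℂ Λ ∧ (∀ s : ℂ, 2 < s.re → Λ s = (AX K j).LSeries s) ∧
      ∀ (Γ : Type) [LinearOrderedCommGroupWithZero Γ] (v : Valuation ℂ Γ), v 2 < 1 →
        v (quoT K j (Λ 1)) ≤ 1 ∧ (v (quoT K j (Λ 1)) = 1 ↔ (mat Q P).det ≠ 0) := by
  classical
  obtain ⟨r, hir, hrQ⟩ := exists_inq Q
  have : Fact r.Prime := ⟨hir.pr⟩
  have hM : IsCyclotomicExtension {r} ℚ (CyclotomicField r ℚ) := cyc_inst r
  obtain ⟨hA⟩ := hK (CyclotomicField r ℚ)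
  have h7 : r ≠ 7 := by
    rintro rfl
    have := hir.m4
    norm_num at this
  have hQ' : ∀ q ∈ Q, Inq q ∧ q ≠ r := fun q hq => ⟨hQ q hq, fun h => hrQ (h ▸ hq)⟩
  have hPr : r ∉ P := fun h => hir.ns (hP r h).sq
  have hrS : r ∉ Q ∪ P := by
    rw [Finset.mem_union]
    exact fun h => h.elim hrQ hPr
  have hgp : ∀ q ∈ Q ∪ P, Gp q := by
    intro q hq
    rcases Finset.mem_union.1 hq with h | h
    · exact Gp.of_inq (hQ q h)
    · exact Gp.of_spl (hP q h)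
  obtain ⟨L, Ω, hL⟩ := exists_LD
  by_cases hdet : (mat Q P).det = 0
  · obtain ⟨F, h1, h2, h4⟩ := val_quad0 inp Pool.Agent.Y21.SG.t_NSI hQ hP hdet
    have h3 := lser (CyclotomicField r ℚ) K hn h7 hgp hrS hj h2
    refine ⟨F, h1, h3, fun Γ _ v hv => ?_⟩
    have hreal : (starRingEnd ℂ) (F 1) = F 1 := conj_val h1 (fun k => (AX K j).LFunction k) h3
    have hΩ : v Ω ≠ 0 := (v.ne_zero_iff).2 hL.lat.ne
    have h20 : v 2 ≠ 0 := (v.ne_zero_iff).2 two_ne_zero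
    have k1 := val_all0 (N := 1) hreal hL (fun Γ _ v hv => by
      rw [pow_one]
      exact h4 Γ v L Ω hL hv) v hv
    have key : v (quoT K j (F 1)) < 1 := by
      rw [v_quoQ (CyclotomicField r ℚ) K hn hir hQ' hP hj hL (F 1) v hv]
      exact (div_lt_one₀ (zero_lt_iff.2 (mul_ne_zero (pow_ne_zero _ h20) (pow_ne_zero _ hΩ)))).2 k1
    exact ⟨key.le, iff_of_false key.ne (not_not.2 hdet)⟩
  · obtain ⟨F, h1, h2, h4⟩ := val_quad' inp hQ hP hdet
    have h3 := lser (CyclotomicField r ℚ) K hn h7 hgp hrS hj h2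
    refine ⟨F, h1, h3, fun Γ _ v hv => ?_⟩
    have hreal : (starRingEnd ℂ) (F 1) = F 1 := conj_val h1 (fun k => (AX K j).LFunction k) h3
    have hΩ : v Ω ≠ 0 := (v.ne_zero_iff).2 hL.lat.ne
    have h20 : v 2 ≠ 0 := (v.ne_zero_iff).2 two_ne_zero
    have k1 := val_allD (N := 1) hreal hL (fun Γ _ v hv => by
      rw [pow_one]
      exact h4 Γ v L Ω hL hv) v hv
    have key : v (quoT K j (F 1)) = 1 := by
      rw [v_quoQ (CyclotomicField r ℚ) K hn hir hQ' hP hj hL (F 1) v hv, k1]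
      exact div_self (mul_ne_zero (pow_ne_zero _ h20) (pow_ne_zero _ hΩ))
    exact ⟨key.le, iff_of_true key hdet⟩

/-- the formula over the rational numbers -/
theorem main_Q {Q P : Finset ℕ} (hQ : ∀ q ∈ Q, Inq q) (hP : ∀ p ∈ P, Spl p) {j : ℕ}
    (hj : ∏ q ∈ Q ∪ P, q = 1 + 4 * j) :
    ∃ Λ : ℂ → ℂ, Differentiable ℂ Λ ∧ (∀ s : ℂ, 2 < s.re → Λ s = (AX ℚ j).LSeries s) ∧
      ∀ (Γ : Type) [LinearOrderedCommGroupWithZero Γ] (v : Valuation ℂ Γ), v 2 < 1 →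
        v (quoT ℚ j (Λ 1)) ≤ 1 ∧ (v (quoT ℚ j (Λ 1)) = 1 ↔ (mat Q P).det ≠ 0) :=
  main_K ℚ (by convert Module.finrank_self ℚ) (fun M _ _ => ⟨inferInstance⟩) hQ hP hj

/-- the product of the Tamagawa numbers over a field of degree one -/
theorem tam_K (K : Type) [Field K] [NumberField K] (hn : Module.finrank ℚ K = 1)
    (hK : ∀ M : Type, ∀ [Field M] [NumberField M], Nonempty (Algebra K M)) {Q P : Finset ℕ}
    (hQ : ∀ q ∈ Q, Inq q) (hP : ∀ p ∈ P, Spl p) {j : ℕ} (hj : ∏ q ∈ Q ∪ P, q = 1 + 4 * j) :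
    ∏ᶠ v : HeightOneSpectrum (𝓞 K), tam (AX K j) v = 2 ^ (1 + (Q.card + 2 * P.card)) ∧
    (∀ v : HeightOneSpectrum (𝓞 K), MinimalAt (AX K j) v) ∧
    ∃ m : ℕ, Odd m ∧ tnum (AX K j) = 2 * m := by
  classical
  obtain ⟨r, hir, hrQ⟩ := exists_inq Q
  have : Fact r.Prime := ⟨hir.pr⟩
  have hM : IsCyclotomicExtension {r} ℚ (CyclotomicField r ℚ) := cyc_inst r
  obtain ⟨hA⟩ := hK (CyclotomicField r ℚ)
  have hQ' : ∀ q ∈ Q, Inq q ∧ q ≠ r := fun q hq => ⟨hQ q hq, fun h => hrQ (h ▸ hq)⟩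
  have hPr : ∀ p ∈ P, p ≠ r := by
    rintro p hp rfl
    exact hir.ns (hP p hp).sq
  have hgp : ∀ q ∈ Q ∪ P, Gp q ∧ q ≠ r := by
    intro q hq
    rcases Finset.mem_union.1 hq with h | h
    · exact ⟨Gp.of_inq (hQ q h), (hQ' q h).2⟩
    · exact ⟨Gp.of_spl (hP q h), hPr q h⟩
  refine ⟨?_, fun v => minimal_E (CyclotomicField r ℚ) K hir.ns hgp hj v,
    tnum_AX (CyclotomicField r ℚ) K hir.ns j⟩
  have hn0 : Module.finrank ℚ K = 2 ^ 0 := by rw [hn, pow_zero]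
  have hG : IsGalois ℚ K := isGalK r K (M := CyclotomicField r ℚ)
  rw [Pool.Agent.Y890.SG.t_TAM r (CyclotomicField r ℚ) K 0 hn0 hir Q P j hQ' hP hj,
    sum_mx (CyclotomicField r ℚ) K hn hQ' hP hPr]

theorem tam_Q {Q P : Finset ℕ} (hQ : ∀ q ∈ Q, Inq q) (hP : ∀ p ∈ P, Spl p) {j : ℕ}
    (hj : ∏ q ∈ Q ∪ P, q = 1 + 4 * j) :
    ∏ᶠ v : HeightOneSpectrum (𝓞 ℚ), tam (AX ℚ j) v = 2 ^ (1 + (Q.card + 2 * P.card)) ∧
    (∀ v : HeightOneSpectrum (𝓞 ℚ), MinimalAt (AX ℚ j) v) ∧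
    ∃ m : ℕ, Odd m ∧ tnum (AX ℚ j) = 2 * m :=
  tam_K ℚ (by convert Module.finrank_self ℚ) (fun M _ _ => ⟨inferInstance⟩) hQ hP hj

/-- the criterion for the minimal model -/
theorem crit_AX {Q P : Finset ℕ} (hQ : ∀ q ∈ Q, Inq q) (hP : ∀ p ∈ P, Spl p) {j : ℕ}
    (hj : ∏ q ∈ Q ∪ P, q = 1 + 4 * j) :
    (Finite (AX ℚ j).toAffine.Point ∧
      ∀ x : Pool.Agent.TH841.SH.D.Sha (AX ℚ j), x + x = 0 → x = 0) ↔ (mat Q P).det ≠ 0 := by
  have h := Q283.J2.critQ hQ hP hj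
  obtain ⟨h1, h2, -⟩ := Pool.Agent.Z702.f_TRN _ _ _ _ _ _ (vr_AX ℚ j) (AX_ne ℚ j)
  rw [h, h1, h2]

/-- the period and the discriminant of a field of degree one -/
theorem quoT_one (K : Type) [Field K] [NumberField K] (hn : Module.finrank ℚ K = 1) (hd : discr K = 1)
    (j : ℕ) (z : ℂ) : quoT K j z = z * (tnum (AX K j) : ℂ) ^ 2 /
      (((∫ x in {x : ℝ | 0 < psD (1 + 4 * j) x}, 2 / Real.sqrt (psD (1 + 4 * j) x) : ℝ) : ℂ) *
      ((∏ᶠ v : HeightOneSpectrum (𝓞 K), tam (AX K j) v : ℕ) : ℂ)) := by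
  have hsum := InfinitePlace.card_add_two_mul_card_eq_rank K
  rw [hn] at hsum
  have h1 : InfinitePlace.nrRealPlaces K = 1 := by omega
  have h2 : InfinitePlace.nrComplexPlaces K = 0 := by omega
  unfold quoT
  rw [h1, h2, hd, pow_zero, pow_one, mul_one]
  have e : ((Real.sqrt |(((1 : ℤ)) : ℝ)| : ℝ) : ℂ) = 1 := by
    simp
  rw [e, mul_one]

theorem quoT_Q (j : ℕ) (z : ℂ) : quoT ℚ j z = z * (tnum (AX ℚ j) : ℂ) ^ 2 /
      (((∫ x in {x : ℝ | 0 < psD (1 + 4 * j) x}, 2 / Real.sqrt (psD (1 + 4 * j) x) : ℝ) : ℂ) *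
      ((∏ᶠ v : HeightOneSpectrum (𝓞 ℚ), tam (AX ℚ j) v : ℕ) : ℂ)) :=
  quoT_one ℚ (by convert Module.finrank_self ℚ) Rat.numberField_discr j z

end Q283.GB
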