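import Pool.Agent.Q283.GM.SQ
import Pool.Agent.Q283.GM.ASY
import Pool.Agent.Q283.J2.Kind

/-!
# The twists of `X_0(49)` by all the numbers whose prime factors are `1` modulo `4`
-/

set_option autoImplicit false
set_option linter.unusedSectionVars false

open scoped Classical

namespace Q283.GW

open Finset
open Q283.GM hiding DD rk_eq
open Pool.Agent.Y698 (Inq AX)
open Pool.Agent.Y698.SG (Spl Gp mat nq n4)
open Pool.Agent.Y703.CQ (nr c2)
open Pool.Agent.Y687.JQ (nr_self)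
open Pool.Agent.Y697.PQ (cf)
open Q283.XF (nf)
open Q283.J2 (nr_nq nf_n4)

/-- the classes modulo `28` -/
def ρ49 : RC where
  m := 28
  𝒜 := {1, 9, 25}
  ℬ := {5, 13, 17}
  h4 := by decide
  pos := by decide
  hA := by decide
  h1 := by decide
  hB := by decide
  hBn := by decide
  dis := by decide

/-- the primes of the family are those which are `1` modulo `4` -/
theorem P49 (p : ℕ) : ρ49.Φ.P p ↔ p.Prime ∧ p % 4 = 1 := by
  rw [ρ49.P_iff]
  have e : ρ49.𝒜 ∪ ρ49.ℬ = ({1, 9, 25, 5, 13, 17} : Finset ℕ) := by decide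
  rw [e]
  simp only [mem_insert, mem_singleton]
  constructor
  · rintro ⟨h1, h2⟩
    refine ⟨h1, ?_⟩
    have : ρ49.m = 28 := rfl
    rw [this] at h2
    omega
  · rintro ⟨h1, h2⟩
    refine ⟨h1, ?_⟩
    have : ρ49.m = 28 := rfl
    rw [this]
    have h3 : p % 28 ≠ 21 := by
      intro h4
      have h5 : 7 ∣ p := by omega
      have h6 := (Nat.prime_dvd_prime_iff_eq (by norm_num) h1).1 h5
      omega
    omega

theorem A49 {p : ℕ} : ρ49.Φ.A p ↔ p.Prime ∧ p % 4 = 1 ∧ (p % 7 = 1 ∨ p % 7 = 2 ∨ p % 7 = 4) := by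
  have e : ρ49.Φ.A p ↔ p.Prime ∧ p % 28 ∈ ({1, 9, 25} : Finset ℕ) := Iff.rfl
  rw [e]
  simp only [mem_insert, mem_singleton]
  refine and_congr_right fun _ => ?_
  omega

theorem spl_A {p : ℕ} (h : ρ49.Φ.A p) : Spl p := by
  obtain ⟨h1, h2, h3⟩ := A49.1 h
  have : Fact p.Prime := ⟨h1⟩
  refine ⟨h1, h2, ?_⟩
  rw [Pool.Agent.Y687.sq_seven p h2 (by rintro rfl; norm_num at h3)]
  exact h3

theorem inq_B {p : ℕ} (h1 : p.Prime) (h2 : p % 4 = 1) (h : ¬ ρ49.Φ.A p) : Inq p := by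
  rw [A49] at h
  have : Fact p.Prime := ⟨h1⟩
  have h7 : p ≠ 7 := by rintro rfl; norm_num at h2
  refine ⟨h1, h2, ?_⟩
  rw [Pool.Agent.Y687.sq_seven p h2 h7]
  intro h3
  exact h ⟨h1, h2, h3⟩

/-- the sets of primes `1` modulo `4` -/
def CF (S : Finset ℕ) : Prop := ∀ p ∈ S, p.Prime ∧ p % 4 = 1

theorem CF.symmDiff {S T : Finset ℕ} (hS : CF S) (hT : CF T) : CF (symmDiff S T) := by
  intro p hp
  rcases Finset.mem_symmDiff.1 hp with h | h
  · exact hS p h.1
  · exact hT p h.1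

/-- the split primes -/
noncomputable def PA (S : Finset ℕ) : Finset ℕ := S.filter fun p => ρ49.Φ.A p

/-- the inert primes -/
noncomputable def QA (S : Finset ℕ) : Finset ℕ := S.filter fun p => ¬ ρ49.Φ.A p

theorem union_A (S : Finset ℕ) : QA S ∪ PA S = S := by
  unfold QA PA
  rw [Finset.union_comm]
  exact Finset.filter_union_filter_not_eq _ _

theorem disj_A (S : Finset ℕ) : Disjoint (QA S) (PA S) := by
  rw [Finset.disjoint_left]
  intro a ha hb
  exact (Finset.mem_filter.1 ha).2 (Finset.mem_filter.1 hb).2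

theorem PA_spl (S : Finset ℕ) : ∀ p ∈ PA S, Spl p := fun p hp => spl_A (Finset.mem_filter.1 hp).2

theorem QA_inq {S : Finset ℕ} (hS : CF S) : ∀ p ∈ QA S, Inq p := fun p hp =>
  inq_B (hS p (Finset.mem_filter.1 hp).1).1 (hS p (Finset.mem_filter.1 hp).1).2
    (Finset.mem_filter.1 hp).2

/-- a row of the system -/
theorem rowA (S : Finset ℕ) (x : ℕ → ZMod 2) (hx : ∀ p, ¬ (p ∈ S ∧ ρ49.Φ.A p) → x p = 0)
    (i : PA S) :
    (mat (QA S) (PA S)).mulVec (fun j => x j) i =
      ∑ q ∈ S, nr i q * (x q + x i) + nf i * x i := by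
  have hsum : ∀ g : ℕ → ZMod 2, ∑ q ∈ S, g q = ∑ q ∈ QA S, g q + ∑ q ∈ PA S, g q := by
    intro g
    rw [← Finset.sum_union (disj_A S), union_A]
  have e1 : ∑ q ∈ S, nr i q * (x q + x i) =
      ∑ q ∈ PA S, nr i q * x q + (∑ q ∈ S, nr i q) * x i := by
    rw [Finset.sum_mul]
    unfold PA
    rw [Finset.sum_filter, ← Finset.sum_add_distrib]
    refine Finset.sum_congr rfl fun q _ => ?_
    split_ifs with h
    · ring
    · rw [hx q (fun h' => h h'.2)]
      ring
  have e2 : ∑ q ∈ PA S, nr i q * x q = ∑ j : PA S, nr i j * x j :=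
    (Finset.sum_coe_sort (PA S) (fun q => nr i q * x q)).symm
  have e5 : ∑ q ∈ PA S, nr i q = ∑ q ∈ (PA S).erase i, nr i q := by
    rw [← Finset.add_sum_erase (PA S) (fun q => nr i q) i.2, nr_self, zero_add]
  rw [e1, e2, hsum, e5]
  unfold Matrix.mulVec dotProduct
  rw [← Finset.add_sum_erase univ _ (Finset.mem_univ i),
    ← Finset.add_sum_erase univ (fun j : PA S => nr i j * x j) (Finset.mem_univ i), nr_self,
    zero_mul, zero_add]
  have e3 : ∑ j ∈ univ.erase i, mat (QA S) (PA S) i j * x j =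
      ∑ j ∈ univ.erase i, nr i j * x j := by
    refine Finset.sum_congr rfl fun j hj => ?_
    have hne : i ≠ j := fun h => (Finset.mem_erase.1 hj).1 h.symm
    congr 1
    unfold mat
    rw [Matrix.of_apply, if_neg hne, nr_nq]
  rw [e3]
  have e4 : mat (QA S) (PA S) i i = nf i + ∑ q ∈ QA S, nr i q + ∑ q ∈ (PA S).erase i, nr i q := by
    unfold mat
    rw [Matrix.of_apply, if_pos rfl, nf_n4]
    simp only [nr_nq]
  show mat (QA S) (PA S) i i * x i + _ = _
  rw [e4]
  ring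

/-- restriction to the split primes -/
noncomputable def res (S : Finset ℕ) : (ℕ → ZMod 2) →ₗ[ZMod 2] (PA S → ZMod 2) :=
  LinearMap.funLeft (ZMod 2) (ZMod 2) (fun j : PA S => (j : ℕ))

theorem res_apply (S : Finset ℕ) (x : ℕ → ZMod 2) (j : PA S) : res S x j = x j := rfl

/-- the kernel of the matrix -/
theorem ker_eq (S : Finset ℕ) : (Kr ρ49.Φ nf S).map (res S) =
    LinearMap.ker (mat (QA S) (PA S)).mulVecLin := by
  ext v
  rw [Submodule.mem_map, LinearMap.mem_ker, Matrix.mulVecLin_apply]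
  constructor
  · rintro ⟨x, hx, rfl⟩
    obtain ⟨h1, h2⟩ := mem_Kr.1 hx
    funext i
    have hi := Finset.mem_filter.1 i.2
    exact (rowA S x h1 i).trans (h2 i hi.1 hi.2)
  · intro hv
    set x : ℕ → ZMod 2 := fun p => if h : p ∈ PA S then v ⟨p, h⟩ else 0 with hx
    have e : res S x = v := by
      funext j
      rw [res_apply, hx]
      simp only [j.2, dite_true]
    have h0 : ∀ p, ¬ (p ∈ S ∧ ρ49.Φ.A p) → x p = 0 := by
      intro p hp
      rw [hx]
      exact dif_neg fun h => hp (Finset.mem_filter.1 h)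
    refine ⟨x, mem_Kr.2 ⟨h0, fun p hp ha => ?_⟩, e⟩
    have hpP : p ∈ PA S := Finset.mem_filter.2 ⟨hp, ha⟩
    have h1 := rowA S x h0 ⟨p, hpP⟩
    rw [← e] at hv
    have h2 := congrFun hv ⟨p, hpP⟩
    exact h1.symm.trans h2

theorem res_inj (S : Finset ℕ) {x : ℕ → ZMod 2} (hx : x ∈ Kr ρ49.Φ nf S) (h : res S x = 0) :
    x = 0 := by
  obtain ⟨h1, -⟩ := mem_Kr.1 hx
  funext p
  by_cases hp : p ∈ S ∧ ρ49.Φ.A p
  · exact congrFun h ⟨p, Finset.mem_filter.2 hp⟩
  · exact h1 p hp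

/-- the corank is the dimension of the kernel of the matrix -/
theorem rk_eq (S : Finset ℕ) : rk ρ49.Φ nf S =
    Module.finrank (ZMod 2) (LinearMap.ker (mat (QA S) (PA S)).mulVecLin) := by
  unfold rk
  rw [← ker_eq]
  have hinj : Function.Injective ((res S).domRestrict (Kr ρ49.Φ nf S)) := by
    rw [← LinearMap.ker_eq_bot, Submodule.eq_bot_iff]
    rintro ⟨x, hx⟩ h
    rw [LinearMap.mem_ker] at h
    exact Subtype.ext (res_inj S hx h)
  have h2 : LinearMap.range ((res S).domRestrict (Kr ρ49.Φ nf S)) = (Kr ρ49.Φ nf S).map (res S) := by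
    rw [LinearMap.range_domRestrict]
  rw [← h2]
  exact (LinearEquiv.ofInjective _ hinj).finrank_eq

/-- the determinant and the corank -/
theorem det_rk (S : Finset ℕ) : (mat (QA S) (PA S)).det ≠ 0 ↔ rk ρ49.Φ nf S = 0 := by
  rw [rk_eq, Submodule.finrank_eq_zero, Submodule.eq_bot_iff]
  rw [Ne, ← Matrix.exists_mulVec_eq_zero_iff]
  constructor
  · intro h x hx
    by_contra hne
    exact h ⟨x, hne, hx⟩
  · rintro h ⟨v, hv, hv0⟩
    exact hv (h v hv0)

/-- the number of the elements of the kernel -/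
theorem card_Kr (S : Finset ℕ) : Nat.card (Kr ρ49.Φ nf S) = 2 ^ rk ρ49.Φ nf S := by
  have hfin : Finite (Kr ρ49.Φ nf S) := by
    refine Finite.of_injective (fun x : Kr ρ49.Φ nf S => res S x) ?_
    intro x y h
    have h1 : res S ((x : ℕ → ZMod 2) - y) = 0 := by
      rw [map_sub]
      exact sub_eq_zero.2 h
    have h2 := res_inj S (Submodule.sub_mem _ x.2 y.2) h1
    exact Subtype.ext (sub_eq_zero.1 h2)
  have := Fintype.ofFinite (Kr ρ49.Φ nf S)
  have h3 := Module.card_eq_pow_finrank (K := ZMod 2) (V := Kr ρ49.Φ nf S)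
  rw [Nat.card_eq_fintype_card, h3, ZMod.card]
  rfl

end Q283.GW
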