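import Pool.Agent.Y362.CQ.FEW
import Pool.Agent.Y703.CQ.Asy
import Pool.Agent.Y488.CX.Sie
import Pool.Agent.Q283.GM.Stm

/-!
# The sieve: few sets have few large primes of a class with many primes
(after `Pool.Agent.Y362.CQ.FEW`)
-/

set_option autoImplicit false

open scoped Classical

namespace Q283.GM

open Finset Filter
open Pool.Agent.Y703.CX (sm la eL zz kk S_SIE)
open Pool.Agent.Y703.CQ (nr Sml sml_of sml_add)
open Pool.Agent.Y495.CX.Few (PN euler prod_pos' le_of_mem_prod mert eL_tendsto log_small zz_ge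
  loglog_zz rpow_eq)
open Pool.Agent.Y362.CQ (card_sup moment)

/-- a family of sets of primes -/
noncomputable def FF (Q : ℕ → Prop) (T : Finset ℕ → Prop) (X : ℕ) : Finset (Finset ℕ) :=
  (range (X + 1)).powerset.filter fun S => (∀ p ∈ S, Q p) ∧ ∏ p ∈ S, p ≤ X ∧ T S

theorem mem_FF {Q : ℕ → Prop} {T : Finset ℕ → Prop} {X : ℕ} {S : Finset ℕ} :
    S ∈ FF Q T X ↔ S ⊆ range (X + 1) ∧ (∀ p ∈ S, Q p) ∧ ∏ p ∈ S, p ≤ X ∧ T S := by
  unfold FF
  rw [mem_filter, mem_powerset]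

theorem mem_FF' {Q : ℕ → Prop} {T : Finset ℕ → Prop} {X : ℕ} {S : Finset ℕ}
    (hQ : ∀ p, Q p → p.Prime) :
    S ∈ FF Q T X ↔ (∀ p ∈ S, Q p) ∧ ∏ p ∈ S, p ≤ X ∧ T S := by
  rw [mem_FF]
  refine ⟨fun h => h.2, fun h => ⟨fun p hp => ?_, h⟩⟩
  rw [mem_range]
  have := le_of_mem_prod (fun p hp => hQ p (h.1 p hp)) h.2.1 hp
  omega

/-- the sieve bound with weights -/
theorem FF_card : ∃ C : ℝ, 1 ≤ C ∧ ∀ (Q : ℕ → Prop) (T : Finset ℕ → Prop) (X : ℕ) (w : ℕ → ℝ)
    (M : ℝ), (∀ p, Q p → p.Prime) → (∀ S, T S → ∀ S', S' ⊆ S → T S') → 1 ≤ X →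
    (∀ p, 0 ≤ w p) → 0 ≤ M → (∀ S ∈ FF Q T X, 1 ≤ M * ∏ p ∈ S, w p) →
    ((FF Q T X).card : ℝ) * Real.log X ≤ C * X *
      (M * Real.exp (∑ p ∈ (range (X + 1)).filter (fun p => Q p), w p * (1 / (p : ℝ)))) := by
  obtain ⟨C, hC1, hC⟩ := Pool.Agent.Y488.CX.t_SIE
  refine ⟨C, hC1, ?_⟩
  intro Q T X w M hQ hT hX hw hM h1w
  refine (hC X (FF Q T X) hX (fun S hS => ?_) (fun S hS S' hS' => ?_)).trans ?_
  · rw [mem_FF] at hS
    exact ⟨fun p hp => hQ p (hS.2.1 p hp), hS.2.2.1⟩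
  · rw [mem_FF' hQ] at hS ⊢
    refine ⟨fun p hp => hS.1 p (hS' hp), ?_, hT S hS.2.2 S' hS'⟩
    refine le_trans ?_ hS.2.1
    exact prod_le_prod_of_subset_of_one_le' hS' fun p hp _ => (hQ p (hS.1 p hp)).one_lt.le
  · refine mul_le_mul_of_nonneg_left ?_ (mul_nonneg (by linarith) (Nat.cast_nonneg _))
    have h1 : ∀ S ∈ FF Q T X, (1 : ℝ) / ((∏ p ∈ S, p : ℕ) : ℝ) ≤
        M * ∏ p ∈ S, (w p * (1 / (p : ℝ))) := by
      intro S hS
      have h2 := h1w S hS
      have h3 : (0 : ℝ) ≤ ∏ p ∈ S, (1 : ℝ) / p := prod_nonneg fun p _ => by positivity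
      have h4 : (1 : ℝ) / ((∏ p ∈ S, p : ℕ) : ℝ) = ∏ p ∈ S, (1 : ℝ) / p := by
        rw [prod_div_distrib, prod_const_one]
        push_cast
        rfl
      rw [h4, prod_mul_distrib]
      calc ∏ p ∈ S, (1 : ℝ) / p = 1 * ∏ p ∈ S, (1 : ℝ) / p := (one_mul _).symm
        _ ≤ (M * ∏ p ∈ S, w p) * ∏ p ∈ S, (1 : ℝ) / p :=
            mul_le_mul_of_nonneg_right h2 h3
        _ = _ := by ring
    refine (sum_le_sum h1).trans ?_
    rw [← mul_sum]
    apply mul_le_mul_of_nonneg_left _ hM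
    have hnn : ∀ p : ℕ, 0 ≤ w p * (1 / (p : ℝ)) := fun p => mul_nonneg (hw p) (by positivity)
    have h5 : ∑ S ∈ FF Q T X, ∏ p ∈ S, (w p * (1 / (p : ℝ))) ≤
        ∑ S ∈ ((range (X + 1)).filter fun p => Q p).powerset,
          ∏ p ∈ S, (w p * (1 / (p : ℝ))) := by
      refine sum_le_sum_of_subset_of_nonneg ?_ fun S _ _ => prod_nonneg fun p _ => hnn p
      intro S hS
      rw [mem_FF] at hS
      rw [mem_powerset]
      intro p hp
      rw [mem_filter]
      exact ⟨hS.1 hp, hS.2.1 p hp⟩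
    exact h5.trans (euler _ _ fun p _ => hnn p)

/-- sets with many small primes -/
theorem sml_small (Φ : Fam) {δ : ℝ} (hδ : 0 < δ) {η : ℝ} (hη : 0 < η) : Sml (1 - δ) fun X =>
    (((SS Φ X).filter fun S => η * eL X < ((sm (zz X) S).card : ℝ)).card : ℝ) := by
  obtain ⟨C, hC0, hC⟩ := mert
  set κ : ℝ := Real.exp (1 / η) with hκ
  have κ0 : 0 < κ := Real.exp_pos _
  apply sml_of (C := Real.exp (κ * C)) (a := 1 - δ / 2) (by linarith)
  filter_upwards [eL_tendsto.eventually (log_small (3 * κ) (δ / 2) (by linarith)),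
    eL_tendsto.eventually (eventually_ge_atTop 2)] with X h1 h2
  have h3 := moment X (zz X) (SS Φ X)
    (fun S hS => by
      unfold SS at hS
      rw [mem_filter] at hS
      exact ⟨fun p hp => (hS.2.1 p hp).prime, hS.2.2⟩) κ κ0.le
  have h4 := hC (zz X) (zz_ge h2)
  have h5 := loglog_zz h2
  have h6 : (((SS Φ X).filter fun S => η * eL X < ((sm (zz X) S).card : ℝ)).card : ℝ) *
      Real.exp (eL X) ≤ ∑ S ∈ SS Φ X, κ ^ (sm (zz X) S).card := by
    rw [← nsmul_eq_mul, ← sum_const]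
    refine le_trans ?_ (sum_le_sum_of_subset_of_nonneg
      (filter_subset (fun S => η * eL X < ((sm (zz X) S).card : ℝ)) (SS Φ X))
      fun S _ _ => by positivity)
    refine sum_le_sum fun S hS => ?_
    rw [mem_filter] at hS
    rw [hκ, ← Real.exp_nat_mul]
    apply Real.exp_le_exp.2
    have h7 := hS.2.le
    rw [mul_one_div, le_div_iff₀ hη]
    linarith
  have h7 := h6.trans h3
  have h8 : κ * ∑ p ∈ PN (zz X), (1 : ℝ) / p ≤ κ * C + δ / 2 * eL X := by
    have : κ * ∑ p ∈ PN (zz X), (1 : ℝ) / p ≤ κ * (3 * Real.log (eL X) + C) :=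
      mul_le_mul_of_nonneg_left (by linarith) κ0.le
    nlinarith
  have h9 : (X : ℝ) * Real.exp (κ * ∑ p ∈ PN (zz X), (1 : ℝ) / p) ≤
      X * (Real.exp (κ * C) * Real.exp (δ / 2 * eL X)) := by
    rw [← Real.exp_add]
    exact mul_le_mul_of_nonneg_left (Real.exp_le_exp.2 h8) (Nat.cast_nonneg _)
  have h10 := h7.trans h9
  have h11 : (Real.exp (κ * C) * (X * Real.exp (-(1 - δ / 2) * eL X))) * Real.exp (eL X) =
      X * (Real.exp (κ * C) * Real.exp (δ / 2 * eL X)) := by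
    have : Real.exp (δ / 2 * eL X) = Real.exp (-(1 - δ / 2) * eL X) * Real.exp (eL X) := by
      rw [← Real.exp_add]
      congr 1
      ring
    rw [this]
    ring
  rw [← h11] at h10
  exact le_of_mul_le_mul_right h10 (Real.exp_pos _)

/-- sets with few large primes of the class -/
theorem sml_few0 {Φ : Fam} {δ : ℝ} (hΦ : Ok Φ δ) {w : ℕ → Prop} (hw : ∀ p, w p → Φ.P p)
    {θ C₀ : ℝ} (hθ : 0 < θ) (hm : ∀ y : ℕ, 3 ≤ y → θ * Real.log (Real.log y) - C₀ ≤
      ∑ p ∈ (range (y + 1)).filter (fun p => p.Prime ∧ w p), (1 : ℝ) / p) :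
    Sml (1 - δ) fun X => ((FF Φ.P (fun S =>
      ((la (zz X) S).filter fun p => w p).card ≤ ⌊θ / 4 * eL X⌋₊) X).card : ℝ) := by
  obtain ⟨C, hC0, hC⟩ := mert
  obtain ⟨C₁, hC₁⟩ := hΦ.up
  obtain ⟨C', hC'1, hC'⟩ := FF_card
  have hl4 : Real.log 4 / 4 < 7 / 20 := by
    have h1 : (4 : ℝ) = 2 ^ 2 := by norm_num
    rw [h1, Real.log_pow]
    have := Real.log_two_lt_d9
    push_cast
    linarith
  apply sml_of (C := C' * Real.exp (C + C₁ + 3 / 4 * C₀)) (a := 1 - δ + 3 / 10 * θ) (by linarith)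
  filter_upwards [eL_tendsto.eventually (log_small 3 (θ / 10) (by linarith)),
    eL_tendsto.eventually (eventually_ge_atTop 2), eventually_ge_atTop 3] with X h1 h2 h3
  set l := eL X with hl
  set z := zz X with hz
  have h4 := hC z (zz_ge h2)
  have h5 := loglog_zz h2
  have h6 := hC₁ X h3
  have h6' := hm X h3
  rw [← hl, ← hz] at h5
  change _ ≤ δ * l + C₁ at h6
  change θ * l - C₀ ≤ _ at h6'
  have h7 := hC' Φ.P (fun S => ((la z S).filter fun p => w p).card ≤ ⌊θ / 4 * l⌋₊) X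
    (fun p => if ¬ p ≤ z ∧ w p then (1 / 4 : ℝ) else 1) (Real.exp (Real.log 4 * (θ / 4) * l))
    (fun p hp => hp.prime) (fun S h S' hS' => (card_le_card (filter_subset_filter _ (by
      unfold la
      exact filter_subset_filter _ hS'))).trans h) (by omega)
    (fun p => by split_ifs <;> norm_num) (Real.exp_pos _).le (by
      intro S hS
      rw [mem_FF] at hS
      rw [← prod_filter, prod_const]
      have g1 : (S.filter fun p => ¬ p ≤ z ∧ w p).card ≤ ⌊θ / 4 * l⌋₊ := by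
        refine (card_le_card ?_).trans hS.2.2.2
        intro p hp
        rw [mem_filter] at hp
        unfold la
        rw [mem_filter, mem_filter]
        exact ⟨⟨hp.1, hp.2.1⟩, hp.2.2⟩
      have g2 : (1 / 4 : ℝ) ^ ⌊θ / 4 * l⌋₊ ≤ (1 / 4 : ℝ) ^ (S.filter fun p => ¬ p ≤ z ∧ w p).card :=
        pow_le_pow_of_le_one (by norm_num) (by norm_num) g1
      have g3 : Real.exp (-(Real.log 4 * (θ / 4) * l)) ≤ (1 / 4 : ℝ) ^ ⌊θ / 4 * l⌋₊ := by
        have e1 : (1 / 4 : ℝ) = Real.exp (-Real.log 4) := by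
          rw [Real.exp_neg, Real.exp_log (by norm_num)]
          norm_num
        rw [e1, ← Real.exp_nat_mul]
        apply Real.exp_le_exp.2
        have e2 : ((⌊θ / 4 * l⌋₊ : ℕ) : ℝ) ≤ θ / 4 * l := Nat.floor_le (by positivity)
        have e4 : 0 ≤ Real.log 4 := Real.log_nonneg (by norm_num)
        have e5 := mul_le_mul_of_nonneg_right e2 e4
        linarith
      calc (1 : ℝ) = Real.exp (Real.log 4 * (θ / 4) * l) *
            Real.exp (-(Real.log 4 * (θ / 4) * l)) := by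
            rw [← Real.exp_add, add_neg_cancel, Real.exp_zero]
        _ ≤ _ := mul_le_mul_of_nonneg_left (g3.trans g2) (Real.exp_pos _).le)
  have hlX : Real.log X = Real.exp l := by
    have := rpow_eq (X := X) h2 1
    rwa [Real.rpow_one, one_mul] at this
  rw [hlX] at h7
  -- the sum
  have h8 : ∑ p ∈ (range (X + 1)).filter (fun p => Φ.P p),
      (if ¬ p ≤ z ∧ w p then (1 / 4 : ℝ) else 1) * (1 / (p : ℝ)) ≤
      ∑ p ∈ PN z, (1 : ℝ) / p + ∑ p ∈ (range (X + 1)).filter (fun p => Φ.P p), (1 : ℝ) / p -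
        3 / 4 * ∑ p ∈ (range (X + 1)).filter (fun p => p.Prime ∧ w p), (1 : ℝ) / p := by
    have g1 : ∀ p ∈ (range (X + 1)).filter (fun p => Φ.P p),
        (if ¬ p ≤ z ∧ w p then (1 / 4 : ℝ) else 1) * (1 / (p : ℝ)) ≤
        (if p ≤ z then (1 : ℝ) / p else 0) + (1 : ℝ) / p -
          3 / 4 * (if w p then (1 : ℝ) / p else 0) := by
      intro p _
      have hp0 : (0 : ℝ) ≤ 1 / p := by positivity
      by_cases hz : p ≤ z
      · rw [if_neg (fun h => h.1 hz), if_pos hz]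
        split_ifs
        · linarith
        · linarith
      · rw [if_neg hz]
        by_cases hb : w p
        · rw [if_pos ⟨hz, hb⟩, if_pos hb]
          linarith
        · rw [if_neg (fun h => hb h.2), if_neg hb]
          linarith
    refine (sum_le_sum g1).trans ?_
    rw [sum_sub_distrib, sum_add_distrib, ← mul_sum, ← sum_filter, ← sum_filter]
    have g2 : ((range (X + 1)).filter fun p => Φ.P p).filter (fun p => w p) =
        (range (X + 1)).filter (fun p => p.Prime ∧ w p) := by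
      ext p
      simp only [mem_filter]
      constructor
      · rintro ⟨⟨a, b⟩, c⟩
        exact ⟨a, b.prime, c⟩
      · rintro ⟨a, b, c⟩
        exact ⟨⟨a, hw p c⟩, c⟩
    rw [g2]
    have g3 : ∑ p ∈ ((range (X + 1)).filter fun p => Φ.P p).filter (fun p => p ≤ z), (1 : ℝ) / p ≤
        ∑ p ∈ PN z, (1 : ℝ) / p := by
      refine sum_le_sum_of_subset_of_nonneg ?_ fun p _ _ => by positivity
      intro p hp
      rw [mem_filter, mem_filter] at hp
      rw [PN, mem_filter, mem_Icc]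
      exact ⟨⟨hp.1.2.prime.one_lt.le, hp.2⟩, hp.1.2.prime⟩
    linarith
  have h12 : Real.exp (Real.log 4 * (θ / 4) * l) * Real.exp
      (∑ p ∈ (range (X + 1)).filter (fun p => Φ.P p),
      (if ¬ p ≤ z ∧ w p then (1 / 4 : ℝ) else 1) * (1 / (p : ℝ))) ≤
      Real.exp (C + C₁ + 3 / 4 * C₀) * Real.exp ((δ - 3 / 10 * θ) * l) := by
    rw [← Real.exp_add, ← Real.exp_add]
    apply Real.exp_le_exp.2
    have e1 : ∑ p ∈ PN z, (1 : ℝ) / p ≤ 3 * Real.log l + C := by linarith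
    have e2 : Real.log 4 * (θ / 4) * l ≤ 7 / 20 * θ * l := by
      have hθl : 0 ≤ θ * l := mul_nonneg hθ.le (by linarith)
      have := mul_le_mul_of_nonneg_right hl4.le hθl
      linarith
    linarith
  have h13 := h7.trans (mul_le_mul_of_nonneg_left h12 (by positivity))
  have h14 : (C' * Real.exp (C + C₁ + 3 / 4 * C₀) *
      (X * Real.exp (-(1 - δ + 3 / 10 * θ) * l))) * Real.exp l =
      C' * X * (Real.exp (C + C₁ + 3 / 4 * C₀) * Real.exp ((δ - 3 / 10 * θ) * l)) := by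
    have : Real.exp ((δ - 3 / 10 * θ) * l) =
        Real.exp (-(1 - δ + 3 / 10 * θ) * l) * Real.exp l := by
      rw [← Real.exp_add]
      congr 1
      ring
    rw [this]
    ring
  rw [← h14] at h13
  exact le_of_mul_le_mul_right h13 (Real.exp_pos _)

/-- **few sets have few large primes of a class with many primes** -/
theorem sml_few {Φ : Fam} {δ : ℝ} (hΦ : Ok Φ δ) {w : ℕ → Prop} (hw : ∀ p, w p → Φ.P p)
    (hm : HM w) (R : ℕ) : Sml (1 - δ) fun X => (((SS Φ X).filter fun S =>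
      ((la (zz X) S).filter fun p => w p).card < 2 * (sm (zz X) S).card + R).card : ℝ) := by
  obtain ⟨θ, C₀, hθ, hm⟩ := hm
  have h1 := sml_add (sml_small Φ hΦ.pos (η := θ / 12) (by linarith)) (sml_few0 hΦ hw hθ hm)
  intro ε hε
  filter_upwards [h1 ε hε, eL_tendsto.eventually (eventually_ge_atTop (max 2 (12 * R / θ)))]
    with X hX h8
  have h9 : 2 ≤ eL X := (le_max_left _ _).trans h8
  have h10 : 12 * R / θ ≤ eL X := (le_max_right _ _).trans h8
  rw [div_le_iff₀ hθ] at h10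
  refine le_trans ?_ hX
  have h11 : ((SS Φ X).filter fun S => ((la (zz X) S).filter fun p => w p).card <
      2 * (sm (zz X) S).card + R) ⊆
      ((SS Φ X).filter fun S => θ / 12 * eL X < ((sm (zz X) S).card : ℝ)) ∪
        FF Φ.P (fun S => ((la (zz X) S).filter fun p => w p).card ≤ ⌊θ / 4 * eL X⌋₊) X := by
    intro S hS
    rw [mem_filter] at hS
    rw [mem_union, mem_filter]
    by_cases hc : θ / 12 * eL X < ((sm (zz X) S).card : ℝ)
    · exact Or.inl ⟨hS.1, hc⟩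
    · right
      rw [not_lt] at hc
      have h2 := hS.1
      unfold SS at h2
      rw [mem_filter, mem_powerset] at h2
      rw [mem_FF]
      refine ⟨h2.1, h2.2.1, h2.2.2, ?_⟩
      apply Nat.le_floor
      have h12 : ((((la (zz X) S).filter fun p => w p).card : ℕ) : ℝ) ≤
          2 * ((sm (zz X) S).card : ℝ) + R := by
        exact_mod_cast hS.2.le
      linarith
  exact_mod_cast (card_le_card h11).trans (card_union_le _ _)

end Q283.GM
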