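import Pool.Agent.Y475.CQ.HAL
import Pool.Agent.Erdos456.Mertens
import Pool.Agent.Q283.GM.LOWR

/-!
# Upper bounds for L-functions and the primes modulo `m` on which a product is a square
-/

set_option autoImplicit false

open scoped Classical

namespace Q283.GM

open Finset Filter
open Pool.Agent.Y475.CQ (tsum_le zeta_le pow_small leg)
open Pool.Agent.Y703.CQ (nr)

/-- a periodic completely multiplicative function -/
structure CM (F : ℕ →* ℂ) (q : ℕ) : Prop where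
  q1 : 1 ≤ q
  bd : ∀ n, ‖F n‖ ≤ 1
  per : ∀ n, F (q + n) = F n

theorem CM.mod {F : ℕ →* ℂ} {q : ℕ} (h : CM F q) (n : ℕ) : F (n % q) = F n := by
  induction n using Nat.strong_induction_on with
  | _ n ih =>
    by_cases hn : n < q
    · rw [Nat.mod_eq_of_lt hn]
    · obtain ⟨m, rfl⟩ := Nat.exists_eq_add_of_le (not_lt.1 hn)
      have := h.q1
      rw [Nat.add_mod_left, h.per, ih m (by omega)]

theorem CM.sum_zero {F : ℕ →* ℂ} {q : ℕ} (h : CM F q) {k : ℕ} (hk : Nat.Coprime k q)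
    (h1 : F k ≠ 1) : ∑ i ∈ range q, F i = 0 := by
  have hinj : Set.InjOn (fun n => k * n % q) (range q : Finset ℕ) := by
    intro a ha b hb hab
    rw [coe_range, Set.mem_Iio] at ha hb
    have h1 : k * a ≡ k * b [MOD q] := hab
    have h2 : a ≡ b [MOD q] := Nat.ModEq.cancel_left_of_coprime
      (by rw [Nat.gcd_comm]; exact hk) h1
    exact Nat.ModEq.eq_of_lt_of_lt h2 ha hb
  have hmap : Set.MapsTo (fun n => k * n % q) (range q : Finset ℕ) (range q : Finset ℕ) := by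
    intro a _
    rw [coe_range, Set.mem_Iio]
    exact Nat.mod_lt _ h.q1
  have e : ∑ i ∈ range q, F k * F i = ∑ i ∈ range q, F i := by
    refine sum_nbij (fun n => k * n % q) (fun a ha => ?_) hinj
      (surjOn_of_injOn_of_card_le _ hmap hinj le_rfl) (fun a _ => ?_)
    · exact_mod_cast hmap (by exact_mod_cast ha)
    · rw [h.mod, map_mul]
  rw [← mul_sum] at e
  have h2 : (F k - 1) * ∑ i ∈ range q, F i = 0 := by rw [sub_mul, one_mul, e, sub_self]
  rcases mul_eq_zero.1 h2 with h3 | h3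
  · exact absurd (sub_eq_zero.1 h3) h1
  · exact h3

theorem CM.part {F : ℕ →* ℂ} {q : ℕ} (h : CM F q) (h0 : ∑ i ∈ range q, F i = 0) (n : ℕ) :
    ‖∑ i ∈ range n, F i‖ ≤ q := by
  induction n using Nat.strong_induction_on with
  | _ n ih =>
    by_cases hn : n < q
    · refine (norm_sum_le _ _).trans ((sum_le_sum fun i _ => h.bd i).trans ?_)
      rw [sum_const, card_range, nsmul_eq_mul, mul_one]
      exact_mod_cast hn.le
    · obtain ⟨m, rfl⟩ := Nat.exists_eq_add_of_le (not_lt.1 hn)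
      rw [sum_range_add, h0, zero_add, sum_congr rfl fun i _ => h.per i]
      have := h.q1
      exact ih m (by omega)

/-- the terms of the series -/
noncomputable def fF (F : ℕ →* ℂ) (σ : ℝ) (hσ : 1 < σ) : ℕ →*₀ ℂ where
  toFun n := F n * (((n : ℝ) ^ (-σ) : ℝ) : ℂ)
  map_zero' := by rw [Nat.cast_zero, Real.zero_rpow (by linarith), Complex.ofReal_zero, mul_zero]
  map_one' := by simp
  map_mul' m n := by
    rw [map_mul, Nat.cast_mul, Real.mul_rpow (Nat.cast_nonneg _) (Nat.cast_nonneg _)]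
    push_cast
    ring

theorem fF_apply (F : ℕ →* ℂ) {σ : ℝ} (hσ : 1 < σ) (n : ℕ) :
    fF F σ hσ n = F n * (((n : ℝ) ^ (-σ) : ℝ) : ℂ) := rfl

theorem fF_norm {F : ℕ →* ℂ} (hb : ∀ n, ‖F n‖ ≤ 1) {σ : ℝ} (hσ : 1 < σ) (n : ℕ) :
    ‖fF F σ hσ n‖ ≤ (n : ℝ) ^ (-σ) := by
  have h0 : (0 : ℝ) ≤ (n : ℝ) ^ (-σ) := Real.rpow_nonneg (Nat.cast_nonneg _) _
  rw [fF_apply, norm_mul, Complex.norm_real, Real.norm_of_nonneg h0]
  exact mul_le_of_le_one_left h0 (hb n)

theorem fF_summ {F : ℕ →* ℂ} (hb : ∀ n, ‖F n‖ ≤ 1) {σ : ℝ} (hσ : 1 < σ) :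
    Summable fun n => ‖fF F σ hσ n‖ :=
  Summable.of_nonneg_of_le (fun _ => norm_nonneg _) (fun n => fF_norm hb hσ n)
    (Real.summable_nat_rpow.2 (by linarith : -σ < -1))

/-- the bound for the nontrivial characters -/
theorem CM.L_le {F : ℕ →* ℂ} {q : ℕ} (h : CM F q) (h0 : ∑ i ∈ range q, F i = 0) {σ : ℝ}
    (hσ : 1 < σ) : ‖∑' n, fF F σ hσ n‖ ≤ 3 + Real.log q := by
  set L := ∑' n, fF F σ hσ n with hL
  by_cases hL0 : L = 0
  · rw [hL0, norm_zero]
    have := Real.log_natCast_nonneg q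
    linarith
  have hn : (0 : ℝ) < ‖L‖ := norm_pos_iff.2 hL0
  set c : ℂ := (starRingEnd ℂ) L / ‖L‖ with hc
  have hc1 : ‖c‖ = 1 := by
    rw [hc, norm_div, RCLike.norm_conj, Complex.norm_real, norm_norm, div_self hn.ne']
  have hcL : c * L = (‖L‖ : ℂ) := by
    rw [hc, div_mul_eq_mul_div, mul_comm, Complex.mul_conj, Complex.normSq_eq_norm_sq]
    have : (‖L‖ : ℂ) ≠ 0 := by exact_mod_cast hn.ne'
    field_simp
    push_cast
    ring
  have h1 := tsum_le (fun n => (c * F n).re) q h.q1 (fun n => by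
    refine (Complex.abs_re_le_norm _).trans ?_
    rw [norm_mul, hc1, one_mul]
    exact h.bd n) (fun n => by
    have e : ∑ i ∈ range n, (c * F i).re = (c * ∑ i ∈ range n, F i).re := by
      rw [mul_sum, Complex.re_sum]
    rw [e]
    refine (Complex.abs_re_le_norm _).trans ?_
    rw [norm_mul, hc1, one_mul]
    exact h.part h0 n) σ hσ
  refine le_trans (le_of_eq ?_) h1
  have h2 : ∀ n : ℕ, (c * F n).re * (n : ℝ) ^ (-σ) = (c * fF F σ hσ n).re := by
    intro n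
    rw [fF_apply, ← mul_assoc, Complex.re_mul_ofReal]
  have h3 : Summable fun n => c * fF F σ hσ n := (fF_summ h.bd hσ).of_norm.mul_left c
  rw [tsum_congr h2, ← Complex.re_tsum h3, tsum_mul_left, ← hL, hcL, Complex.ofReal_re]

/-- the bound for all characters -/
theorem L_le' {F : ℕ →* ℂ} (hb : ∀ n, ‖F n‖ ≤ 1) {σ : ℝ} (hσ : 1 < σ) :
    ‖∑' n, fF F σ hσ n‖ ≤ 1 + 1 / (σ - 1) := by
  refine (norm_tsum_le_tsum_norm (fF_summ hb hσ)).trans (le_trans ?_ (zeta_le σ hσ))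
  refine Summable.tsum_le_tsum (fun n => ?_) (fF_summ hb hσ) ?_
  · rw [one_mul]
    exact fF_norm hb hσ n
  · simp only [one_mul]
    exact Real.summable_nat_rpow.2 (by linarith : -σ < -1)

/-- the sum of the reciprocals of the squares -/
noncomputable def c₂ : ℝ := ∑' p : Nat.Primes, ((p : ℕ) : ℝ) ^ (-2 : ℝ)

theorem summ_two : Summable fun p : Nat.Primes => ((p : ℕ) : ℝ) ^ (-2 : ℝ) :=
  (Real.summable_nat_rpow.2 (by norm_num : (-2 : ℝ) < -1)).comp_injective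
    Nat.Primes.coe_nat_injective

theorem log_ge {z : ℂ} (hz : ‖z‖ ≤ 1 / 2) : z.re ≤ (-Complex.log (1 - z)).re + ‖z‖ ^ 2 := by
  have h1 := Complex.norm_log_one_add_sub_self_le (z := -z) (by rw [norm_neg]; linarith)
  rw [norm_neg] at h1
  have h2 : ‖z‖ ^ 2 * (1 - ‖z‖)⁻¹ / 2 ≤ ‖z‖ ^ 2 := by
    have h3 : (1 - ‖z‖)⁻¹ ≤ 2 := by
      rw [inv_le_comm₀ (by linarith) (by norm_num)]
      linarith
    nlinarith [sq_nonneg ‖z‖]
  have h3 := (abs_le.1 ((Complex.abs_re_le_norm (Complex.log (1 + -z) - -z)).trans (h1.trans h2))).2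
  rw [Complex.sub_re, Complex.neg_re, ← sub_eq_add_neg] at h3
  rw [Complex.neg_re]
  linarith

theorem summ_re {F : ℕ →* ℂ} (hb : ∀ n, ‖F n‖ ≤ 1) {σ : ℝ} (hσ : 1 < σ) :
    Summable fun p : Nat.Primes => (F p).re * ((p : ℕ) : ℝ) ^ (-σ) := by
  have h1 := ((fF_summ hb hσ).comp_injective Nat.Primes.coe_nat_injective).of_norm
  have h2 := (Complex.hasSum_re h1.hasSum).summable
  refine h2.congr fun p => ?_
  show (fF F σ hσ p).re = _
  rw [fF_apply, Complex.re_mul_ofReal]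

/-- the sum over the primes -/
theorem euler_le {F : ℕ →* ℂ} (hb : ∀ n, ‖F n‖ ≤ 1) {σ : ℝ} (hσ : 1 < σ) :
    0 < ‖∑' n, fF F σ hσ n‖ ∧
    ∑' p : Nat.Primes, (F p).re * ((p : ℕ) : ℝ) ^ (-σ) ≤
      Real.log ‖∑' n, fF F σ hσ n‖ + c₂ := by
  have h1 := EulerProduct.exp_tsum_primes_log_eq_tsum (fF_summ hb hσ)
  have h2 : Summable fun p : Nat.Primes => -Complex.log (1 - fF F σ hσ p) :=
    (((fF_summ hb hσ).comp_injective Nat.Primes.coe_nat_injective).of_norm.clog_one_sub).neg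
  rw [← h1, Complex.norm_exp]
  refine ⟨Real.exp_pos _, ?_⟩
  rw [Real.log_exp, Complex.re_tsum h2]
  have h3 : Summable fun p : Nat.Primes => (-Complex.log (1 - fF F σ hσ p)).re :=
    (Complex.hasSum_re h2.hasSum).summable
  unfold c₂
  rw [← h3.tsum_add summ_two]
  refine Summable.tsum_le_tsum (fun p => ?_) (summ_re hb hσ) (h3.add summ_two)
  have hp2 : (2 : ℝ) ≤ ((p : ℕ) : ℝ) := by exact_mod_cast p.2.two_le
  have h4 := fF_norm hb hσ (p : ℕ)
  have h5 : ((p : ℕ) : ℝ) ^ (-σ) ≤ ((p : ℕ) : ℝ) ^ (-1 : ℝ) :=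
    Real.rpow_le_rpow_of_exponent_le (by linarith) (by linarith)
  have h6 : ((p : ℕ) : ℝ) ^ (-1 : ℝ) ≤ 1 / 2 := by
    rw [Real.rpow_neg_one, inv_le_comm₀ (by linarith) (by norm_num)]
    linarith
  have h7 := log_ge ((h4.trans h5).trans h6)
  have h8 : (fF F σ hσ p).re = (F p).re * ((p : ℕ) : ℝ) ^ (-σ) := by
    rw [fF_apply, Complex.re_mul_ofReal]
  rw [h8] at h7
  refine h7.trans (add_le_add le_rfl ?_)
  have h9 : ‖fF F σ hσ p‖ ^ 2 ≤ (((p : ℕ) : ℝ) ^ (-1 : ℝ)) ^ 2 :=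
    pow_le_pow_left₀ (norm_nonneg _) (h4.trans h5) 2
  refine h9.trans (le_of_eq ?_)
  rw [← Real.rpow_natCast, ← Real.rpow_mul (by linarith)]
  norm_num

end Q283.GM
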