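import Pool.Agent.Y814.BSD14.Sel1
import Pool.Agent.Y700.Defs

set_option autoImplicit false

/-!
# Local conditions at two for the twists of `X_0(49)`
-/

namespace Q283.GS

open Pool.Agent.Y700 (PC)
open Pool.Agent.Y814.BSD14

section

variable {l : ℕ} [hl : Fact l.Prime]

/-- integrality -/
theorem int_of {z : ℤ} (hz : Squarefree z) {n : ℚ_[l]} (h : ‖(z : ℚ_[l]) * n ^ 2‖ ≤ 1) :
    ‖n‖ ≤ 1 := by
  by_contra hn
  have h1 : (l : ℝ) ≤ ‖n‖ := by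
    by_contra h2
    push Not at h2
    have := (Padic.norm_le_pow_iff_norm_lt_pow_add_one n 0).2 (by simpa using h2)
    simp at this
    exact hn this
  have hl1 : (1 : ℝ) < l := by exact_mod_cast hl.out.one_lt
  have h2 : (l : ℝ) ^ (-2 : ℤ) < ‖(z : ℚ_[l])‖ := by
    by_contra h3
    push Not at h3
    have h4 := (Padic.norm_int_le_pow_iff_dvd z 2).1 (by exact_mod_cast h3)
    have h5 : (l : ℤ) * l ∣ z := by
      have : ((l : ℤ) ^ 2) ∣ z := by exact_mod_cast h4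
      rwa [sq] at this
    have h6 := hz _ h5
    rw [Int.isUnit_iff] at h6
    have := hl.out.one_lt
    omega
  rw [norm_mul, norm_pow] at h
  have h3 : (l : ℝ) ^ 2 ≤ ‖n‖ ^ 2 := by gcongr
  have h4 : (l : ℝ) ^ (-2 : ℤ) * l ^ 2 = 1 := by
    rw [zpow_neg]
    have : (l : ℝ) ≠ 0 := by positivity
    have h5 : (l : ℝ) ^ (2 : ℤ) = (l : ℝ) ^ 2 := by norm_cast
    rw [h5]
    exact inv_mul_cancel₀ (pow_ne_zero 2 this)
  have h5 : (l : ℝ) ^ (-2 : ℤ) * l ^ 2 < ‖(z : ℚ_[l])‖ * ‖n‖ ^ 2 := by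
    have hp : 0 < (l : ℝ) ^ 2 := by positivity
    calc (l : ℝ) ^ (-2 : ℤ) * l ^ 2 < ‖(z : ℚ_[l])‖ * l ^ 2 := by
          exact mul_lt_mul_of_pos_right h2 hp
      _ ≤ _ := by
          exact mul_le_mul_of_nonneg_left h3 (norm_nonneg _)
  linarith

theorem ex_int {x : ℚ_[l]} (h : ‖x‖ ≤ 1) : ∃ r : ℤ_[l], (r : ℚ_[l]) = x := ⟨⟨x, h⟩, rfl⟩

/-- a primitive solution -/
theorem prim {a b z : ℤ} (hz : Squarefree z) (h : PC a b l z) :
    ∃ u e n : ℤ_[l], (u = 1 ∨ e = 1) ∧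
      (z : ℤ_[l]) * n ^ 2 = z ^ 2 * u ^ 4 + a * z * u ^ 2 * e ^ 2 + b * e ^ 4 := by
  obtain ⟨x, y, hy, h1, t, ht⟩ := h
  have hx : x ≠ 0 := by
    rintro rfl
    apply hy
    simpa using h1
  have hz0 : (z : ℚ_[l]) ≠ 0 := by exact_mod_cast hz.ne_zero
  obtain ⟨s, hs⟩ : ∃ s : ℚ_[l], t = s * z := ⟨t / z, by field_simp⟩
  have hxs : x = z * s ^ 2 := by
    apply mul_right_cancel₀ hz0
    rw [ht, hs]
    ring
  subst hxs
  have hs0 : s ≠ 0 := by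
    rintro rfl
    apply hx
    ring
  obtain ⟨N, hN⟩ : ∃ N : ℚ_[l], y = s * z * N := ⟨y / (s * z), by field_simp⟩
  subst hN
  have h2 : z * N ^ 2 = z ^ 2 * s ^ 4 + a * z * s ^ 2 + b := by
    have h3 : (z : ℚ_[l]) * s ^ 2 ≠ 0 := mul_ne_zero hz0 (pow_ne_zero 2 hs0)
    apply mul_left_cancel₀ h3
    linear_combination h1
  rcases le_or_gt ‖s‖ 1 with h3 | h3
  · obtain ⟨u, hu⟩ := ex_int h3
    have hr : ((z ^ 2 * u ^ 4 + a * z * u ^ 2 + b : ℤ_[l]) : ℚ_[l]) = z * N ^ 2 := by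
      rw [h2]
      push_cast
      rw [hu]
    have hN1 : ‖N‖ ≤ 1 := int_of hz (by rw [← hr]; exact (z ^ 2 * u ^ 4 + a * z * u ^ 2 + b : ℤ_[l]).2)
    obtain ⟨n, hn⟩ := ex_int hN1
    refine ⟨u, 1, n, Or.inr rfl, ?_⟩
    apply PadicInt.ext
    push_cast
    rw [hu, hn]
    linear_combination h2
  · have hes : ‖s⁻¹‖ ≤ 1 := by
      rw [norm_inv]; exact inv_le_one_of_one_le₀ h3.le
    have hse : s * s⁻¹ = 1 := mul_inv_cancel₀ hs0
    obtain ⟨e, he⟩ := ex_int hes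
    have h4 : z * (N * s⁻¹ ^ 2) ^ 2 = z ^ 2 + a * z * s⁻¹ ^ 2 + b * s⁻¹ ^ 4 := by
      have h5 : s ^ 2 * s⁻¹ ^ 2 = 1 := by rw [← mul_pow, hse, one_pow]
      linear_combination s⁻¹ ^ 4 * h2 + (z ^ 2 * (s ^ 2 * s⁻¹ ^ 2 + 1) + a * z * s⁻¹ ^ 2) * h5
    have hr : ((z ^ 2 + a * z * e ^ 2 + b * e ^ 4 : ℤ_[l]) : ℚ_[l]) = z * (N * s⁻¹ ^ 2) ^ 2 := by
      rw [h4]
      push_cast
      rw [he]
    have hN1 : ‖N * s⁻¹ ^ 2‖ ≤ 1 :=
      int_of hz (by rw [← hr]; exact (z ^ 2 + a * z * e ^ 2 + b * e ^ 4 : ℤ_[l]).2)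
    obtain ⟨n, hn⟩ := ex_int hN1
    refine ⟨1, e, n, Or.inl rfl, ?_⟩
    apply PadicInt.ext
    push_cast
    rw [he, hn]
    linear_combination h4

end

/-- the squares modulo `32` -/
def L32 : List ℕ := [0, 1, 4, 9, 16, 17, 25]

theorem sq32 (x : ZMod 32) : ∃ ν ∈ L32, x ^ 2 = (ν : ZMod 32) := by
  revert x
  decide

/-- reduction modulo `32` -/
theorem red32 {a b z : ℤ} (hz : Squarefree z) (h : PC a b 2 z) : ∃ ν ∈ L32, ∃ U ∈ L32,
    ((z : ZMod 32) * (ν : ZMod 32) = z ^ 2 * (U : ZMod 32) ^ 2 + a * z * U + b) ∨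
    ((z : ZMod 32) * (ν : ZMod 32) = z ^ 2 + a * z * U + b * (U : ZMod 32) ^ 2) := by
  obtain ⟨u, e, n, hue, hn⟩ := prim hz h
  have h1 := congrArg (PadicInt.toZModPow (p := 2) 5) hn
  simp only [map_mul, map_add, map_pow, map_intCast] at h1
  set φ := PadicInt.toZModPow (p := 2) 5 with hφ
  have h2 : ((z : ZMod 32) * (φ n : ZMod 32) ^ 2 = z ^ 2 * (φ u : ZMod 32) ^ 4 +
      a * z * (φ u : ZMod 32) ^ 2 * (φ e : ZMod 32) ^ 2 + b * (φ e : ZMod 32) ^ 4) := h1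
  obtain ⟨ν, hν, h3⟩ := sq32 (φ n : ZMod 32)
  refine ⟨ν, hν, ?_⟩
  rw [h3] at h2
  rcases hue with rfl | rfl
  · obtain ⟨U, hU, h4⟩ := sq32 (φ e : ZMod 32)
    refine ⟨U, hU, Or.inr ?_⟩
    have h5 : (φ 1 : ZMod 32) = 1 := map_one φ
    rw [h5] at h2
    rw [h2, ← h4]
    ring
  · obtain ⟨U, hU, h4⟩ := sq32 (φ u : ZMod 32)
    refine ⟨U, hU, Or.inl ?_⟩
    have h5 : (φ 1 : ZMod 32) = 1 := map_one φ
    rw [h5] at h2
    rw [h2, ← h4]
    ring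

theorem rep (D : ℤ) : ∃ d : ℕ, d < 32 ∧ (D : ZMod 32) = (d : ZMod 32) ∧ (d : ℤ) % 4 = D % 4 := by
  refine ⟨(D % 32).toNat, by omega, ?_, by omega⟩
  have h : ((D % 32).toNat : ℤ) = D % 32 := by omega
  have h2 : ((D % 32 : ℤ) : ZMod 32) = (D : ZMod 32) := by
    rw [ZMod.intCast_eq_intCast_iff]
    exact Int.mod_modEq D 32
  rw [← h2, ← h]
  push_cast
  rfl

/-- the finite check for the dual curve -/
theorem chkB : ∀ d ∈ List.range 32, d % 4 = 1 → ∀ w ∈ List.range 32, w % 4 ≠ 0 → ∀ ν ∈ L32,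
    ∀ U ∈ L32, ((w * ν + 42 * d * w * U + 7 * d ^ 2) % 32 = (w ^ 2 * U ^ 2) % 32 ∨
      (w * ν + 42 * d * w * U + 7 * d ^ 2 * U ^ 2) % 32 = (w ^ 2) % 32) → w % 4 = 1 := by
  decide +kernel

/-- the finite check for the curve -/
theorem chkA : ∀ d ∈ List.range 32, d % 4 = 1 → ∀ w ∈ List.range 32, w % 4 ≠ 0 → ∀ ν ∈ L32,
    ∀ U ∈ L32, ((w * ν) % 32 = (w ^ 2 * U ^ 2 + 21 * d * w * U + 112 * d ^ 2) % 32 ∨
      (w * ν) % 32 = (w ^ 2 + 21 * d * w * U + 112 * d ^ 2 * U ^ 2) % 32) → w % 2 = 1 := by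
  decide +kernel

theorem sqf4 {z : ℤ} (hz : Squarefree z) : z % 4 ≠ 0 := by
  intro h
  have h1 : (2 : ℤ) * 2 ∣ z := by omega
  have h2 := hz 2 h1
  rw [Int.isUnit_iff] at h2
  omega

/-- **the dual curve at two** -/
theorem twoB {D z : ℤ} (hD : D % 4 = 1) (hz : Squarefree z) (h : PC (-42 * D) (-7 * D ^ 2) 2 z) :
    z % 4 = 1 := by
  obtain ⟨ν, hν, U, hU, h1⟩ := red32 hz h
  obtain ⟨d, hd, hd1, hd2⟩ := rep D
  obtain ⟨w, hw, hw1, hw2⟩ := rep z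
  have hz4 := sqf4 hz
  have h2 := chkB d (List.mem_range.2 hd) (by omega) w (List.mem_range.2 hw) (by omega) ν hν U hU ?_
  · omega
  · rcases h1 with h1 | h1
    · left
      rw [← ZMod.natCast_eq_natCast_iff']
      push_cast at h1 ⊢
      rw [hd1, hw1] at h1
      linear_combination h1
    · right
      rw [← ZMod.natCast_eq_natCast_iff']
      push_cast at h1 ⊢
      rw [hd1, hw1] at h1
      linear_combination h1

/-- **the curve at two** -/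
theorem twoA {D z : ℤ} (hD : D % 4 = 1) (hz : Squarefree z) (h : PC (21 * D) (112 * D ^ 2) 2 z) :
    z % 2 = 1 := by
  obtain ⟨ν, hν, U, hU, h1⟩ := red32 hz h
  obtain ⟨d, hd, hd1, hd2⟩ := rep D
  obtain ⟨w, hw, hw1, hw2⟩ := rep z
  have hz4 := sqf4 hz
  have h2 := chkA d (List.mem_range.2 hd) (by omega) w (List.mem_range.2 hw) (by omega) ν hν U hU ?_
  · omega
  · rcases h1 with h1 | h1
    · left
      rw [← ZMod.natCast_eq_natCast_iff']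
      push_cast at h1 ⊢
      rw [hd1, hw1] at h1
      linear_combination h1
    · right
      rw [← ZMod.natCast_eq_natCast_iff']
      push_cast at h1 ⊢
      rw [hd1, hw1] at h1
      linear_combination h1

end Q283.GS
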