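import Pool.Agent.Y668.Desc

set_option autoImplicit false

/-!
# Descent by a 2-isogeny: the bound for the rank, modulo the classes of the points of order two
-/

namespace Q283.GS

open WeierstrassCurve Pool.Agent.Y668 Pool.Agent.H918R3 Pool.Agent.H918R3.TB1

section

variable {L : Type} [Field L] [DecidableEq L] [CharZero L] [Algebra ℚ L]

/-- the counting argument -/
theorem desc_aux2 [NumberField L] {a b : ℚ} (hb : b ≠ 0) (hd : a ^ 2 - 4 * b ≠ 0) {e1 e2 : L}
    (hs : e1 + e2 = -algebraMap ℚ L a) (hp : e1 * e2 = algebraMap ℚ L b) (hne : e1 ≠ e2)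
    (hsq : ∀ c : ℚ, c ≠ 0 → IsSquare (algebraMap ℚ L c) →
      IsSquare c ∨ IsSquare (c * (a ^ 2 - 4 * b)))
    (Z1 Z2 : Finset ℤ) (h1 : ∀ P : (Wt a b).toAffine.Point, ∃ z ∈ Z1,
      IsSquare (al a b P * z) ∨ IsSquare (al a b P * (b * z)))
    (h2 : ∀ X : ℚ, X ≠ 0 → (X = 1 ∨
      ∃ Y : ℚ, Y ^ 2 = X ^ 3 + (-2 * a) * X ^ 2 + (a ^ 2 - 4 * b) * X) →
      ∃ z ∈ Z2, IsSquare (X * z) ∨ IsSquare (X * ((a ^ 2 - 4 * b) * z)))
    (hz1 : ∀ z ∈ Z1, z ≠ 0) (hz2 : ∀ z ∈ Z2, z ≠ 0) :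
    2 ^ Module.finrank ℤ (Wt a b).toAffine.Point ≤ Z1.card * Z2.card := by
  classical
  have h20 : (2 : L) ≠ 0 := two_ne_zero
  -- finite generation
  have he0 : e1 * e2 ≠ 0 := by
    rw [hp]
    exact (map_ne_zero _).2 hb
  have he1 : e1 ≠ 0 := left_ne_zero_of_mul he0
  have he2 : e2 ≠ 0 := right_ne_zero_of_mul he0
  have hfg : AddGroup.FG (Wt a b).toAffine.Point := by
    have hK : AddGroup.FG (Pool.Agent.H437R2.Man.MW.crv (-e1) 0 (-e2)).toAffine.Point :=
      Pool.Agent.H437R2.Man.MW.pt_fg (neg_ne_zero.2 he1) (fun h => hne (neg_injective h))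
        (neg_ne_zero.2 he2).symm
    have heq : Pool.Agent.H437R2.Man.MW.crv (-e1) 0 (-e2) = (Wt a b).baseChange L := by
      rw [← crv_eq hs hp]
      simp only [Pool.Agent.H437R2.Man.MW.crv, crv]
      congr 1 <;> ring
    rw [heq] at hK
    exact Pool.Agent.H64R2.DCMW.fg_of_inj _ (emb_inj (L := L) a b) hK
  -- the point of order two
  have hns : (Wt a b).toAffine.Nonsingular 0 0 :=
    Wt_nonsing (two_ne_zero : (2 : ℚ) ≠ 0) hb hd (by ring)
  set T0 : (Wt a b).toAffine.Point := Affine.Point.some 0 0 hns with hT0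
  have hTT : T0 + T0 = 0 := by
    refine Affine.Point.add_self_of_Y_eq ?_
    rw [Affine.negY]
    show (0 : ℚ) = -0 - 0 * 0 - 0
    ring
  have halT : al a b T0 = b := by
    rw [hT0, al_some, if_pos rfl]
  let N : Submodule ℤ (Wt a b).toAffine.Point := Submodule.span ℤ {T0}
  have hNt : N ≤ Submodule.torsion ℤ (Wt a b).toAffine.Point := by
    rw [Submodule.span_le, Set.singleton_subset_iff]
    refine (Submodule.mem_torsion_iff _).2 ⟨⟨2, mem_nonZeroDivisors_of_ne_zero two_ne_zero⟩, ?_⟩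
    show (2 : ℤ) • T0 = 0
    exact (two_zsmul T0).trans hTT
  have hfin : Module.Finite ℤ (Wt a b).toAffine.Point := Module.Finite.iff_addGroup_fg.mpr hfg
  have hrk : Module.finrank ℤ ((Wt a b).toAffine.Point ⧸ N) =
      Module.finrank ℤ (Wt a b).toAffine.Point := finrank_quotient_eq_of_le_torsion hNt
  have hfg' : AddGroup.FG ((Wt a b).toAffine.Point ⧸ N) := Module.Finite.iff_addGroup_fg.mp
    inferInstance
  -- representatives
  obtain ⟨t1, ht1⟩ : ∃ t1 : ℤ → (Wt a b).toAffine.Point, ∀ z : ℤ,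
      (∃ P, IsSquare (al a b P * z)) → IsSquare (al a b (t1 z) * z) :=
    ⟨fun z => if h : ∃ P, IsSquare (al a b P * z) then h.choose else 0, fun z h => by
      simp only [dif_pos h]
      exact h.choose_spec⟩
  have hLd : IsSquare (algebraMap ℚ L (a ^ 2 - 4 * b)) := by
    refine ⟨e1 - e2, ?_⟩
    rw [map_sub, map_mul, map_pow, map_ofNat]
    linear_combination (algebraMap ℚ L a - (e1 + e2)) * hs + 4 * hp
  obtain ⟨t2, ht2⟩ : ∃ t2 : ℤ → (Wt a b).toAffine.Point, ∀ z : ℤ,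
      (∃ P X, NX a b P X ∧ IsSquare (algebraMap ℚ L (X * z))) →
        ∃ X, NX a b (t2 z) X ∧ IsSquare (algebraMap ℚ L (X * z)) :=
    ⟨fun z => if h : ∃ P X, NX a b P X ∧ IsSquare (algebraMap ℚ L (X * z)) then h.choose else 0,
      fun z h => by
      simp only [dif_pos h]
      exact h.choose_spec⟩
  set T : Finset ((Wt a b).toAffine.Point ⧸ N) :=
    (Z1 ×ˢ Z2).image (fun z => N.mkQ (t1 z.1 + t2 z.2)) with hT
  have hcard : T.card ≤ Z1.card * Z2.card := by
    rw [← Finset.card_product]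
    exact Finset.card_image_le
  -- the covering
  have hcov : ∀ g : (Wt a b).toAffine.Point, ∀ z1 ∈ Z1, IsSquare (al a b g * z1) →
      ∃ t ∈ T, ∃ q : (Wt a b).toAffine.Point ⧸ N, N.mkQ g = t + (q + q) := by
    intro g z1 hz1m hz1s
    have hz10 : (z1 : ℚ) ≠ 0 := by exact_mod_cast hz1 z1 hz1m
    have ht := ht1 z1 ⟨g, hz1s⟩
    have hN : IsSquare (al a b (g - t1 z1)) := by
      have h3 := al_add (two_ne_zero : (2 : ℚ) ≠ 0) g (-(t1 z1))
      rw [← sub_eq_add_neg, al_neg] at h3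
      have h4 := (h3.mul hz1s).mul ht
      have hg0 := al_ne hb g
      have ht0 := al_ne hb (t1 z1)
      have h5 : al a b (g - t1 z1) * (al a b g * al a b (t1 z1)) * (al a b g * z1) *
          (al a b (t1 z1) * z1) = al a b (g - t1 z1) * (al a b g * al a b (t1 z1) * z1) ^ 2 := by
        ring
      rw [h5] at h4
      have h6 := h4.div (IsSquare.sq (al a b g * al a b (t1 z1) * z1))
      rwa [mul_div_assoc, div_self (pow_ne_zero 2 (mul_ne_zero (mul_ne_zero hg0 ht0) hz10)),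
        mul_one] at h6
    obtain ⟨X, hX⟩ := NX_of _ hN
    have hX0 := NX_ne hd hX
    obtain ⟨z2, hz2m, hz2s⟩ := h2 X hX0 (NX_dual hX)
    have hz20 : (z2 : ℚ) ≠ 0 := by exact_mod_cast hz2 z2 hz2m
    have hz2L : IsSquare (algebraMap ℚ L (X * z2)) := by
      rcases hz2s with h | h
      · exact h.map (algebraMap ℚ L)
      · have h3 := (h.map (algebraMap ℚ L)).div hLd
        have hdL : algebraMap ℚ L (a ^ 2 - 4 * b) ≠ 0 := (map_ne_zero _).2 hd
        have e : algebraMap ℚ L (X * ((a ^ 2 - 4 * b) * z2)) / algebraMap ℚ L (a ^ 2 - 4 * b) =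
            algebraMap ℚ L (X * z2) := by
          rw [← map_div₀]
          congr 1
          field_simp
        rwa [e] at h3
    obtain ⟨X2, hX2, hX2s⟩ := ht2 z2 ⟨_, X, hX, hz2L⟩
    have hX20 := NX_ne hd hX2
    refine ⟨N.mkQ (t1 z1 + t2 z2), Finset.mem_image.2 ⟨(z1, z2),
      Finset.mem_product.2 ⟨hz1m, hz2m⟩, rfl⟩, ?_⟩
    set R := g - t1 z1 - t2 z2 with hR
    have hal2 : IsSquare (al a b (t2 z2)) := by
      rcases hX2 with ⟨h0, _⟩ | ⟨w, q, hn, h0, hq, _⟩
      · rw [h0, al_zero]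
        exact ⟨1, by ring⟩
      · rw [h0, al_some]
        split_ifs with hw
        · have : w = 0 := pow_eq_zero_iff (two_ne_zero) |>.1 hw
          rw [this] at hq
          exact ⟨q, by rw [← sq, hq]; ring⟩
        · exact IsSquare.sq w
    have hRs : IsSquare (al a b R) := by
      have h3 := al_add (two_ne_zero : (2 : ℚ) ≠ 0) (g - t1 z1) (-(t2 z2))
      rw [← sub_eq_add_neg, al_neg] at h3
      have h4 := h3.div (hN.mul hal2)
      rwa [mul_div_assoc, div_self (mul_ne_zero (al_ne hb _) (al_ne hb _)), mul_one] at h4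
    obtain ⟨XR, hXR⟩ := NX_of _ hRs
    have hXR0 := NX_ne hd hXR
    have hXRL : IsSquare (algebraMap ℚ L XR) := by
      have k1 := NX_dl hs hp hX
      have k2 := NX_dl hs hp hX2
      have k3 := NX_dl hs hp hXR
      have k4 := dlW_add h20 (crv_eq hs hp) (emb L a b (g - t1 z1)) (emb L a b (-(t2 z2)))
      rw [← map_add, ← sub_eq_add_neg, ← hR, map_neg, dlW_neg] at k4
      have hz2L0 : algebraMap ℚ L (z2 : ℚ) ≠ 0 := (map_ne_zero _).2 hz20
      have k5 : IsSquare (algebraMap ℚ L (X * X2)) := by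
        have h3 := hz2L.mul hX2s
        have h4 : algebraMap ℚ L (X * z2) * algebraMap ℚ L (X2 * z2) =
            algebraMap ℚ L (X * X2) * (algebraMap ℚ L z2) ^ 2 := by
          simp only [map_mul]
          ring
        rw [h4] at h3
        have h5 := h3.div (IsSquare.sq (algebraMap ℚ L (z2 : ℚ)))
        rwa [mul_div_assoc, div_self (pow_ne_zero 2 hz2L0), mul_one] at h5
      rw [map_mul] at k5
      have n1 : dlW e1 0 e2 (emb L a b (g - t1 z1)) ≠ 0 := dlW_ne he1 hne _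
      have n2 : dlW e1 0 e2 (emb L a b (t2 z2)) ≠ 0 := dlW_ne he1 hne _
      have n3 : dlW e1 0 e2 (emb L a b R) ≠ 0 := dlW_ne he1 hne _
      have n4 : algebraMap ℚ L X ≠ 0 := (map_ne_zero _).2 hX0
      have n5 : algebraMap ℚ L X2 ≠ 0 := (map_ne_zero _).2 hX20
      set d1 := dlW e1 0 e2 (emb L a b (g - t1 z1))
      set d2 := dlW e1 0 e2 (emb L a b (t2 z2))
      set d3 := dlW e1 0 e2 (emb L a b R)
      have k6 := (((k1.mul k2).mul k3).mul k4).mul k5
      have h7 : d1 * algebraMap ℚ L X * (d2 * algebraMap ℚ L X2) * (d3 * algebraMap ℚ L XR) *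
          (d3 * (d1 * d2)) * (algebraMap ℚ L X * algebraMap ℚ L X2) =
          algebraMap ℚ L XR * (d1 * d2 * d3 * algebraMap ℚ L X * algebraMap ℚ L X2) ^ 2 := by ring
      rw [h7] at k6
      have k7 := k6.div (IsSquare.sq (d1 * d2 * d3 * algebraMap ℚ L X * algebraMap ℚ L X2))
      rwa [mul_div_assoc, div_self (pow_ne_zero 2 (mul_ne_zero (mul_ne_zero (mul_ne_zero
        (mul_ne_zero n1 n2) n3) n4) n5)), mul_one] at k7
    obtain ⟨Q, hQ⟩ := NX_half hb hd hXR (hsq XR hXR0 hXRL)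
    refine ⟨N.mkQ Q, ?_⟩
    rw [← map_add, ← map_add, ← hQ, hR]
    congr 1
    abel
  rw [← hrk]
  refine Pool.Agent.W505.RK.rkb _ hfg' _ T hcard fun g' => ?_
  obtain ⟨g, rfl⟩ := N.mkQ_surjective g'
  obtain ⟨z1, hz1m, hz1s | hz1s⟩ := h1 g
  · exact hcov g z1 hz1m hz1s
  · have h3 : IsSquare (al a b (g + T0) * z1) := by
      have h4 := al_add (two_ne_zero : (2 : ℚ) ≠ 0) g T0
      rw [halT] at h4
      have hg0 := al_ne hb g
      have h5 := h4.mul hz1s
      have h6 : al a b (g + T0) * (al a b g * b) * (al a b g * (b * z1)) =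
          al a b (g + T0) * z1 * (al a b g * b) ^ 2 := by ring
      rw [h6] at h5
      have h7 := h5.div (IsSquare.sq (al a b g * b))
      rwa [mul_div_assoc, div_self (pow_ne_zero 2 (mul_ne_zero hg0 hb)), mul_one] at h7
    obtain ⟨t, ht, q, hq⟩ := hcov (g + T0) z1 hz1m h3
    refine ⟨t, ht, q, ?_⟩
    rw [← hq, map_add]
    have h8 : N.mkQ T0 = 0 := by
      rw [Submodule.mkQ_apply, Submodule.Quotient.mk_eq_zero]
      exact Submodule.subset_span rfl
    rw [h8, add_zero]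

end

/-- **the bound for the rank** -/
theorem desc2 {a b : ℚ} (hb : b ≠ 0) (hd : a ^ 2 - 4 * b ≠ 0) (Z1 Z2 : Finset ℤ)
    (h1 : ∀ P : (Wt a b).toAffine.Point, ∃ z ∈ Z1,
      IsSquare (al a b P * z) ∨ IsSquare (al a b P * (b * z)))
    (h2 : ∀ X : ℚ, X ≠ 0 → (X = 1 ∨
      ∃ Y : ℚ, Y ^ 2 = X ^ 3 + (-2 * a) * X ^ 2 + (a ^ 2 - 4 * b) * X) →
      ∃ z ∈ Z2, IsSquare (X * z) ∨ IsSquare (X * ((a ^ 2 - 4 * b) * z)))
    (hz1 : ∀ z ∈ Z1, z ≠ 0) (hz2 : ∀ z ∈ Z2, z ≠ 0) :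
    2 ^ Module.finrank ℤ (Wt a b).toAffine.Point ≤ Z1.card * Z2.card := by
  classical
  by_cases hsq : IsSquare (a ^ 2 - 4 * b)
  · obtain ⟨r, hr⟩ := hsq
    have hr0 : r ≠ 0 := by
      rintro rfl
      exact hd (by rw [hr]; ring)
    refine desc_aux2 (L := ℚ) hb hd (e1 := (-a + r) / 2) (e2 := (-a - r) / 2) ?_ ?_ ?_ ?_ Z1 Z2 h1
      h2 hz1 hz2
    · change _ = -a
      ring
    · change _ = b
      linear_combination (1 / 4 : ℚ) * hr
    · intro h
      apply hr0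
      linear_combination h
    · intro c _ hc
      exact Or.inl hc
  · have hF : Fact (∀ r : ℚ, r ^ 2 ≠ (a ^ 2 - 4 * b) + 0 * r) :=
      ⟨fun r hr => hsq ⟨r, by linear_combination -hr⟩⟩
    have hnf : NumberField (QuadraticAlgebra ℚ (a ^ 2 - 4 * b) 0) :=
      { to_charZero := inferInstance
        to_finiteDimensional := inferInstance }
    set ω : QuadraticAlgebra ℚ (a ^ 2 - 4 * b) 0 := ⟨0, 1⟩ with hω
    have hω2 : ω * ω = algebraMap ℚ _ (a ^ 2 - 4 * b) := by
      rw [quad_map, hω, QuadraticAlgebra.mk_mul_mk]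
      congr 1 <;> ring
    have h20 : (2 : QuadraticAlgebra ℚ (a ^ 2 - 4 * b) 0) ≠ 0 := two_ne_zero
    have hω0 : ω ≠ 0 := by
      intro h0
      have := congrArg QuadraticAlgebra.im h0
      simp [hω] at this
    set A := algebraMap ℚ (QuadraticAlgebra ℚ (a ^ 2 - 4 * b) 0) a with hA
    set B := algebraMap ℚ (QuadraticAlgebra ℚ (a ^ 2 - 4 * b) 0) b with hB
    have hD : algebraMap ℚ (QuadraticAlgebra ℚ (a ^ 2 - 4 * b) 0) (a ^ 2 - 4 * b) =
        A ^ 2 - 4 * B := by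
      rw [map_sub, map_mul, map_pow, map_ofNat]
    rw [hD] at hω2
    refine desc_aux2 (L := QuadraticAlgebra ℚ (a ^ 2 - 4 * b) 0) hb hd (e1 := (-A + ω) / 2)
      (e2 := (-A - ω) / 2) ?_ ?_ ?_ ?_ Z1 Z2 h1 h2 hz1 hz2
    · field_simp
      ring
    · rw [div_mul_div_comm, div_eq_iff (mul_ne_zero h20 h20)]
      linear_combination -hω2
    · intro h
      apply hω0
      have h5 : (-A + ω) / 2 * 2 = (-A - ω) / 2 * 2 := by rw [h]
      rw [div_mul_cancel₀ _ h20, div_mul_cancel₀ _ h20] at h5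
      have h6 : 2 * ω = 0 := by linear_combination h5
      exact (mul_eq_zero.1 h6).resolve_left h20
    · intro c _ hc
      exact quad_sq _ c hc

end Q283.GS
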