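import Pool.Agent.Q283.GM.Loc2
import Pool.Agent.Q283.GM.W49
import Pool.Agent.Y809.BSD14.Selb
import Pool.Agent.W402.FK.RKS

set_option autoImplicit false
set_option linter.unusedSectionVars false

/-!
# The isogeny Selmer groups of the twists of `X_0(49)`: necessary conditions
-/

open scoped Classical

namespace Q283.GS

open Finset
open Pool.Agent.Y700 (PC)
open Pool.Agent.Y814.BSD14 Pool.Agent.Y809.BSD14
open Pool.Agent.Y698 (Inq)
open Pool.Agent.Y698.SG (Spl mat nq n4 nq_prod nq_zero n4_zero not_dvd_pr)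
open Pool.Agent.Y698.SG.Cv (LocI)
open Q283.GW (CF PA QA union_A disj_A PA_spl QA_inq)

/-- squares near one -/
theorem near (p : ℕ) [hp : Fact p.Prime] (c : ℚ_[p]) : ∃ k0 : ℕ, ∀ k ≥ k0, ∃ v : ℚ_[p], v ≠ 0 ∧
    v ^ 2 = 1 + c * ((p : ℚ_[p]) ^ k) ^ 2 := by
  have hp1 : (1 : ℝ) < p := by exact_mod_cast hp.out.one_lt
  obtain ⟨k0, hk0⟩ := pow_unbounded_of_one_lt ‖c / 4‖ hp1
  refine ⟨k0 + 1, fun k hk => ?_⟩
  have hpn : ‖(p : ℚ_[p])‖ = (p : ℝ)⁻¹ := Padic.norm_p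
  have hint : ‖c / 4 * (p : ℚ_[p]) ^ (2 * k - 1)‖ ≤ 1 := by
    rw [norm_mul, norm_pow, hpn]
    have h1 : (p : ℝ)⁻¹ ^ (2 * k - 1) ≤ (p : ℝ)⁻¹ ^ k0 :=
      pow_le_pow_of_le_one (by positivity) (inv_le_one_of_one_le₀ hp1.le) (by omega)
    calc ‖c / 4‖ * (p : ℝ)⁻¹ ^ (2 * k - 1) ≤ (p : ℝ) ^ k0 * (p : ℝ)⁻¹ ^ k0 := by
          gcongr
      _ = 1 := by
          rw [← mul_pow, mul_inv_cancel₀ (by positivity), one_pow]
  obtain ⟨w, hw⟩ := ex_int hint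
  obtain ⟨z, hz⟩ := Pool.Agent.W402.FK.hens p w
  have e : (z : ℚ_[p]) ^ 2 = 1 + c * ((p : ℚ_[p]) ^ k) ^ 2 := by
    have h1 : ((1 + 4 * p * w : ℤ_[p]) : ℚ_[p]) = ((z * z : ℤ_[p]) : ℚ_[p]) := by rw [hz]
    push_cast at h1
    have h4 : ((4 : ℤ_[p]) : ℚ_[p]) = 4 := rfl
    rw [hw, h4] at h1
    have h2 : (p : ℚ_[p]) * (p : ℚ_[p]) ^ (2 * k - 1) = ((p : ℚ_[p]) ^ k) ^ 2 := by
      rw [← pow_succ', ← pow_mul]
      congr 1
      omega
    rw [← h2]
    linear_combination -h1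
  refine ⟨z, ?_, e⟩
  intro h0
  have h1 : z = 0 := by
    apply PadicInt.ext
    rw [h0]
    rfl
  rw [h1] at hz
  have h2 : (1 : ℤ_[p]) = -(4 * w) * p := by linear_combination hz
  have h3 : IsUnit (p : ℤ_[p]) := IsUnit.of_mul_eq_one (-(4 * w)) (by rw [mul_comm]; exact h2.symm)
  rw [PadicInt.isUnit_iff, PadicInt.norm_p] at h3
  have h4 : (p : ℝ) = 1 := by
    have := congrArg (fun t : ℝ => t⁻¹) h3
    simpa using this
  linarith

/-- points of the dual curve with `Y ≠ 0` -/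
theorem PC_of_LocI {a b d : ℤ} (hb : b ≠ 0) (p : ℕ) [hp : Fact p.Prime]
    (h : LocI ℚ_[p] a b d) : PC (-2 * a) (a ^ 2 - 4 * b) p d := by
  obtain ⟨X, Y, r, h1, h2, h3⟩ := h
  by_cases hY : Y = 0
  · rw [hY] at h2
    have h4 : X ^ 2 - 2 * (a : ℚ_[p]) * X + ((a : ℚ_[p]) ^ 2 - 4 * b) = 0 := by
      apply mul_left_cancel₀ h1
      linear_combination -h2
    have hb' : (b : ℚ_[p]) ≠ 0 := by exact_mod_cast hb
    have hA : 2 * X - 2 * (a : ℚ_[p]) ≠ 0 := by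
      intro h5
      have h6 : 16 * (b : ℚ_[p]) = 0 := by
        linear_combination (2 * X - 2 * (a : ℚ_[p])) * h5 - 4 * h4
      rcases mul_eq_zero.1 h6 with h7 | h7
      · norm_num at h7
      · exact hb' h7
    obtain ⟨k1, hk1⟩ := near p X
    obtain ⟨k2, hk2⟩ := near p (2 * X - 2 * a)
    obtain ⟨v, hv0, hv⟩ := hk1 (max k1 k2) (le_max_left _ _)
    obtain ⟨w, hw0, hw⟩ := hk2 (max k1 k2) (le_max_right _ _)
    set η : ℚ_[p] := (p : ℚ_[p]) ^ (max k1 k2) with hη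
    have hη0 : η ≠ 0 := pow_ne_zero _ (by exact_mod_cast hp.out.ne_zero)
    refine ⟨X * w ^ 2, X * w * (2 * X - 2 * a) * η * v, ?_, ?_, d * r * w, ?_⟩
    · exact mul_ne_zero (mul_ne_zero (mul_ne_zero (mul_ne_zero h1 hw0) hA) hη0) hv0
    · have e1 : (X * w * (2 * X - 2 * a) * η * v) ^ 2 =
          X ^ 2 * w ^ 2 * (2 * X - 2 * a) ^ 2 * η ^ 2 * v ^ 2 := by ring
      rw [e1, hv]
      push_cast
      have e2 : w ^ 2 = 1 + (2 * X - 2 * a) * η ^ 2 := hw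
      have e3 : (X * w ^ 2) ^ 3 + -2 * (a : ℚ_[p]) * (X * w ^ 2) ^ 2 +
          ((a : ℚ_[p]) ^ 2 - 4 * b) * (X * w ^ 2) =
          X * w ^ 2 * ((X * w ^ 2) ^ 2 - 2 * a * (X * w ^ 2) + (a ^ 2 - 4 * b)) := by ring
      rw [e3]
      have e4 : (X * w ^ 2) ^ 2 - 2 * a * (X * w ^ 2) + ((a : ℚ_[p]) ^ 2 - 4 * b) =
          X * (2 * X - 2 * a) ^ 2 * η ^ 2 * (1 + X * η ^ 2) := by
        rw [e2]
        linear_combination h4
      rw [e4]
      ring
    · rw [h3]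
      ring
  · refine ⟨X, Y, hY, ?_, d * r, ?_⟩
    · push_cast
      linear_combination h2
    · rw [h3]
      ring

/-! ### the roots -/

theorem neg_one_sq {p : ℕ} (hp : p.Prime) (h4 : p % 4 = 1) : ∃ i : ZMod p, i ^ 2 = -1 := by
  have : Fact p.Prime := ⟨hp⟩
  obtain ⟨i, hi⟩ := ZMod.exists_sq_eq_neg_one_iff.2 (by omega : p % 4 ≠ 3)
  exact ⟨i, by rw [hi]; ring⟩

theorem quart {p : ℕ} (hp : p.Prime) (h4 : p % 4 = 1) {t : ZMod p} (ht : t ^ 2 = -7) :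
    IsSquare t ↔ ∃ y : ZMod p, y ^ 4 = -7 := by
  have : Fact p.Prime := ⟨hp⟩
  obtain ⟨i, hi⟩ := neg_one_sq hp h4
  constructor
  · rintro ⟨v, hv⟩
    refine ⟨v, ?_⟩
    rw [← ht, hv]
    ring
  · rintro ⟨y, hy⟩
    have h1 : (y ^ 2 - t) * (y ^ 2 + t) = 0 := by linear_combination hy - ht
    rcases mul_eq_zero.1 h1 with h2 | h2
    · exact ⟨y, by linear_combination -h2⟩
    · exact ⟨i * y, by linear_combination h2 - y ^ 2 * hi⟩

theorem two_ne {p : ℕ} (hp : p.Prime) (h4 : p % 4 = 1) : (2 : ZMod p) ≠ 0 := by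
  have h := cast_ne hp Nat.prime_two (by rintro rfl; omega)
  exact_mod_cast h

/-- a nonzero square does not matter -/
theorem sq_mul_iff {F : Type} [Field F] {x y s : F} (hs : s ≠ 0) (h : x = y * s ^ 2) :
    IsSquare x ↔ IsSquare y := by
  constructor
  · rintro ⟨r, hr⟩
    refine ⟨r / s, ?_⟩
    rw [div_mul_div_comm, ← hr, h]
    field_simp
  · rintro ⟨r, hr⟩
    exact ⟨r * s, by rw [h, hr]; ring⟩

/-- the roots for the curve -/
theorem rtA {p : ℕ} (hp : p.Prime) (h4 : p % 4 = 1) {r m : ZMod p} (hm : m ≠ 0)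
    (h : r ^ 2 + (21 * m) * r + 112 * m ^ 2 = 0) :
    IsSquare (r * m) ↔ ∃ y : ZMod p, y ^ 4 = -7 := by
  have : Fact p.Prime := ⟨hp⟩
  have h2 := two_ne hp h4
  set t : ZMod p := (2 * r + 21 * m) / m with ht
  have htm : t * m = 2 * r + 21 * m := by rw [ht, div_mul_cancel₀ _ hm]
  have ht2 : t ^ 2 = -7 := by
    have h3 : (t * m) ^ 2 = -7 * m ^ 2 := by
      rw [htm]
      linear_combination 4 * h
    have h5 : m ^ 2 * (t ^ 2 + 7) = 0 := by linear_combination h3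
    rcases mul_eq_zero.1 h5 with h6 | h6
    · exact absurd h6 (pow_ne_zero 2 hm)
    · linear_combination h6
  rw [← quart hp h4 ht2]
  have h7 : (1 - t) ≠ 0 := by
    intro h0
    have h8 : (8 : ZMod p) = 0 := by linear_combination (1 + t) * h0 + ht2
    have h9 : (2 : ZMod p) ^ 3 = 0 := by rw [← h8]; norm_num
    exact h2 (pow_eq_zero_iff (by norm_num) |>.1 h9)
  have h16 : (r * m) * 4 ^ 2 = t * ((1 - t) ^ 2 * m) ^ 2 := by
    have e1 : 2 * r = (t - 21) * m := by linear_combination -htm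
    have e2 : (1 - t) ^ 4 = 8 + 24 * t := by
      linear_combination (t ^ 2 - 4 * t - 1) * ht2
    have e3 : t * (8 + 24 * t) = 8 * (t - 21) := by linear_combination 24 * ht2
    have e4 : t * ((1 - t) ^ 2 * m) ^ 2 = (t * (1 - t) ^ 4) * m ^ 2 := by ring
    rw [e4, e2, e3]
    linear_combination 8 * m * e1
  have h4' : (4 : ZMod p) ≠ 0 := by
    have : (4 : ZMod p) = 2 ^ 2 := by norm_num
    rw [this]
    exact pow_ne_zero 2 h2
  rw [← sq_mul_iff (x := (r * m) * 4 ^ 2) (y := r * m) h4' rfl, h16]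
  exact sq_mul_iff (mul_ne_zero (pow_ne_zero 2 h7) hm) rfl

/-- the roots for the dual curve -/
theorem rtB {p : ℕ} (hp : p.Prime) (h4 : p % 4 = 1) {r m : ZMod p} (hm : m ≠ 0)
    (h : r ^ 2 + (-42 * m) * r + -7 * m ^ 2 = 0) :
    IsSquare (r * m) ↔ ∃ y : ZMod p, y ^ 4 = -7 := by
  have : Fact p.Prime := ⟨hp⟩
  have h2 := two_ne hp h4
  obtain ⟨i, hi⟩ := neg_one_sq hp h4
  have h8 : (8 : ZMod p) ≠ 0 := by
    have : (8 : ZMod p) = 2 ^ 3 := by norm_num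
    rw [this]
    exact pow_ne_zero 3 h2
  set s : ZMod p := (r - 21 * m) / (8 * m) with hs
  have h8m : 8 * m ≠ 0 := mul_ne_zero h8 hm
  have hsm : s * (8 * m) = r - 21 * m := by rw [hs, div_mul_cancel₀ _ h8m]
  have hs2 : s ^ 2 = 7 := by
    have h3 : (s * (8 * m)) ^ 2 = 7 * (8 * m) ^ 2 := by
      rw [hsm]
      linear_combination h
    have h5 : (8 * m) ^ 2 * (s ^ 2 - 7) = 0 := by linear_combination h3
    rcases mul_eq_zero.1 h5 with h6 | h6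
    · exact absurd h6 (pow_ne_zero 2 h8m)
    · linear_combination h6
  have ht2 : (i * s) ^ 2 = -7 := by
    rw [mul_pow, hi, hs2]; ring
  rw [← quart hp h4 ht2]
  have h3s : 3 + s ≠ 0 := by
    intro h0
    apply h2
    linear_combination (3 - s) * h0 + hs2
  have hi1 : 1 - i ≠ 0 := by
    intro h0
    apply h2
    linear_combination (1 + i) * h0 + hi
  have e1 : (r * m) * 2 ^ 2 = (i * s) * ((3 + s) * m * (1 - i)) ^ 2 := by
    have e2 : r = (21 + 8 * s) * m := by linear_combination -hsm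
    rw [e2]
    linear_combination (-m ^ 2 * (3 + s) ^ 2 * s * (i - 2)) * hi +
      (-(2 : ZMod p) * m ^ 2 * (s + 6)) * hs2
  rw [← sq_mul_iff (x := (r * m) * 2 ^ 2) (y := r * m) h2 rfl, e1]
  exact sq_mul_iff (mul_ne_zero (mul_ne_zero h3s hm) hi1) rfl

end Q283.GS
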