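import Pool.Agent.Q283.GM.Sel

set_option autoImplicit false
set_option linter.unusedSectionVars false

/-!
# The isogeny Selmer groups of the twists of `X_0(49)`: the upper bound
-/

open scoped Classical

namespace Q283.GS

open Finset
open Pool.Agent.Y700 (PC)
open Pool.Agent.Y814.BSD14 Pool.Agent.Y809.BSD14
open Pool.Agent.Y698 (Inq)
open Pool.Agent.Y698.SG (Spl mat nq n4 nq_prod nq_zero n4_zero not_dvd_pr)
open Pool.Agent.Y698.SG.Cv (LocI)
open Q283.GW (CF PA QA union_A disj_A PA_spl QA_inq)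

/-- the conditions on a set of primes -/
def KerJ (S J : Finset ℕ) : Prop := J ⊆ PA S ∧ (∀ i ∈ PA S \ J, ∑ j ∈ J, nq i j = 0) ∧
  ∀ i ∈ J, n4 i + ∑ q ∈ QA S, nq i q + ∑ j ∈ PA S \ J, nq i j = 0

/-- the product -/
def pd (S : Finset ℕ) : ℤ := ((∏ q ∈ S, q : ℕ) : ℤ)

theorem pd_erase {S : Finset ℕ} {p : ℕ} (hp : p ∈ S) : pd S = p * pd (S.erase p) := by
  unfold pd
  rw [← Finset.mul_prod_erase S (fun q => q) hp]
  push_cast
  ring

theorem pd_sdiff {S J : Finset ℕ} (hJ : J ⊆ S) : pd S = pd J * pd (S \ J) := by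
  unfold pd
  rw [← Finset.prod_sdiff hJ]
  push_cast
  ring

theorem pd_not_dvd {p : ℕ} (hp : p.Prime) {S : Finset ℕ} (hS : ∀ l ∈ S, l.Prime) (hpS : p ∉ S) :
    ¬ (p : ℤ) ∣ pd S := fun h => not_dvd_pr hp hS hpS (Int.natCast_dvd_natCast.1 h)

theorem pd_cast (p : ℕ) (S : Finset ℕ) : ((pd S : ℤ) : ZMod p) = ((∏ q ∈ S, q : ℕ) : ZMod p) := by
  unfold pd
  rw [Int.cast_natCast]

theorem pd_ne {p : ℕ} (hp : p.Prime) {S : Finset ℕ} (hS : ∀ l ∈ S, l.Prime) (hpS : p ∉ S) :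
    ((pd S : ℤ) : ZMod p) ≠ 0 := by
  rw [Ne, ZMod.intCast_zmod_eq_zero_iff_dvd]
  exact pd_not_dvd hp hS hpS

/-- `-1` and `±7` are squares modulo the split primes -/
theorem u_sq {p : ℕ} (hp : Spl p) {u : ℤ} (hu : u.natAbs = 1 ∨ u.natAbs = 7) :
    IsSquare (u : ZMod p) ∧ (u : ZMod p) ≠ 0 := by
  have : Fact p.Prime := ⟨hp.pr⟩
  obtain ⟨i, hi⟩ := neg_one_sq hp.pr hp.m4
  have h1 : IsSquare (-1 : ZMod p) := ⟨i, by rw [← hi]; ring⟩
  have h7 : (7 : ZMod p) ≠ 0 := by
    have := cast_ne hp.pr (q := 7) (by norm_num) (by rintro rfl; have := hp.m4; norm_num at this)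
    exact_mod_cast this
  have hu' : u = 1 ∨ u = -1 ∨ u = 7 ∨ u = -7 := by omega
  rcases hu' with rfl | rfl | rfl | rfl
  · push_cast
    exact ⟨IsSquare.one, one_ne_zero⟩
  · push_cast
    exact ⟨h1, neg_ne_zero.2 one_ne_zero⟩
  · push_cast
    refine ⟨?_, h7⟩
    have e : (7 : ZMod p) = -1 * -7 := by ring
    rw [e]
    exact h1.mul hp.sq
  · push_cast
    exact ⟨hp.sq, neg_ne_zero.2 h7⟩

section
variable {S : Finset ℕ} (hS : CF S) {c1 c2 : ℤ}
  (hc2 : ∀ q : ℕ, q.Prime → q ≠ 2 → q ≠ 7 → ¬ (q : ℤ) ∣ c2)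
  (hin : ∀ q ∈ QA S, ∀ r m : ZMod q, m ≠ 0 → r ^ 2 + (c1 * m) * r + c2 * m ^ 2 ≠ 0)
  (hsq : ∀ p ∈ PA S, IsSquare (c2 : ZMod p))
  (hrt : ∀ p ∈ PA S, ∀ r m : ZMod p, m ≠ 0 → r ^ 2 + (c1 * m) * r + c2 * m ^ 2 = 0 →
    (IsSquare (r * m) ↔ ∃ y : ZMod p, y ^ 4 = -7))

include hS hc2 hin hsq hrt

/-- **the necessary conditions** -/
theorem nec {z : ℤ} (hz : Squarefree z) (hz2 : z % 2 = 1)
    (h : ∀ (l : ℕ) [Fact l.Prime], PC (c1 * pd S) (c2 * pd S ^ 2) l z) :
    ∃ (J : Finset ℕ) (u : ℤ), KerJ S J ∧ z = u * pd J ∧ (u.natAbs = 1 ∨ u.natAbs = 7) := by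
  have hSp : ∀ l ∈ S, l.Prime := fun l hl => (hS l hl).1
  have hPS : PA S ⊆ S := Finset.filter_subset _ _
  have hQS : QA S ⊆ S := Finset.filter_subset _ _
  -- the form of the condition at a prime of `S`
  have hform : ∀ p ∈ S, ∀ [Fact p.Prime], PC (p * (c1 * pd (S.erase p)))
      (p ^ 2 * (c2 * pd (S.erase p) ^ 2)) p z := by
    intro p hp _
    have h1 := h p
    rw [pd_erase hp] at h1
    have e1 : c1 * ((p : ℤ) * pd (S.erase p)) = p * (c1 * pd (S.erase p)) := by ring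
    have e2 : c2 * ((p : ℤ) * pd (S.erase p)) ^ 2 = p ^ 2 * (c2 * pd (S.erase p) ^ 2) := by ring
    rw [e1, e2] at h1
    exact h1
  have herase : ∀ p ∈ S, ¬ (p : ℤ) ∣ c2 * pd (S.erase p) ^ 2 := by
    intro p hp h0
    have hpp := hSp p hp
    have hpP : Prime (p : ℤ) := Nat.prime_iff_prime_int.1 hpp
    rcases hpP.dvd_or_dvd h0 with h1 | h1
    · refine hc2 p hpp ?_ ?_ h1
      · rintro rfl; have := (hS 2 hp).2; norm_num at this
      · rintro rfl; have := (hS 7 hp).2; norm_num at this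
    · exact pd_not_dvd hpp (fun l hl => hSp l (Finset.mem_of_mem_erase hl))
        (Finset.notMem_erase p S) (hpP.dvd_of_dvd_pow h1)
  -- the primes dividing `z`
  have hpr : ∀ q : ℕ, q.Prime → (q : ℤ) ∣ z → q = 7 ∨ q ∈ PA S := by
    intro q hq hqz
    by_contra hcon
    push Not at hcon
    have : Fact q.Prime := ⟨hq⟩
    have hqP : Prime (q : ℤ) := Nat.prime_iff_prime_int.1 hq
    have hq2 : q ≠ 2 := by
      rintro rfl
      obtain ⟨k, hk⟩ := hqz
      push_cast at hk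
      omega
    by_cases hqS : q ∈ S
    · have hqQ : q ∈ QA S := by
        have h1 : q ∈ QA S ∪ PA S := by rw [union_A]; exact hqS
        exact (Finset.mem_union.1 h1).resolve_right hcon.2
      obtain ⟨r, hr, -, -⟩ := root_of_PC hz hqz (herase q hqS) (hform q hqS)
      refine hin q hqQ r (pd (S.erase q)) (pd_ne hq (fun l hl =>
        hSp l (Finset.mem_of_mem_erase hl)) (Finset.notMem_erase q S)) ?_
      push_cast at hr
      exact hr
    · refine not_dvd_of_PC hz ?_ (h q) hqz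
      intro h0
      rcases hqP.dvd_or_dvd h0 with h0 | h0
      · exact hc2 q hq hq2 hcon.1 h0
      · exact pd_not_dvd hq hSp hqS (hqP.dvd_of_dvd_pow h0)
  -- the decomposition
  set J := (PA S).filter (fun p : ℕ => (p : ℤ) ∣ z) with hJdef
  have hJP : J ⊆ PA S := Finset.filter_subset _ _
  have hJm : ∀ p, p ∈ J ↔ p ∈ PA S ∧ (p : ℤ) ∣ z := fun p => Finset.mem_filter
  have hJp : ∀ q ∈ J, q.Prime := fun q hq => hSp q (hPS (hJP hq))
  have hdvd : pd J ∣ z := by
    unfold pd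
    rw [Int.natCast_dvd]
    refine Finset.prod_primes_dvd _ (fun q hq => (hJp q hq).prime) fun q hq => ?_
    exact Int.natCast_dvd.1 ((hJm q).1 hq).2
  obtain ⟨u, hu⟩ := hdvd
  have huq : ∀ q : ℕ, q.Prime → (q : ℤ) ∣ u → q = 7 := by
    intro q hq hqu
    have hqz : (q : ℤ) ∣ z := by
      rw [hu]
      exact hqu.mul_left _
    rcases hpr q hq hqz with h1 | h1
    · exact h1
    · exfalso
      have hqJ : q ∈ J := (hJm q).2 ⟨h1, hqz⟩
      have h2 : z = q * (pd (J.erase q) * u) := by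
        rw [hu, pd_erase hqJ]
        ring
      exact not_dvd_of_sqf hq hz h2 (hqu.mul_left _)
  have hud : u ∣ z := Dvd.intro_left _ hu.symm
  have huu : u.natAbs = 1 ∨ u.natAbs = 7 := only_prime (hz.squarefree_of_dvd hud) huq
  refine ⟨J, u, ⟨hJP, ?_, ?_⟩, by rw [hu]; ring, huu⟩
  · intro p hp
    rw [Finset.mem_sdiff] at hp
    have hpp := hSp p (hPS hp.1)
    have f : Fact p.Prime := ⟨hpp⟩
    have hspl := PA_spl S p hp.1
    have hpz : ¬ (p : ℤ) ∣ z := fun h0 => hp.2 ((hJm p).2 ⟨hp.1, h0⟩)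
    have h1 := h p
    rw [pd_erase (hPS hp.1)] at h1
    have hpe := pd_not_dvd hpp (S := S.erase p)
      (fun q hq => hSp q (Finset.mem_of_mem_erase hq)) (Finset.notMem_erase p S)
    have hpc2 : ¬ (p : ℤ) ∣ c2 := hc2 p hpp (by
      rintro rfl; have := hspl.m4; norm_num at this) (by
      rintro rfl; have := hspl.m4; norm_num at this)
    have h3 := sq_of_PC hpz hpe hpc2 (hsq p hp.1) h1
    obtain ⟨hus, hu0⟩ := u_sq hspl huu
    obtain ⟨s, hs⟩ := hus
    have hs0 : s ≠ 0 := by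
      rintro rfl
      apply hu0
      rw [hs]
      ring
    rw [← nq_prod hpp hJp (fun h => hp.2 h), nq_zero, ← pd_cast]
    refine (sq_mul_iff hs0 ?_).1 h3
    rw [hu]
    push_cast
    rw [hs]
    ring
  · intro p hp
    obtain ⟨hpP, z', hz'⟩ := (hJm p).1 hp
    have hpS := hPS hpP
    have hpp := hSp p hpS
    have f : Fact p.Prime := ⟨hpp⟩
    have hspl := PA_spl S p hpP
    obtain ⟨r, hr, hr0, hrz⟩ := root_of_PC hz ⟨z', hz'⟩ (herase p hpS) (hform p hpS)
    have hrz' := hrz z' hz'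
    have hm0 := pd_ne hpp (S := S.erase p) (fun l hl => hSp l (Finset.mem_of_mem_erase hl))
      (Finset.notMem_erase p S)
    push_cast at hr
    have h3 := hrt p hpP r _ hm0 hr
    obtain ⟨hus, hu0⟩ := u_sq hspl huu
    obtain ⟨s, hs⟩ := hus
    have hs0 : s ≠ 0 := by
      rintro rfl
      apply hu0
      rw [hs]
      ring
    have hp0 : (p : ℤ) ≠ 0 := by exact_mod_cast hpp.ne_zero
    have e1 : z' = pd (J.erase p) * u := by
      apply mul_left_cancel₀ hp0
      rw [← hz', hu, pd_erase hp]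
      ring
    have e2 : pd (S.erase p) = pd (J.erase p) * pd (S \ J) := by
      have h4 : J ⊆ S := hJP.trans hPS
      apply mul_left_cancel₀ hp0
      rw [← pd_erase hpS, pd_sdiff h4, pd_erase hp]
      ring
    have hJe0 : ((pd (J.erase p) : ℤ) : ZMod p) ≠ 0 := pd_ne hpp
      (fun l hl => hJp l (Finset.mem_of_mem_erase hl)) (Finset.notMem_erase p J)
    have hpSJ : p ∉ S \ J := fun h => (Finset.mem_sdiff.1 h).2 hp
    -- the class of `S \ J`
    have h5 : IsSquare ((pd (S \ J) : ℤ) : ZMod p) ↔ ∃ y : ZMod p, y ^ 4 = -7 := by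
      rw [← h3]
      obtain ⟨v, hv⟩ := hrz'
      have hz'0 : (z' : ZMod p) ≠ 0 := by
        rw [e1]
        push_cast
        exact mul_ne_zero hJe0 hu0
      have hv0 : v ≠ 0 := by
        rintro rfl
        apply mul_ne_zero hr0 hz'0
        rw [hv]
        ring
      have h6 : IsSquare (r * ((pd (S.erase p) : ℤ) : ZMod p)) ↔
          IsSquare ((pd (S \ J) : ℤ) : ZMod p) := by
        have e3 : (r * ((pd (S.erase p) : ℤ) : ZMod p)) * s ^ 2 =
            ((pd (S \ J) : ℤ) : ZMod p) * v ^ 2 := by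
          have e4 : v ^ 2 = r * ((pd (J.erase p) : ℤ) : ZMod p) * s ^ 2 := by
            rw [sq v, ← hv, e1]
            push_cast
            rw [hs]
            ring
          rw [e4, e2]
          push_cast
          ring
        have e5 := sq_mul_iff (x := (r * ((pd (S.erase p) : ℤ) : ZMod p)) * s ^ 2) hs0 rfl
        rw [e3] at e5
        exact e5.symm.trans (sq_mul_iff hv0 rfl)
      exact h6.symm
    have h7 : nq p (∏ q ∈ S \ J, q) = n4 p := by
      rw [pd_cast, ← nq_zero, ← n4_zero] at h5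
      have k1 : ∀ x : ZMod 2, x = 0 ∨ x = 1 := by decide
      rcases k1 (nq p (∏ q ∈ S \ J, q)) with h8 | h8 <;> rcases k1 (n4 p) with h9 | h9
      · rw [h8, h9]
      · have := h5.1 h8
        rw [this] at h9
        exact absurd h9 (by decide)
      · have := h5.2 h9
        rw [this] at h8
        exact absurd h8 (by decide)
      · rw [h8, h9]
    have hQJ : S \ J = QA S ∪ (PA S \ J) := by
      ext q
      rw [Finset.mem_sdiff, Finset.mem_union, Finset.mem_sdiff]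
      constructor
      · rintro ⟨a1, a2⟩
        have h1 : q ∈ QA S ∪ PA S := by rw [union_A]; exact a1
        rcases Finset.mem_union.1 h1 with h2 | h2
        · exact Or.inl h2
        · exact Or.inr ⟨h2, a2⟩
      · rintro (a1 | ⟨a1, a2⟩)
        · exact ⟨hQS a1, fun h => Finset.disjoint_left.1 (disj_A S) a1 (hJP h)⟩
        · exact ⟨hPS a1, a2⟩
    have h8 := nq_prod hpp (S := S \ J) (fun l hl => hSp l (Finset.mem_sdiff.1 hl).1) hpSJ
    rw [h7, hQJ, Finset.sum_union ((disj_A S).mono_right Finset.sdiff_subset)] at h8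
    rw [add_assoc, ← h8, CharTwo.add_self_eq_zero]

end

end Q283.GS
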