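import Pool.Agent.Q283.GM.Sel2
import Pool.Agent.Q283.GM.RankB

set_option autoImplicit false
set_option linter.unusedSectionVars false

/-!
# The isogeny Selmer groups of the twists of `X_0(49)`: the orders
-/

open scoped Classical

namespace Q283.GS

open Finset
open Pool.Agent.Y700 (PC)
open Pool.Agent.Y814.BSD14 Pool.Agent.Y809.BSD14
open Pool.Agent.Y698 (Inq)
open Pool.Agent.Y698.SG (Spl mat nq n4 nq_prod nq_zero n4_zero not_dvd_pr loc_all)
open Pool.Agent.Y698.SG.Cv (LocI)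
open Q283.GW (CF PA QA union_A disj_A PA_spl QA_inq ρ49)
open Q283.GM (Kr mem_Kr rk)
open Q283.XF (nf)
open Q283.J2 (nr_nq nf_n4)
open Pool.Agent.Y703.CQ (nr)

/-! ### the two curves -/

theorem pd4 {S : Finset ℕ} (hS : CF S) : pd S % 4 = 1 := by
  have h := Pool.Agent.Y698.prod_mod_four (S := S) fun q hq => (hS q hq).2
  unfold pd
  omega

theorem inB {q : ℕ} (hq : Inq q) (r m : ZMod q) (hm : m ≠ 0) :
    r ^ 2 + (((-42 : ℤ) : ZMod q) * m) * r + ((-7 : ℤ) : ZMod q) * m ^ 2 ≠ 0 := by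
  have : Fact q.Prime := ⟨hq.pr⟩
  have h2 := two_ne hq.pr hq.m4
  have h8 : (8 : ZMod q) ≠ 0 := by
    have : (8 : ZMod q) = 2 ^ 3 := by norm_num
    rw [this]
    exact pow_ne_zero 3 h2
  intro h
  push_cast at h
  obtain ⟨i, hi⟩ := neg_one_sq hq.pr hq.m4
  apply hq.ns
  refine ⟨i * (r - 21 * m) / (8 * m), ?_⟩
  have h8m : 8 * m ≠ 0 := mul_ne_zero h8 hm
  rw [div_mul_div_comm, eq_div_iff (mul_ne_zero h8m h8m)]
  linear_combination -(r - 21 * m) ^ 2 * hi + h

theorem inA {q : ℕ} (hq : Inq q) (r m : ZMod q) (hm : m ≠ 0) :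
    r ^ 2 + (((21 : ℤ) : ZMod q) * m) * r + ((112 : ℤ) : ZMod q) * m ^ 2 ≠ 0 := by
  have : Fact q.Prime := ⟨hq.pr⟩
  intro h
  push_cast at h
  apply hq.ns
  refine ⟨(2 * r + 21 * m) / m, ?_⟩
  rw [div_mul_div_comm, eq_div_iff (mul_ne_zero hm hm)]
  linear_combination -4 * h

/-- the dual curve -/
theorem selB {S : Finset ℕ} (hS : CF S) {z : ℤ} (hz : Squarefree z)
    (h : ∀ (l : ℕ) [Fact l.Prime], PC (-42 * pd S) (-7 * pd S ^ 2) l z) :
    ∃ J, KerJ S J ∧ (z = pd J ∨ z = -7 * pd J) := by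
  have h2 := twoB (pd4 hS) hz (h 2)
  obtain ⟨J, u, hJ, hzJ, hu⟩ := nec hS (c1 := -42) (c2 := -7) (fun q hq h2 h7 h0 => by
      have h1 : q ∣ 7 := by
        have := Int.natAbs_dvd_natAbs.2 h0
        simpa using this
      exact h7 ((Nat.prime_dvd_prime_iff_eq hq (by norm_num)).1 h1))
    (fun q hq r m hm => inB (QA_inq hS q hq) r m hm)
    (fun p hp => (u_sq (PA_spl S p hp) (u := -7) (Or.inr rfl)).1)
    (fun p hp r m hm hr => rtB (PA_spl S p hp).pr (PA_spl S p hp).m4 hm (by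
      push_cast at hr; exact hr)) hz (by omega) h
  refine ⟨J, hJ, ?_⟩
  have hJ4 : pd J % 4 = 1 := pd4 fun q hq => hS q (Finset.mem_filter.1 (hJ.1 hq)).1
  have hu' : u = 1 ∨ u = -1 ∨ u = 7 ∨ u = -7 := by omega
  rcases hu' with rfl | rfl | rfl | rfl
  · left; rw [hzJ, one_mul]
  · exfalso; omega
  · exfalso; omega
  · right; exact hzJ

/-- the curve -/
theorem selA {S : Finset ℕ} (hS : CF S) {z : ℤ} (hz : Squarefree z) (hz0 : 0 < z)
    (h : ∀ (l : ℕ) [Fact l.Prime], PC (21 * pd S) (112 * pd S ^ 2) l z) :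
    ∃ J, KerJ S J ∧ (z = pd J ∨ z = 7 * pd J) := by
  have h2 := twoA (pd4 hS) hz (h 2)
  obtain ⟨J, u, hJ, hzJ, hu⟩ := nec hS (c1 := 21) (c2 := 112) (fun q hq h2 h7 h0 => by
      have h1 : q ∣ 2 ^ 4 * 7 := by
        have := Int.natAbs_dvd_natAbs.2 h0
        simpa using this
      rcases (hq.dvd_mul).1 h1 with h3 | h3
      · exact h2 ((Nat.prime_dvd_prime_iff_eq hq (by norm_num)).1 (hq.dvd_of_dvd_pow h3))
      · exact h7 ((Nat.prime_dvd_prime_iff_eq hq (by norm_num)).1 h3))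
    (fun q hq r m hm => inA (QA_inq hS q hq) r m hm)
    (fun p hp => by
      have h3 := (u_sq (PA_spl S p hp) (u := 7) (Or.inr rfl)).1
      obtain ⟨s, hs⟩ := h3
      refine ⟨4 * s, ?_⟩
      push_cast at hs ⊢
      linear_combination 16 * hs)
    (fun p hp r m hm hr => rtA (PA_spl S p hp).pr (PA_spl S p hp).m4 hm (by
      push_cast at hr; exact hr)) hz h2 h
  refine ⟨J, hJ, ?_⟩
  have hJ0 : 0 < pd J := by
    unfold pd
    exact_mod_cast Finset.prod_pos fun q hq =>
      (hS q (Finset.mem_filter.1 (hJ.1 hq)).1).1.pos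
  have hu' : u = 1 ∨ u = -1 ∨ u = 7 ∨ u = -7 := by omega
  rcases hu' with rfl | rfl | rfl | rfl
  · left; rw [hzJ, one_mul]
  · exfalso; omega
  · right; exact hzJ
  · exfalso; omega

/-- **sufficiency for the dual curve** -/
theorem selB_suf {S J : Finset ℕ} (hS : CF S) (hJ : KerJ S J) :
    (∀ (p : ℕ) [Fact p.Prime], LocI ℚ_[p] (21 * pd S) (112 * pd S ^ 2) (pd J)) ∧
      LocI ℝ (21 * pd S) (112 * pd S ^ 2) (pd J) := by
  have h := loc_all (QA_inq hS) (PA_spl S) hJ.1 hJ.2.1 hJ.2.2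
  rw [union_A] at h
  exact h

/-- multiplication by the class of `(0, 0)` -/
theorem loc_neg {L : Type} [Field L] [CharZero L] {M d : ℤ} (hM : M ≠ 0) (hd : d ≠ 0)
    (h : LocI L (21 * M) (112 * M ^ 2) d) : LocI L (21 * M) (112 * M ^ 2) (-7 * d) := by
  obtain ⟨X, Y, r, h1, h2, h3⟩ := h
  have hM' : (M : L) ≠ 0 := by exact_mod_cast hM
  have hd' : (d : L) ≠ 0 := by exact_mod_cast hd
  have hr : r ≠ 0 := by
    rintro rfl
    apply h1
    rw [h3]; ring
  have h7 : (-7 : L) ≠ 0 := by norm_num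
  refine ⟨-7 * M ^ 2 / X, 7 * M ^ 2 * Y / X ^ 2, M / (d * r), ?_, ?_, ?_⟩
  · exact div_ne_zero (mul_ne_zero h7 (pow_ne_zero 2 hM')) h1
  · push_cast at h2 ⊢
    field_simp
    linear_combination 7 * h2
  · push_cast
    rw [h3]
    field_simp

/-! ### the number of the sets -/

/-- the indicator function -/
noncomputable def ind (J : Finset ℕ) (p : ℕ) : ZMod 2 := if p ∈ J then 1 else 0

theorem KerJ_iff {S J : Finset ℕ} (hJ : J ⊆ PA S) : KerJ S J ↔ ind J ∈ Kr ρ49.Φ nf S := by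
  have hPS : PA S ⊆ S := Finset.filter_subset _ _
  have hQS : QA S ⊆ S := Finset.filter_subset _ _
  have hQJ : S \ J = QA S ∪ (PA S \ J) := by
    ext q
    rw [Finset.mem_sdiff, Finset.mem_union, Finset.mem_sdiff]
    constructor
    · rintro ⟨a1, a2⟩
      have h1 : q ∈ QA S ∪ PA S := by rw [union_A]; exact a1
      rcases Finset.mem_union.1 h1 with h2 | h2
      · exact Or.inl h2
      · exact Or.inr ⟨h2, a2⟩
    · rintro (a1 | ⟨a1, a2⟩)
      · exact ⟨hQS a1, fun h => Finset.disjoint_left.1 (disj_A S) a1 (hJ h)⟩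
      · exact ⟨hPS a1, a2⟩
  have hrow : ∀ i ∈ PA S, (i ∈ J → ∑ q ∈ S, nr i q * (ind J q + ind J i) + nf i * ind J i =
      n4 i + ∑ q ∈ QA S, nq i q + ∑ j ∈ PA S \ J, nq i j) ∧
      (i ∉ J → ∑ q ∈ S, nr i q * (ind J q + ind J i) + nf i * ind J i = ∑ j ∈ J, nq i j) := by
    intro i _
    constructor
    · intro hi
      have e0 : ind J i = 1 := if_pos hi
      rw [e0, mul_one, add_assoc, ← Finset.sum_union ((disj_A S).mono_right Finset.sdiff_subset),
        ← hQJ, nf_n4, add_comm]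
      congr 1
      rw [← Finset.sum_sdiff (hJ.trans hPS)]
      have e1 : ∑ q ∈ J, nr i q * (ind J q + 1) = 0 := by
        refine Finset.sum_eq_zero fun q hq => ?_
        have : ind J q = 1 := if_pos hq
        rw [this, CharTwo.add_self_eq_zero, mul_zero]
      rw [e1, add_zero]
      refine Finset.sum_congr rfl fun q hq => ?_
      have : ind J q = 0 := if_neg (Finset.mem_sdiff.1 hq).2
      rw [this, zero_add, mul_one, nr_nq]
    · intro hi
      have e0 : ind J i = 0 := if_neg hi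
      rw [e0, mul_zero, add_zero, ← Finset.sum_sdiff (hJ.trans hPS)]
      have e1 : ∑ q ∈ S \ J, nr i q * (ind J q + 0) = 0 := by
        refine Finset.sum_eq_zero fun q hq => ?_
        have : ind J q = 0 := if_neg (Finset.mem_sdiff.1 hq).2
        rw [this, add_zero, mul_zero]
      rw [e1, zero_add]
      refine Finset.sum_congr rfl fun q hq => ?_
      have : ind J q = 1 := if_pos hq
      rw [this, add_zero, mul_one, nr_nq]
  rw [mem_Kr]
  constructor
  · rintro ⟨-, h1, h2⟩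
    refine ⟨fun p hp => if_neg fun h => hp (Finset.mem_filter.1 (hJ h)), fun p hp ha => ?_⟩
    have hpP : p ∈ PA S := Finset.mem_filter.2 ⟨hp, ha⟩
    by_cases hpJ : p ∈ J
    · rw [(hrow p hpP).1 hpJ]
      exact h2 p hpJ
    · rw [(hrow p hpP).2 hpJ]
      exact h1 p (Finset.mem_sdiff.2 ⟨hpP, hpJ⟩)
  · rintro ⟨-, h2⟩
    refine ⟨hJ, fun i hi => ?_, fun i hi => ?_⟩
    · obtain ⟨h3, h4⟩ := Finset.mem_sdiff.1 hi
      rw [← (hrow i h3).2 h4]
      exact h2 i (hPS h3) (Finset.mem_filter.1 h3).2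
    · have h3 := hJ hi
      rw [← (hrow i h3).1 hi]
      exact h2 i (hPS h3) (Finset.mem_filter.1 h3).2

/-- the sets -/
noncomputable def KS (S : Finset ℕ) : Finset (Finset ℕ) := (PA S).powerset.filter fun J => KerJ S J

theorem mem_KS {S J : Finset ℕ} : J ∈ KS S ↔ KerJ S J := by
  unfold KS
  rw [Finset.mem_filter, Finset.mem_powerset]
  exact ⟨fun h => h.2, fun h => ⟨h.1, h⟩⟩

/-- **the number of the sets** -/
theorem card_KS (S : Finset ℕ) : (KS S).card = 2 ^ rk ρ49.Φ nf S := by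
  rw [← Q283.GW.card_Kr, ← Nat.card_eq_finsetCard]
  refine Nat.card_congr
    { toFun := fun J => ⟨ind J.1, (KerJ_iff (mem_KS.1 J.2).1).1 (mem_KS.1 J.2)⟩
      invFun := fun x => ⟨(PA S).filter fun p => x.1 p ≠ 0, ?_⟩
      left_inv := ?_
      right_inv := ?_ }
  · rw [mem_KS, KerJ_iff (Finset.filter_subset _ _)]
    have e : ind ((PA S).filter fun p => x.1 p ≠ 0) = x.1 := by
      funext p
      unfold ind
      by_cases hp : p ∈ PA S
      · by_cases hx : x.1 p = 0
        · have h0 : p ∉ (PA S).filter fun p => x.1 p ≠ 0 := fun h =>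
            absurd hx (Finset.mem_filter.1 h).2
          rw [if_neg h0, hx]
        · rw [if_pos (Finset.mem_filter.2 ⟨hp, hx⟩)]
          have k1 : ∀ y : ZMod 2, y ≠ 0 → 1 = y := by decide
          exact k1 _ hx
      · rw [if_neg (fun h => hp (Finset.mem_filter.1 h).1)]
        exact ((mem_Kr.1 x.2).1 p fun h => hp (Finset.mem_filter.2 h)).symm
    rw [e]
    exact x.2
  · rintro ⟨J, hJ⟩
    apply Subtype.ext
    ext p
    simp only [Finset.mem_filter]
    constructor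
    · rintro ⟨h1, h2⟩
      by_contra h3
      exact h2 (if_neg h3)
    · intro h
      refine ⟨(mem_KS.1 hJ).1 h, ?_⟩
      have : ind J p = 1 := if_pos h
      rw [this]
      exact one_ne_zero
  · rintro ⟨x, hx⟩
    apply Subtype.ext
    funext p
    show ind _ p = x p
    unfold ind
    by_cases hp : p ∈ PA S
    · by_cases hx' : x p = 0
      · have h0 : p ∉ (PA S).filter fun p => x p ≠ 0 := fun h =>
          absurd hx' (Finset.mem_filter.1 h).2
        exact (if_neg h0).trans hx'.symm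
      · rw [if_pos (Finset.mem_filter.2 ⟨hp, hx'⟩)]
        have k1 : ∀ y : ZMod 2, y ≠ 0 → 1 = y := by decide
        exact k1 _ hx'
    · rw [if_neg (fun h => hp (Finset.mem_filter.1 h).1)]
      exact ((mem_Kr.1 hx).1 p fun h => hp (Finset.mem_filter.2 h)).symm

end Q283.GS
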