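import Pool.Agent.Q283.GM.W49

/-!
# Primes `1` modulo `m` on which a product of primes is not a square
-/

set_option autoImplicit false
set_option linter.unusedSectionVars false

open scoped Classical

namespace Q283.GM

open Finset
open Pool.Agent.Y703.CQ (nr)

theorem HM.mono {w w' : ℕ → Prop} (h : HM w) (hw : ∀ p, p.Prime → w p → w' p) : HM w' := by
  obtain ⟨θ, C, h0, h1⟩ := h
  refine ⟨θ, C, h0, fun y hy => (h1 y hy).trans ?_⟩
  refine sum_le_sum_of_subset_of_nonneg (fun p hp => ?_) fun p _ _ => by positivity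
  obtain ⟨h2, h3, h4⟩ := mem_filter.1 hp
  exact mem_filter.2 ⟨h2, h3, hw p h3 h4⟩

theorem nr_of_one {p r : ℕ} (hp : p.Prime) (hr : r.Prime) (h4 : p % 4 = 1) (h2 : r ≠ 2)
    (h : p % r = 1) : nr p r = 0 := by
  have : Fact p.Prime := ⟨hp⟩
  have : Fact r.Prime := ⟨hr⟩
  unfold nr
  rw [if_pos]
  rw [ZMod.exists_sq_eq_prime_iff_of_mod_four_eq_one h4 h2]
  have e : (p : ZMod r) = 1 := by
    rw [← ZMod.natCast_mod, h, Nat.cast_one]
  rw [e]
  exact ⟨1, by ring⟩

theorem nr_of_non {p r : ℕ} (hp : p.Prime) (hr : r.Prime) (h4 : p % 4 = 1) (h2 : r ≠ 2) {g : ZMod r}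
    (hg : ¬ IsSquare g) (h : (p : ZMod r) = g) : nr p r = 1 := by
  have : Fact p.Prime := ⟨hp⟩
  have : Fact r.Prime := ⟨hr⟩
  unfold nr
  rw [if_neg]
  rw [ZMod.exists_sq_eq_prime_iff_of_mod_four_eq_one h4 h2, h]
  exact hg

/-- **many primes `1` modulo `m` on which a given product of primes is not a square** -/
theorem hm_sep {m : ℕ} (h4 : 4 ∣ m) (hm : 0 < m) {e : Finset ℕ} (hne : e.Nonempty)
    (he : ∀ r ∈ e, r.Prime ∧ r ≠ 2 ∧ r.Coprime m) :
    HM fun p => p % m = 1 ∧ ∑ r ∈ e, nr p r ≠ 0 := by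
  obtain ⟨q, hq⟩ := hne
  obtain ⟨hqp, hq2, hqm⟩ := he q hq
  have : Fact q.Prime := ⟨hqp⟩
  obtain ⟨g, hg⟩ : ∃ g : ZMod q, ¬ IsSquare g := by
    refine FiniteField.exists_nonsquare ?_
    rw [ZMod.ringChar_zmod_n]
    exact hq2
  set E := ∏ r ∈ e.erase q, r with hE
  have hE0 : 0 < E := Finset.prod_pos fun r hr => (he r (Finset.mem_of_mem_erase hr)).1.pos
  have hcE : (m * E).Coprime q := by
    refine Nat.Coprime.mul_left hqm.symm ?_
    refine Nat.Coprime.prod_left fun r hr => ?_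
    exact (Nat.coprime_primes (he r (Finset.mem_of_mem_erase hr)).1 hqp).2 (Finset.ne_of_mem_erase hr)
  have hg0 : g.val.Coprime q := by
    rw [Nat.coprime_comm, hqp.coprime_iff_not_dvd]
    intro h
    apply hg
    have h1 : g = 0 := by
      rw [← ZMod.natCast_zmod_val g]
      exact (ZMod.natCast_eq_zero_iff _ _).2 h
    rw [h1]
    exact ⟨0, by ring⟩
  set a := (Nat.chineseRemainder hcE 1 g.val : ℕ) with ha
  have ha1 : a ≡ 1 [MOD m * E] := (Nat.chineseRemainder hcE 1 g.val).2.1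
  have ha2 : a ≡ g.val [MOD q] := (Nat.chineseRemainder hcE 1 g.val).2.2
  have hN : 0 < m * E * q := Nat.mul_pos (Nat.mul_pos hm hE0) hqp.pos
  have haN : a < m * E * q := Nat.chineseRemainder_lt_mul hcE _ _ (Nat.mul_pos hm hE0).ne' hqp.ne_zero
  have hac : a.Coprime (m * E * q) := by
    refine Nat.Coprime.mul_right ?_ ?_
    · unfold Nat.Coprime
      rw [ha1.gcd_eq]
      exact Nat.gcd_one_left _
    · unfold Nat.Coprime
      rw [ha2.gcd_eq]
      exact hg0
  have hcl := hm_cls hN {a} (fun b hb => by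
    rw [mem_singleton.1 hb]
    exact ⟨haN, hac⟩) (singleton_nonempty a)
  refine hcl.mono fun p hp h => ?_
  have h1 : p % (m * E * q) = a := mem_singleton.1 h.2
  have hpa : p ≡ a [MOD m * E * q] := by
    unfold Nat.ModEq
    rw [h1, Nat.mod_eq_of_lt haN]
  have hp1 : p ≡ 1 [MOD m * E] := (hpa.of_mul_right q).trans ha1
  have hpm : p ≡ 1 [MOD m] := hp1.of_mul_right E
  have hm4 : 1 < m := by
    obtain ⟨k, hk⟩ := h4
    omega
  have hp4 : p % 4 = 1 := by
    obtain ⟨k, hk⟩ := h4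
    rw [hk] at hpm
    exact hpm.of_mul_right k
  refine ⟨?_, ?_⟩
  · have h2 : p % m = 1 % m := hpm
    rw [h2]
    exact Nat.mod_eq_of_lt hm4
  · rw [← Finset.add_sum_erase e (fun r => nr p r) hq]
    have e1 : nr p q = 1 := by
      refine nr_of_non hp hqp hp4 hq2 hg ?_
      have h5 : p ≡ g.val [MOD q] := (hpa.of_mul_left (m * E)).trans ha2
      rw [← ZMod.natCast_zmod_val g]
      exact (ZMod.natCast_eq_natCast_iff _ _ _).2 h5
    have e2 : ∑ r ∈ e.erase q, nr p r = 0 := by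
      refine Finset.sum_eq_zero fun r hr => ?_
      have hr' := he r (Finset.mem_of_mem_erase hr)
      refine nr_of_one hp hr'.1 hp4 hr'.2.1 ?_
      have h5 : p ≡ 1 [MOD E] := hp1.of_mul_left m
      have h6 : p ≡ 1 [MOD r] := h5.of_dvd (Finset.dvd_prod_of_mem _ hr)
      have h7 : p % r = 1 % r := h6
      rw [h7]
      exact Nat.mod_eq_of_lt hr'.1.one_lt
    show nr p q + ∑ r ∈ e.erase q, nr p r ≠ 0
    rw [e1, e2]
    decide

/-- the corank only depends on the active primes of the set -/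
theorem rk_congr {Φ Φ' : Fam} {S : Finset ℕ} (f : ℕ → ZMod 2) (h : ∀ p ∈ S, Φ.A p ↔ Φ'.A p) :
    rk Φ f S = rk Φ' f S := by
  have e : Kr Φ f S = Kr Φ' f S := by
    ext x
    rw [mem_Kr, mem_Kr]
    refine and_congr (forall_congr' fun p => ?_) (forall_congr' fun p => forall_congr' fun hp => ?_)
    · by_cases hp : p ∈ S
      · simp only [hp, h p hp, true_and]
      · simp only [hp, false_and, not_false_eq_true, true_imp_iff]
    · rw [h p hp]
  unfold rk
  rw [e]

/-- **the joint law of the coranks for a class of residues** -/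
theorem RC.law (ρ : RC) (f : ℕ → ZMod 2) {M : ℕ} (r : Fin M → ℕ) (U : Fin M → Finset ℕ)
    (hU : ∀ k, ∀ p ∈ U k, p.Prime ∧ p ≠ 2 ∧ p.Coprime ρ.m) (hinj : ∀ k l, k ≠ l → U k ≠ U l) :
    Filter.Tendsto (fun X : ℕ => (((Icc 1 X).filter fun D : ℕ => (Squarefree D ∧
        ∀ p ∈ D.primeFactors, ρ.Φ.P p) ∧ ∀ k, rk ρ.Φ f (symmDiff D.primeFactors (U k)) = r k).card :
          ℝ) / (((Icc 1 X).filter fun D : ℕ => Squarefree D ∧ ∀ p ∈ D.primeFactors, ρ.Φ.P p).card :
          ℝ)) Filter.atTop (nhds (cR r)) := by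
  have hW : OkU (univ.biUnion U) U := by
    refine ⟨fun u hu => ?_, fun k => Finset.subset_biUnion_of_mem U (Finset.mem_univ k)⟩
    obtain ⟨k, -, hk⟩ := Finset.mem_biUnion.1 hu
    exact ⟨(hU k u hk).1, (hU k u hk).2.1⟩
  have hHM : ∀ k l, k ≠ l → HM fun p => ρ.Φ.A p ∧ sep (fun _ => f) U k l p ≠ 0 := by
    intro k l hkl
    have he : ∀ r ∈ symmDiff (U k) (U l), r.Prime ∧ r ≠ 2 ∧ r.Coprime ρ.m := by
      intro r hr
      rcases Finset.mem_symmDiff.1 hr with h | h
      · exact hU k r h.1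
      · exact hU l r h.1
    have hne : (symmDiff (U k) (U l)).Nonempty := by
      rw [Finset.nonempty_iff_ne_empty]
      intro h0
      have h1 : symmDiff (U k) (U l) = ⊥ := h0
      rw [symmDiff_eq_bot] at h1
      exact hinj k l hkl h1
    refine (hm_sep ρ.h4 ρ.pos hne he).mono fun p hp h => ⟨⟨hp, ?_⟩, ?_⟩
    · rw [h.1]
      exact ρ.h1
    · unfold sep
      rw [add_assoc, CharTwo.add_self_eq_zero, add_zero]
      exact h.2
  have h := t_DEN (ρ.ok) r (fun _ => f) (univ.biUnion U) U hW hHM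
  refine h.congr fun X => Q283.GW.ratio (fun D => ?_) (fun D => Iff.rfl) _
  rw [and_assoc]
  exact Iff.rfl

end Q283.GM
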